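import Pool.Agent.Lib.MP_481aff_gt.Mg.G001
import Pool.Agent.Lib.MP_481aff_gt.Hyper

section

/-! # Sections 3a and 3d: two consecutive tiny darts -/

namespace Pool.Agent.Lib.MP_481aff_gt

namespace VAlg

variable {E : Type} (A : VAlg E)

/-- The relations of section 3a. -/
def Rel (e : E) (q k : ℤ) : Prop :=
  A.S e = (A.f ^ q) (A.S (A.ι e)) ∧ A.ι e = (A.f ^ q) ((A.α ^ k) e) ∧
    A.ι (A.α e) = (A.f ^ q) ((A.α ^ k) (A.β⁻¹ e))

/-- The vertical ratio of the wide left face of the step dart is large. -/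
theorem T7_ratio (e : E) (h : A.y (A.S e) ≤ A.η * A.y e) :
    A.D * A.y (A.W (A.W⁻¹ (A.S e))) < A.y (A.W⁻¹ (A.S e)) := by
  have h1 : A.W (A.W⁻¹ (A.S e)) = A.S e := by simp
  rw [h1]
  have h2 := A.M1 e
  have h3 : A.D * A.y (A.S e) ≤ A.D * (A.η * A.y e) :=
    mul_le_mul_of_nonneg_left h A.D_pos.le
  have h4 := A.η_mul
  have h5 := A.y_pos e
  have h6 : A.D * (A.η * A.y e) = A.y e / 10 := by
    have : A.D * (A.η * A.y e) = (A.η * (10 * A.D)) * A.y e / 10 := by ring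
    rw [this, h4]; ring
  linarith

theorem T7_cWinv (e : E) : A.c (A.W⁻¹ e) = A.c e := by
  have h := A.c_W (A.W⁻¹ e)
  have h1 : A.W (A.W⁻¹ e) = e := by simp
  rw [h1] at h
  exact h.symm

theorem tiny_rel (e : E) (h : A.Tiny e) : ∃ q k : ℤ, A.Rel e q k := by
  obtain ⟨-, -, -, hy1, hy2⟩ := h
  have hy2' : A.y (A.S (A.ι e)) ≤ A.η * A.y (A.ι e) := by rw [A.y_ι]; exact hy2
  have r1 := A.T7_ratio e hy1
  have r2 := A.T7_ratio (A.ι e) hy2'
  obtain ⟨q, hq⟩ := A.U_y (A.W⁻¹ (A.S (A.ι e))) (A.W⁻¹ (A.S e))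
    (by rw [A.T7_cWinv, A.T7_cWinv, A.c_S, A.c_S, A.c_ι]) r2 r1
  have hS : A.S e = (A.f ^ q) (A.S (A.ι e)) := by
    have h1 := congrArg A.W hq
    rw [← A.fz_W] at h1
    simpa using h1
  obtain ⟨j, hj1, hj2⟩ := A.exists_βz_of_S_eq e ((A.f ^ q) (A.ι e)) (by rw [← A.fz_S]; exact hS)
  refine ⟨q, j, hS, ?_, ?_⟩
  · rw [A.β_zpow, A.fz_ι] at hj1
    have h1 : (A.f ^ q) e = (A.α ^ (-j)) (A.ι e) := A.ι.injective hj1
    have h2 : (A.α ^ j) ((A.f ^ q) e) = A.ι e := by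
      rw [h1, ← Equiv.Perm.mul_apply, ← zpow_add]; simp
    rw [A.fz_α]; exact h2.symm
  · rw [A.β_zpow] at hj2
    have h0 : A.α ((A.f ^ q) (A.ι e)) = A.ι ((A.f ^ q) (A.β⁻¹ e)) := by
      rw [A.α_apply, ← A.fz_W, A.β_inv_apply]
    rw [h0] at hj2
    have h1 : (A.f ^ q) (A.β⁻¹ e) = (A.α ^ (-j)) (A.ι (A.α e)) := A.ι.injective hj2
    have h2 : (A.α ^ j) ((A.f ^ q) (A.β⁻¹ e)) = A.ι (A.α e) := by
      rw [h1, ← Equiv.Perm.mul_apply, ← zpow_add]; simp
    rw [A.fz_α]; exact h2.symm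

theorem T7_x_αβ (e : E) (h : A.SameC e) :
    A.x (A.α (A.β⁻¹ e)) = A.x e + A.x (A.S (A.ι e)) + A.x (A.S e) := by
  rw [A.α_apply, A.x_ι, A.β_inv_apply, A.x_W, A.x_W, h.2.2, A.x_ι]

theorem T7_x_β_inv (e : E) : A.x (A.β⁻¹ e) = A.x e + A.x (A.S (A.ι e)) := by
  rw [A.β_inv_apply, A.x_W, A.x_ι]

theorem T7_y_β_inv (e : E) : A.y (A.β⁻¹ e) = A.y e - A.y (A.S (A.ι e)) := by
  have h := A.y_W (A.ι e)
  rw [A.y_ι] at h
  rw [A.β_inv_apply]; linarith

theorem T7_x_α (e : E) : A.x (A.α e) = A.x e + A.x (A.S e) := by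
  rw [A.α_apply, A.x_ι, A.x_W]

theorem T7_y_α (e : E) : A.y (A.α e) = A.y e - A.y (A.S e) := by
  have h := A.y_W e
  rw [A.α_apply, A.y_ι]; linarith

/-- The relations `(R0)` and `(R1')`. -/
theorem T7_R0 (e : E) (q k q' k' : ℤ) (r0 : A.Rel e q k) (r1 : A.Rel (A.α e) q' k') :
    (A.f ^ (q - q')) (A.β⁻¹ e) = (A.α ^ (k' - k + 1)) e ∧
    (A.f ^ (q - q')) (A.α e) = (A.β ^ (-(k' - k + 1))) e := by
  obtain ⟨-, a1, a3⟩ := r0
  obtain ⟨-, b1, -⟩ := r1
  have hα : A.α e = (A.α ^ (1 : ℤ)) e := by simp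
  constructor
  · rw [a3] at b1
    have s1 : (A.f ^ (q - q')) ((A.α ^ k) (A.β⁻¹ e)) = (A.α ^ k') (A.α e) := by
      rw [sub_eq_neg_add, zpow_add, Equiv.Perm.mul_apply, b1, ← Equiv.Perm.mul_apply, ← zpow_add]
      simp
    rw [A.fz_α] at s1
    have s2 := congrArg (A.α ^ (-k)) s1
    rw [← Equiv.Perm.mul_apply, ← zpow_add, neg_add_cancel, zpow_zero, Equiv.Perm.coe_one, id_eq]
      at s2
    rw [s2, hα, ← Equiv.Perm.mul_apply, ← Equiv.Perm.mul_apply, ← zpow_add, ← zpow_add]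
    congr 2
    ring
  · rw [A.β_zpow, neg_neg, a1, A.fz_α, ← Equiv.Perm.mul_apply (A.α ^ (k' - k + 1)), ← zpow_add]
    have e1 : k' - k + 1 + k = k' + 1 := by ring
    rw [e1, ← A.fz_α, ← A.fz_ι]
    have h2 : (A.α ^ (k' + 1)) e = (A.f ^ (-q')) (A.ι (A.α e)) := by
      rw [b1, ← Equiv.Perm.mul_apply (A.f ^ (-q')), ← zpow_add]
      have e3 : -q' + q' = 0 := by ring
      rw [e3, zpow_add]; simp
    rw [h2, ← A.fz_ι, A.ι_ι, ← Equiv.Perm.mul_apply (A.f ^ q), ← zpow_add]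
    rfl

theorem pair_false (e : E) (h0 : A.Tiny e) (h1 : A.Tiny (A.α e)) (q k q' k' : ℤ)
    (r0 : A.Rel e q k) (r1 : A.Rel (A.α e) q' k') (hq : A.lam ^ |q - q'| < 3 / 2) : False := by
  obtain ⟨R0, R1'⟩ := A.T7_R0 e q k q' k' r0 r1
  obtain ⟨hS, hx1, hx2, hy1, hy2⟩ := h0
  obtain ⟨a0, a1, -⟩ := r0
  set κ := k' - k + 1 with hκ
  set ε := q - q' with hε
  set L := A.lam ^ ε with hL
  have hLpos : 0 < L := zpow_pos A.lam_pos _
  have hw := A.x_pos e
  have hh := A.y_pos e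
  have hlam := A.one_lt_lam
  -- bounds on `L`
  have hLlo : 2 / 3 < L := by
    have h2 : A.lam ^ (-ε) ≤ A.lam ^ |ε| := zpow_le_zpow_right₀ hlam.le (neg_le_abs ε)
    rw [zpow_neg, ← hL] at h2
    have h3 : L⁻¹ < 3 / 2 := lt_of_le_of_lt h2 hq
    rw [inv_lt_comm₀ hLpos (by norm_num)] at h3
    linarith
  have hLhi : L < 3 / 2 := lt_of_le_of_lt (zpow_le_zpow_right₀ hlam.le (le_abs_self ε)) hq
  have hη : A.η < 1 / 10 := by
    unfold η
    have := A.one_lt_D
    rw [div_lt_div_iff₀ (by linarith) (by norm_num)]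
    linarith
  -- sizes
  have sx : A.x (A.S e) = A.lam ^ q * A.x (A.S (A.ι e)) := by
    have := congrArg A.x a0
    rw [A.x_fz] at this; exact this
  have sy : A.y (A.S e) = A.lam ^ (-q) * A.y (A.S (A.ι e)) := by
    have := congrArg A.y a0
    rw [A.y_fz] at this; exact this
  have px := A.x_pos (A.S (A.ι e))
  have py := A.y_pos (A.S (A.ι e))
  have px' := A.x_pos (A.S e)
  have py' := A.y_pos (A.S e)
  have q0 : q ≠ 0 := by
    intro hq0
    rw [hq0, zpow_zero, Equiv.Perm.coe_one, id_eq] at a1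
    have h2 := congrArg A.x a1
    rw [A.x_ι] at h2
    have h3 : (0 : ℤ) = k := (A.x_αz_strictMono e).injective (by simpa using h2)
    rw [← h3, zpow_zero, Equiv.Perm.coe_one, id_eq] at a1
    exact A.ι_ne e a1
  have hq01 : A.lam ^ q < 1 ∨ 1 < A.lam ^ q := by
    rcases lt_or_gt_of_ne q0 with h | h
    · left; exact zpow_lt_one_of_neg₀ hlam h
    · right; exact one_lt_zpow₀ hlam h
  have hqinv : A.lam ^ q * A.lam ^ (-q) = 1 := by
    rw [← zpow_add₀ A.lam_pos.ne']; simp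
  have hqpos : 0 < A.lam ^ q := zpow_pos A.lam_pos _
  have hqpos' : 0 < A.lam ^ (-q) := zpow_pos A.lam_pos _
  have ε0 : ε ≠ 0 := by
    intro hε0
    rw [hε0, zpow_zero, Equiv.Perm.coe_one, id_eq] at R0
    have X := congrArg A.x R0
    have Y := congrArg A.y R0
    rw [A.T7_x_β_inv] at X
    rw [A.T7_y_β_inv] at Y
    have Xa := A.T7_x_α e
    have Ya := A.T7_y_α e
    have hα : A.α e = (A.α ^ (1 : ℤ)) e := by simp
    rw [hα] at Xa Ya
    rcases lt_trichotomy κ 1 with hk | hk | hk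
    · have m1 := A.x_αz_strictMono e hk
      have m2 := A.y_αz_strictAnti e hk
      simp only at m1 m2
      rw [← X, Xa, sx] at m1
      rw [← Y, Ya, sy] at m2
      have n1 : 1 < A.lam ^ q := by
        by_contra hcon
        push Not at hcon
        nlinarith
      have n2 : 1 < A.lam ^ (-q) := by
        by_contra hcon
        push Not at hcon
        nlinarith
      nlinarith
    · rw [hk, Xa, sx] at X
      have : A.lam ^ q = 1 := by
        have h3 : (A.lam ^ q - 1) * A.x (A.S (A.ι e)) = 0 := by linarith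
        rcases mul_eq_zero.mp h3 with h4 | h4
        · linarith
        · exact absurd h4 px.ne'
      rcases hq01 with h | h <;> linarith
    · have m1 := A.x_αz_strictMono e hk
      have m2 := A.y_αz_strictAnti e hk
      simp only at m1 m2
      rw [← X, Xa, sx] at m1
      rw [← Y, Ya, sy] at m2
      have n1 : A.lam ^ q < 1 := by
        by_contra hcon
        push Not at hcon
        nlinarith
      have n2 : A.lam ^ (-q) < 1 := by
        by_contra hcon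
        push Not at hcon
        nlinarith
      nlinarith
  have hL1 : L ≠ 1 := by
    rcases lt_or_gt_of_ne ε0 with h | h
    · exact (zpow_lt_one_of_neg₀ hlam h).ne
    · exact (one_lt_zpow₀ hlam h).ne'
  -- sizes of `α ^ κ e` and `β ^ (-κ) e`
  have X0 : A.x ((A.α ^ κ) e) = L * (A.x e + A.x (A.S (A.ι e))) := by
    rw [← R0, A.x_fz, A.T7_x_β_inv]
  have X1 : A.x ((A.β ^ (-κ)) e) = L * (A.x e + A.x (A.S e)) := by
    rw [← R1', A.x_fz, A.T7_x_α]
  have hLinv : A.lam ^ (-ε) = L⁻¹ := by rw [zpow_neg]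
  have Y0 : A.y ((A.α ^ κ) e) = L⁻¹ * (A.y e - A.y (A.S (A.ι e))) := by
    rw [← R0, A.y_fz, A.T7_y_β_inv, hLinv]
  have Y1 : A.y ((A.β ^ (-κ)) e) = L⁻¹ * (A.y e - A.y (A.S e)) := by
    rw [← R1', A.y_fz, A.T7_y_α, hLinv]
  have hLinvlo : 2 / 3 < L⁻¹ := by
    rw [lt_inv_comm₀ (by norm_num) hLpos]
    linarith
  -- commutation
  have key : A.x ((A.α ^ κ) ((A.β ^ (-κ)) e)) =
      A.x ((A.β ^ (-κ)) e) + A.x ((A.α ^ κ) e) - A.x e := by
    rcases lt_trichotomy κ 0 with hk | hk | hk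
    · obtain ⟨m, hm⟩ : ∃ m : ℕ, κ = -(m : ℤ) := ⟨κ.natAbs, by omega⟩
      have hR := A.R1 e m m (by
        have e1 : ((m : ℤ)) = -κ := by omega
        rw [e1, neg_neg, X0, X1]
        have l1 : 2 / 3 * A.x e < L * A.x e := mul_lt_mul_of_pos_right hLlo hw
        have l2 : 0 < L * A.x (A.S e) := mul_pos hLpos px'
        have l3 : 0 < L * A.x (A.S (A.ι e)) := mul_pos hLpos px
        have l4 : L * (A.x e + A.x (A.S e)) + L * (A.x e + A.x (A.S (A.ι e))) =
          2 * (L * A.x e) + L * A.x (A.S e) + L * A.x (A.S (A.ι e)) := by ring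
        linarith)
      rw [hm, neg_neg, ← hR.1]
      exact hR.2
    · rw [hk]; simp
    · obtain ⟨m, hm⟩ : ∃ m : ℕ, κ = (m : ℤ) := ⟨κ.natAbs, by omega⟩
      have hR := A.R2 e m m (by
        rw [← hm, Y0, Y1]
        have i0 : A.η * A.y e ≤ 1 / 10 * A.y e := mul_le_mul_of_nonneg_right hη.le hh.le
        have i1 : 9 / 10 * A.y e ≤ A.y e - A.y (A.S (A.ι e)) := by linarith
        have i2 : 9 / 10 * A.y e ≤ A.y e - A.y (A.S e) := by linarith
        have i3 : 2 / 3 * (A.y e - A.y (A.S (A.ι e))) ≤ L⁻¹ * (A.y e - A.y (A.S (A.ι e))) :=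
          mul_le_mul_of_nonneg_right hLinvlo.le (by linarith)
        have i4 : 2 / 3 * (A.y e - A.y (A.S e)) ≤ L⁻¹ * (A.y e - A.y (A.S e)) :=
          mul_le_mul_of_nonneg_right hLinvlo.le (by linarith)
        linarith)
      rw [hm, ← hR.1]
      exact hR.2
  have lhs : A.x ((A.α ^ κ) ((A.β ^ (-κ)) e)) =
      L * (L * (A.x e + A.x (A.S (A.ι e)) + A.x (A.S e))) := by
    have hα : A.α e = (A.α ^ (1 : ℤ)) e := by simp
    have hα1 : A.α (A.β⁻¹ e) = (A.α ^ (1 : ℤ)) (A.β⁻¹ e) := by simp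
    rw [← R1', ← A.fz_α, A.x_fz, hα, ← Equiv.Perm.mul_apply (A.α ^ κ), ← zpow_add,
      add_comm κ 1, zpow_add, Equiv.Perm.mul_apply, ← R0, ← A.fz_α, A.x_fz, ← hα1,
      A.T7_x_αβ e hS]
  rw [lhs, X0, X1] at key
  have key2 : (L - 1) * (L * (A.x e + A.x (A.S (A.ι e)) + A.x (A.S e)) - A.x e) = 0 := by
    have k1 : (L - 1) * (L * (A.x e + A.x (A.S (A.ι e)) + A.x (A.S e)) - A.x e) =
      L * (L * (A.x e + A.x (A.S (A.ι e)) + A.x (A.S e))) -
      (L * (A.x e + A.x (A.S e)) + L * (A.x e + A.x (A.S (A.ι e))) - A.x e) := by ring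
    rw [k1, key]; ring
  have key3 : L * (A.x e + A.x (A.S (A.ι e)) + A.x (A.S e)) = A.x e := by
    rcases mul_eq_zero.mp key2 with h | h
    · exact absurd (by linarith) hL1
    · linarith
  have hκ1 : κ + 1 = 0 := by
    have hα1 : A.α (A.β⁻¹ e) = (A.α ^ (1 : ℤ)) (A.β⁻¹ e) := by simp
    have h3 : A.x ((A.α ^ (κ + 1)) e) = A.x e := by
      rw [add_comm κ 1, zpow_add, Equiv.Perm.mul_apply, ← R0, ← A.fz_α, A.x_fz, ← hα1,
        A.T7_x_αβ e hS]
      exact key3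
    exact (A.x_αz_strictMono e).injective (by simpa using h3)
  have hfin : (A.f ^ ε) (A.α (A.β⁻¹ e)) = e := by
    have hα1 : A.α (A.β⁻¹ e) = (A.α ^ (1 : ℤ)) (A.β⁻¹ e) := by simp
    rw [hα1, A.fz_α, R0, ← Equiv.Perm.mul_apply, ← zpow_add, add_comm 1 κ, hκ1]
    simp
  have hfin2 : A.α (A.β⁻¹ e) = (A.f ^ (-ε)) e := by
    have := congrArg (A.f ^ (-ε)) hfin
    rw [← Equiv.Perm.mul_apply, ← zpow_add] at this
    simpa using this
  have hLne : L < 1 := by
    by_contra hcon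
    push Not at hcon
    have k1 : 1 * (A.x e + A.x (A.S (A.ι e)) + A.x (A.S e)) ≤
      L * (A.x e + A.x (A.S (A.ι e)) + A.x (A.S e)) :=
      mul_le_mul_of_nonneg_right hcon (by linarith)
    linarith
  have hεneg : ε < 0 := by
    by_contra hcon
    push Not at hcon
    have := one_le_zpow₀ hlam.le hcon
    rw [← hL] at this
    linarith
  refine A.no_hyperbolic e (-ε) (by omega) hfin2 ?_ ?_
  · rw [← A.sameC_comm e hS]; exact hfin2
  · rw [hLinv]
    have h4 : L⁻¹ * A.x e = A.x e + A.x (A.S (A.ι e)) + A.x (A.S e) := by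
      rw [inv_mul_eq_iff_eq_mul₀ hLpos.ne']
      exact key3.symm
    have h5 : L⁻¹ * A.x e ≤ (1 + 2 * A.η) * A.x e := by
      have k2 : (1 + 2 * A.η) * A.x e = A.x e + A.η * A.x e + A.η * A.x e := by ring
      rw [h4, k2]; linarith
    exact le_of_mul_le_mul_right h5 hw

end VAlg

end Pool.Agent.Lib.MP_481aff_gt
end

section

/-! # Sections 3b and 3c: no long run of tiny darts -/

namespace Pool.Agent.Lib.MP_481aff_gt

theorem T8_pow_half {η : ℝ} {N i : ℕ} (h0 : 0 ≤ η) (h1 : η ≤ 1) (hN : (N : ℝ) * η ≤ 1 / 2)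
    (hi : i ≤ N) : 1 / 2 ≤ (1 - η) ^ i := by
  have h2 : (1 - η) ^ N ≤ (1 - η) ^ i := pow_le_pow_of_le_one (by linarith) (by linarith) hi
  have h3 : 1 + (N : ℝ) * (-η) ≤ (1 + (-η)) ^ N := one_add_mul_le_pow (by linarith) N
  have h4 : (1 + (-η)) ^ N = (1 - η) ^ N := by ring
  rw [h4] at h3
  linarith

theorem T8_inc {η : ℝ} {N : ℕ} (u : ℕ → ℝ) (hu : ∀ i, 0 < u i) (h0 : 0 ≤ η) (h1 : η ≤ 1)
    (hN : (N : ℝ) * η ≤ 1 / 2) (h : ∀ i < N, (1 - η) * u (i + 1) ≤ u i) (i : ℕ) (hi : i ≤ N) :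
    u i ≤ 2 * u 0 := by
  have h2 : ∀ i ≤ N, (1 - η) ^ i * u i ≤ u 0 := by
    intro i
    induction i with
    | zero => intro _; simp
    | succ n ih =>
      intro hn
      have h3 := ih (by omega)
      have h4 := h n (by omega)
      have h5 : 0 ≤ (1 - η) ^ n := pow_nonneg (by linarith) n
      calc (1 - η) ^ (n + 1) * u (n + 1) = (1 - η) ^ n * ((1 - η) * u (n + 1)) := by ring
        _ ≤ (1 - η) ^ n * u n := by gcongr
        _ ≤ u 0 := h3
  have h3 := h2 i hi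
  have h4 := T8_pow_half h0 h1 hN hi
  nlinarith [hu i]

theorem T8_dec {η : ℝ} {N : ℕ} (u : ℕ → ℝ) (hu : ∀ i, 0 < u i) (h0 : 0 ≤ η) (h1 : η ≤ 1)
    (hN : (N : ℝ) * η ≤ 1 / 2) (h : ∀ i < N, (1 - η) * u i ≤ u (i + 1)) (i : ℕ) (hi : i ≤ N) :
    u 0 ≤ 2 * u i := by
  have h2 : ∀ i ≤ N, (1 - η) ^ i * u 0 ≤ u i := by
    intro i
    induction i with
    | zero => intro _; simp
    | succ n ih =>
      intro hn
      have h3 := ih (by omega)
      have h4 := h n (by omega)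
      have h5 : 0 ≤ 1 - η := by linarith
      calc (1 - η) ^ (n + 1) * u 0 = (1 - η) * ((1 - η) ^ n * u 0) := by ring
        _ ≤ (1 - η) * u n := by gcongr
        _ ≤ u (n + 1) := h4
  have h3 := h2 i hi
  have h4 := T8_pow_half h0 h1 hN hi
  nlinarith [hu 0]

namespace VAlg

variable {E : Type} (A : VAlg E)

theorem T8_succ (e : E) (i : ℕ) :
    (A.α ^ ((i + 1 : ℕ) : ℤ)) e = A.α ((A.α ^ (i : ℤ)) e) := by
  rw [Nat.cast_succ, add_comm, zpow_one_add]
  rfl

theorem run_false (e : E) (N : ℕ) (hN : Real.log A.D ≤ N * Real.log (3 / 2))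
    (hN' : (N : ℝ) ≤ Real.log A.D / Real.log (3 / 2) + 1)
    (h : ∀ i : ℕ, i ≤ N → A.Tiny ((A.α ^ (i : ℤ)) e)) : False := by
  have hD := A.D_pos
  have hD1 := A.one_lt_D
  have hlam := A.lam_pos
  have hlam1 := A.one_lt_lam
  have hη := A.η_pos
  have hηm := A.η_mul
  have hlog32 : (1 : ℝ) / 3 ≤ Real.log (3 / 2) := by
    have := Real.one_sub_inv_le_log_of_pos (show (0 : ℝ) < 3 / 2 by norm_num)
    norm_num at this ⊢
    linarith
  have hlogD : Real.log A.D ≤ A.D - 1 := Real.log_le_sub_one_of_pos hD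
  have hN3 : (N : ℝ) ≤ 3 * A.D := by
    have : Real.log A.D / Real.log (3 / 2) ≤ (A.D - 1) * 3 := by
      rw [div_le_iff₀ (by linarith)]
      nlinarith
    linarith
  have hη1 : A.η ≤ 1 := by nlinarith
  have hNη : (N : ℝ) * A.η ≤ 1 / 2 := by nlinarith
  have hN1 : 1 ≤ N := by
    by_contra hcon
    have h0 : N = 0 := by omega
    subst h0
    have := Real.log_pos hD1
    simp at hN
    linarith
  -- the relations
  have hrel : ∀ i : ℕ, ∃ q k : ℤ, i ≤ N → A.Rel ((A.α ^ (i : ℤ)) e) q k := by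
    intro i
    by_cases hi : i ≤ N
    · obtain ⟨q, k, hr⟩ := A.tiny_rel _ (h i hi)
      exact ⟨q, k, fun _ => hr⟩
    · exact ⟨0, 0, fun hi' => absurd hi' hi⟩
  choose q k hqk using hrel
  set F : ℕ → E := fun i => (A.α ^ (i : ℤ)) e with hF
  have hF0 : F 0 = e := by simp [hF]
  have hFs : ∀ i, F (i + 1) = A.α (F i) := fun i => A.T8_succ e i
  have hT : ∀ i, i ≤ N → A.Tiny (F i) := h
  set s : E := A.S (A.ι e) with hs
  have hSι : ∀ i, i ≤ N → A.S (A.ι (F i)) = s := by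
    intro i
    induction i with
    | zero => intro _; rw [hF0]
    | succ n ih =>
      intro hn
      rw [hFs, A.S_ι_α _ (hT n (by omega)).1, ih (by omega)]
  have hS : ∀ i, i ≤ N → A.S (F i) = (A.f ^ q i) s := by
    intro i hi
    rw [← hSι i hi]
    exact (hqk i hi).1
  have hsx := A.x_pos s
  have hsy := A.y_pos s
  have hxS : ∀ i, i ≤ N → A.x (A.S (F i)) = A.lam ^ q i * A.x s := by
    intro i hi
    rw [hS i hi, A.x_fz]
  have hyS : ∀ i, i ≤ N → A.y (A.S (F i)) = A.lam ^ (-q i) * A.y s := by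
    intro i hi
    rw [hS i hi, A.y_fz]
  have hw : ∀ i, A.x (F (i + 1)) = A.x (F i) + A.x (A.S (F i)) := by
    intro i
    rw [hFs, A.α_apply, A.x_ι, A.x_W]
  have hh : ∀ i, A.y (F i) = A.y (F (i + 1)) + A.y (A.S (F i)) := by
    intro i
    rw [hFs, A.α_apply, A.y_ι, ← A.y_W]
  -- factor two
  have hw2 : ∀ i, i ≤ N → ∀ j, j ≤ N → A.x (F i) ≤ 2 * A.x (F j) := by
    intro i hi j hj
    have h1 : A.x (F i) ≤ 2 * A.x (F 0) := by
      refine T8_inc (N := N) (fun i => A.x (F i)) (fun i => A.x_pos _) hη.le hη1 hNη ?_ i hi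
      intro i hi
      have h2 := (hT i hi.le).2.1
      have h3 := hw i
      have h4 := A.x_pos (F i)
      have h5 := A.x_pos (F (i + 1))
      have h6 : A.x (F (i + 1)) ≤ (1 + A.η) * A.x (F i) := by rw [h3]; linarith
      nlinarith [mul_nonneg (sq_nonneg A.η) h4.le, mul_le_mul_of_nonneg_left h6 (by linarith : 0 ≤ 1 - A.η)]
    have h2 : A.x (F 0) ≤ A.x (F j) := by
      have := (A.x_αz_strictMono e).monotone (Int.natCast_nonneg j)
      simpa [hF] using this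
    linarith
  have hh2 : ∀ i, i ≤ N → ∀ j, j ≤ N → A.y (F i) ≤ 2 * A.y (F j) := by
    intro i hi j hj
    have h1 : A.y (F 0) ≤ 2 * A.y (F j) := by
      refine T8_dec (N := N) (fun i => A.y (F i)) (fun i => A.y_pos _) hη.le hη1 hNη ?_ j hj
      intro i hi
      have h2 := (hT i hi.le).2.2.2.1
      have h3 := hh i
      linarith
    have h2 : A.y (F i) ≤ A.y (F 0) := by
      have := (A.y_αz_strictAnti e).antitone (Int.natCast_nonneg i)
      simpa [hF] using this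
    linarith
  -- range of the exponents
  have hrange : ∀ i, i ≤ N → ∀ j, j ≤ N → A.lam ^ (q i - q j) ≤ A.D / 5 := by
    intro i hi j hj
    have h1 : A.lam ^ q i * A.x s ≤ A.η * A.x (F i) := by
      rw [← hxS i hi]; exact (hT i hi).2.1
    have h2 : A.x (F j) < A.lam ^ q j * (A.D ^ 2 * A.x s) := by
      have h3 := A.M2 (F j)
      rw [hS j hj, ← A.fz_W, A.x_fz] at h3
      have h4 : A.x (F j) < A.x (A.W (F j)) := by
        rw [A.x_W]; linarith [A.x_pos (A.S (F j))]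
      have h5 := A.x_W_le s
      have h6 : 0 < A.lam ^ q j := zpow_pos hlam _
      have h7 : A.lam ^ q j * A.x (A.W s) ≤ A.lam ^ q j * (A.D ^ 2 * A.x s) := by gcongr
      linarith
    have h3 := hw2 i hi j hj
    have h6 : 0 < A.lam ^ q j := zpow_pos hlam _
    rw [zpow_sub₀ hlam.ne', div_le_iff₀ h6]
    have h8 : A.lam ^ q i * A.x s ≤ (A.D / 5 * A.lam ^ q j) * A.x s := by
      calc A.lam ^ q i * A.x s ≤ A.η * A.x (F i) := h1
        _ ≤ A.η * (2 * A.x (F j)) := by gcongr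
        _ ≤ A.η * (2 * (A.lam ^ q j * (A.D ^ 2 * A.x s))) := by gcongr
        _ = (A.η * (10 * A.D)) * (A.D / 5 * A.lam ^ q j) * A.x s := by ring
        _ = _ := by rw [hηm, one_mul]
    exact le_of_mul_le_mul_right h8 hsx
  -- the darts `m i`
  have hβF : ∀ i, i ≤ N → A.β⁻¹ (F i) = (A.α ^ (i : ℤ)) (A.β⁻¹ e) := by
    intro i
    induction i with
    | zero => intro _; rw [hF0]; simp
    | succ n ih =>
      intro hn
      rw [hFs, ← A.sameC_comm _ (hT n (by omega)).1, ih (by omega), A.T8_succ]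
  set m : ℕ → E := fun i => (A.α ^ (k i + i)) (A.β⁻¹ e) with hm
  have hmF : ∀ i, i ≤ N → A.ι (F (i + 1)) = (A.f ^ q i) (m i) := by
    intro i hi
    rw [hFs, (hqk i hi).2.2]
    change (A.f ^ q i) ((A.α ^ k i) (A.β⁻¹ (F i))) = _
    rw [hβF i hi, hm]
    simp only
    rw [zpow_add]
    rfl
  have hxm : ∀ i, i ≤ N → A.lam ^ q i * A.x (m i) = A.x (F (i + 1)) := by
    intro i hi
    rw [← A.x_fz, ← hmF i hi, A.x_ι]
  have hym : ∀ i, i ≤ N → A.lam ^ (-q i) * A.y (m i) = A.y (F (i + 1)) := by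
    intro i hi
    rw [← A.y_fz, ← hmF i hi, A.y_ι]
  have hβm : ∀ i, i ≤ N → (A.f ^ q i) (A.β⁻¹ (m i)) = A.W (F (i + 1)) := by
    intro i hi
    have h1 := A.fz_β (q i) (-1) (m i)
    rw [zpow_neg_one] at h1
    rw [h1, ← hmF i hi, A.β_inv_apply, A.ι_ι]
  have hxβm : ∀ i, i + 1 ≤ N → A.lam ^ q i * A.x (A.β⁻¹ (m i)) =
      A.x (F (i + 1)) + A.lam ^ q (i + 1) * A.x s := by
    intro i hi
    rw [← A.x_fz, hβm i (by omega), A.x_W, hxS (i + 1) hi]
  have hyβm : ∀ i, i + 1 ≤ N → A.lam ^ (-q i) * A.y (A.β⁻¹ (m i)) =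
      A.y (F (i + 1)) - A.lam ^ (-q (i + 1)) * A.y s := by
    intro i hi
    rw [← A.y_fz, hβm i (by omega), A.y_W (F (i + 1)), hyS (i + 1) hi]
    ring
  have hlp : ∀ n : ℤ, 0 < A.lam ^ n := fun n => zpow_pos hlam n
  -- differences
  have hdx : ∀ i, i + 1 ≤ N → A.x (A.β⁻¹ (m i)) - A.x (m i) = A.lam ^ (q (i + 1) - q i) * A.x s := by
    intro i hi
    have h1 := hxβm i hi
    have h2 := hxm i (by omega)
    have h3 : A.lam ^ q i * (A.x (A.β⁻¹ (m i)) - A.x (m i)) = A.lam ^ q (i + 1) * A.x s := by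
      rw [mul_sub, h1, h2]; ring
    have h4 := hlp (q i)
    have h5 : A.lam ^ q i * (A.lam ^ (q (i + 1) - q i) * A.x s) = A.lam ^ q (i + 1) * A.x s := by
      rw [← mul_assoc, ← zpow_add₀ hlam.ne']; congr 2; ring
    exact mul_left_cancel₀ h4.ne' (h3.trans h5.symm)
  have hstep : ∀ i j : ℕ, i + 1 ≤ N → j + 1 ≤ N → ∀ n : ℕ, m j = (A.α ^ (n : ℤ)) (m i) →
      q (i + 1) - q i = q (j + 1) - q j := by
    intro i j hi hj n hn
    have hcond : A.y (m i) < A.y ((A.β ^ (-((1 : ℕ) : ℤ))) (m i)) +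
        A.y ((A.α ^ (n : ℤ)) (m i)) := by
      rw [← hn]
      have e1 : (A.β ^ (-((1 : ℕ) : ℤ))) (m i) = A.β⁻¹ (m i) := by
        rw [Nat.cast_one, zpow_neg_one]
      rw [e1]
      have h1 := hyβm i hi
      have h2 := hym i (by omega)
      have h3 := hym j (by omega)
      have h4 := hlp (q i)
      have h5 : A.lam ^ (-q i) * A.lam ^ q i = 1 := by
        rw [← zpow_add₀ hlam.ne']; simp
      have h5j : A.lam ^ (-q j) * A.lam ^ q j = 1 := by
        rw [← zpow_add₀ hlam.ne']; simp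
      have h6 : A.y (m i) - A.y (A.β⁻¹ (m i)) =
          A.lam ^ q i * (A.lam ^ (-q (i + 1)) * A.y s) := by
        have h7 : A.lam ^ (-q i) * (A.y (m i) - A.y (A.β⁻¹ (m i))) =
            A.lam ^ (-q (i + 1)) * A.y s := by
          rw [mul_sub, h1, h2]; ring
        rw [← h7, ← mul_assoc, mul_comm (A.lam ^ q i), h5, one_mul]
      have h8 : A.y (m j) = A.lam ^ q j * A.y (F (j + 1)) := by
        rw [← h3, ← mul_assoc, mul_comm (A.lam ^ q j), h5j, one_mul]
      have h9 : A.lam ^ (-q (i + 1)) * A.y s ≤ A.η * A.y (F (i + 1)) := by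
        rw [← hyS (i + 1) hi]; exact (hT (i + 1) hi).2.2.2.1
      have h10 := hh2 (i + 1) hi (j + 1) hj
      have h11 := hrange i (by omega) j (by omega)
      have h12 := A.y_pos (F (j + 1))
      have h13 : A.lam ^ q i = A.lam ^ (q i - q j) * A.lam ^ q j := by
        rw [← zpow_add₀ hlam.ne']; congr 1; ring
      have h14 := hlp (q j)
      have h15 : A.lam ^ q i * (A.lam ^ (-q (i + 1)) * A.y s) ≤
          1 / 25 * (A.lam ^ q j * A.y (F (j + 1))) := by
        calc A.lam ^ q i * (A.lam ^ (-q (i + 1)) * A.y s)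
            ≤ A.lam ^ q i * (A.η * A.y (F (i + 1))) := by gcongr
          _ ≤ A.lam ^ q i * (A.η * (2 * A.y (F (j + 1)))) := by gcongr
          _ = A.lam ^ (q i - q j) * (A.lam ^ q j * (A.η * (2 * A.y (F (j + 1))))) := by
              rw [h13]; ring
          _ ≤ A.D / 5 * (A.lam ^ q j * (A.η * (2 * A.y (F (j + 1))))) := by gcongr
          _ = (A.η * (10 * A.D)) * (1 / 25 * (A.lam ^ q j * A.y (F (j + 1)))) := by ring
          _ = _ := by rw [hηm, one_mul]
      have h16 : 0 < A.lam ^ q j * A.y (F (j + 1)) := mul_pos h14 h12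
      rw [h8]
      linarith
    have h2 := (A.R2 (m i) 1 n hcond).2
    have h1 := (A.R2 (m i) 1 n hcond).1
    rw [← hn] at h2
    have e1 : ∀ z, (A.β ^ (-((1 : ℕ) : ℤ))) z = A.β⁻¹ z := by
      intro z; rw [Nat.cast_one, zpow_neg_one]
    rw [e1, e1] at h2
    have h3 : A.lam ^ (q (i + 1) - q i) * A.x s = A.lam ^ (q (j + 1) - q j) * A.x s := by
      rw [← hdx i hi, ← hdx j hj]; linarith
    have h4 := mul_right_cancel₀ hsx.ne' h3
    exact zpow_right_injective₀ hlam hlam1.ne' h4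
  have hconst : ∀ i j : ℕ, i + 1 ≤ N → j + 1 ≤ N → q (i + 1) - q i = q (j + 1) - q j := by
    intro i j hi hj
    have hmm : ∀ i j : ℕ, m j = (A.α ^ ((k j + j) - (k i + i))) (m i) := by
      intro i j
      have h1 : A.α ^ (k j + j) = A.α ^ ((k j + j) - (k i + i)) * A.α ^ (k i + i) := by
        rw [← zpow_add]; congr 1; ring
      simp only [hm]
      rw [h1]
      rfl
    rcases le_total 0 ((k j + j) - (k i + i)) with h0 | h0
    · obtain ⟨n, hn⟩ := Int.eq_ofNat_of_zero_le h0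
      exact hstep i j hi hj n (by rw [hmm i j, hn])
    · have h0' : 0 ≤ (k i + i) - (k j + j) := by omega
      obtain ⟨n, hn⟩ := Int.eq_ofNat_of_zero_le h0'
      exact (hstep j i hj hi n (by rw [hmm j i, hn])).symm
  -- linear exponents
  have hlin : ∀ i : ℕ, i ≤ N → q i - q 0 = i * (q 1 - q 0) := by
    intro i
    induction i with
    | zero => intro _; simp
    | succ n ih =>
      intro hn
      have h1 := ih (by omega)
      have h2 := hconst n 0 hn hN1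
      simp only [zero_add] at h2
      push_cast
      linear_combination h1 + h2
  have hqN := hlin N le_rfl
  have hr1 := hrange 0 (Nat.zero_le _) N le_rfl
  have hr2 := hrange N le_rfl 0 (Nat.zero_le _)
  have habs : A.lam ^ ((N : ℤ) * |q 0 - q 1|) ≤ A.D / 5 := by
    rcases abs_choice (q 0 - q 1) with h1 | h1
    · rw [h1]
      have : (N : ℤ) * (q 0 - q 1) = q 0 - q N := by linear_combination hqN
      rw [this]; exact hr1
    · rw [h1]
      have : (N : ℤ) * -(q 0 - q 1) = q N - q 0 := by linear_combination -hqN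
      rw [this]; exact hr2
  have hfin : A.lam ^ |q 0 - q 1| < 3 / 2 := by
    have h1 : A.lam ^ ((N : ℤ) * |q 0 - q 1|) < A.D := by linarith
    rw [mul_comm, zpow_mul, zpow_natCast] at h1
    have h2 : 0 < A.lam ^ |q 0 - q 1| := hlp _
    have h3 := Real.log_lt_log (pow_pos h2 N) h1
    rw [Real.log_pow] at h3
    have h4 : (N : ℝ) * Real.log (A.lam ^ |q 0 - q 1|) < N * Real.log (3 / 2) := by linarith
    have h5 : (0 : ℝ) < N := by exact_mod_cast hN1
    have h6 := lt_of_mul_lt_mul_left h4 h5.le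
    exact (Real.log_lt_log_iff h2 (by norm_num)).1 h6
  refine A.pair_false e ?_ ?_ (q 0) (k 0) (q 1) (k 1) ?_ ?_ hfin
  · have := hT 0 (Nat.zero_le _); rwa [hF0] at this
  · have := hT 1 hN1; rw [hFs 0, hF0] at this; exact this
  · have := hqk 0 (Nat.zero_le _)
    have e0 : (A.α ^ ((0 : ℕ) : ℤ)) e = e := by simp
    rwa [e0] at this
  · have := hqk 1 hN1
    have e0 : (A.α ^ ((1 : ℕ) : ℤ)) e = A.α e := by simp
    rwa [e0] at this

end VAlg

end Pool.Agent.Lib.MP_481aff_gt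
end

section

/-! # Section 2 and the counting -/

namespace Pool.Agent.Lib.MP_481aff_gt

namespace VAlg

variable {E : Type} (A : VAlg E)

/-! ## Representatives -/

theorem T9_exists_rep (e : E) : ∃ k : ℤ, (A.f ^ k) e ∈ A.R := (A.rep e).exists

noncomputable def T9_k (e : E) : ℤ := (A.T9_exists_rep e).choose

noncomputable def T9_ρ (e : E) : E := (A.f ^ (A.T9_k e)) e

theorem T9_ρ_mem (e : E) : A.T9_ρ e ∈ A.R := (A.T9_exists_rep e).choose_spec

theorem T9_eq_of_mem {e e' : E} (he : e ∈ A.R) (he' : e' ∈ A.R) {k : ℤ}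
    (h : (A.f ^ k) e = e') : e = e' := by
  have h0 : (A.f ^ (0 : ℤ)) e ∈ A.R := by simpa using he
  have h1 : (A.f ^ k) e ∈ A.R := by rw [h]; exact he'
  have h2 := (A.rep e).unique h0 h1
  subst h2
  simpa using h

theorem T9_eq_of_ρ {u v : E} (h : A.T9_ρ u = A.T9_ρ v) : ∃ k : ℤ, (A.f ^ k) u = v := by
  refine ⟨-A.T9_k v + A.T9_k u, ?_⟩
  rw [zpow_add, Equiv.Perm.mul_apply]
  have h' : (A.f ^ (A.T9_k u)) u = (A.f ^ (A.T9_k v)) v := h
  rw [h', ← Equiv.Perm.mul_apply, ← zpow_add]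
  simp

theorem T9_sum_perm (σ : Equiv.Perm E) (hσ : ∀ (k : ℤ) (e : E), (A.f ^ k) (σ e) = σ ((A.f ^ k) e))
    (g : E → ℝ) (hg : ∀ (k : ℤ) (e : E), g ((A.f ^ k) e) = g e) :
    ∑ e ∈ A.R, g (σ e) = ∑ e ∈ A.R, g e := by
  classical
  have hinj : Set.InjOn (fun e => A.T9_ρ (σ e)) (A.R : Set E) := by
    intro e he e' he' h
    obtain ⟨k, hk⟩ := A.T9_eq_of_ρ h
    rw [hσ] at hk
    exact A.T9_eq_of_mem he he' (σ.injective hk)
  have himg : A.R.image (fun e => A.T9_ρ (σ e)) = A.R := by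
    apply Finset.eq_of_subset_of_card_le
    · intro z hz
      rw [Finset.mem_image] at hz
      obtain ⟨e, _, rfl⟩ := hz
      exact A.T9_ρ_mem _
    · rw [Finset.card_image_of_injOn hinj]
  calc ∑ e ∈ A.R, g (σ e) = ∑ e ∈ A.R, g (A.T9_ρ (σ e)) := by
        apply Finset.sum_congr rfl
        intro e _
        exact (hg _ _).symm
    _ = ∑ z ∈ A.R.image (fun e => A.T9_ρ (σ e)), g z := by
        rw [Finset.sum_image hinj]
    _ = ∑ e ∈ A.R, g e := by rw [himg]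

/-! ## Costs -/

noncomputable def T9_X (e : E) : ℝ := Real.log (A.x (A.W e) / A.x e)

noncomputable def T9_Y (e : E) : ℝ := Real.log (A.y e / A.y (A.W e))

noncomputable def T9_cost (e : E) : ℝ := A.T9_X e + A.T9_Y e

theorem T9_X_nonneg (e : E) : 0 ≤ A.T9_X e := by
  apply Real.log_nonneg
  rw [le_div_iff₀ (A.x_pos e), A.x_W]
  linarith [A.x_pos (A.S e)]

theorem T9_Y_nonneg (e : E) : 0 ≤ A.T9_Y e := by
  apply Real.log_nonneg
  rw [le_div_iff₀ (A.y_pos _), A.y_W e]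
  linarith [A.y_pos (A.S e)]

theorem T9_X_f (k : ℤ) (e : E) : A.T9_X ((A.f ^ k) e) = A.T9_X e := by
  unfold T9_X
  rw [← A.fz_W, A.x_fz, A.x_fz, mul_div_mul_left]
  exact zpow_ne_zero _ A.lam_pos.ne'

theorem T9_Y_f (k : ℤ) (e : E) : A.T9_Y ((A.f ^ k) e) = A.T9_Y e := by
  unfold T9_Y
  rw [← A.fz_W, A.y_fz, A.y_fz, mul_div_mul_left]
  exact zpow_ne_zero _ A.lam_pos.ne'

theorem T9_cost_f (k : ℤ) (e : E) : A.T9_cost ((A.f ^ k) e) = A.T9_cost e := by
  unfold T9_cost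
  rw [T9_X_f, T9_Y_f]

theorem T9_sum_cost : ∑ e ∈ A.R, A.T9_cost e = 8 * Real.log A.D := by
  have hsplit : ∀ g : E → ℝ, ∑ e ∈ A.R, g e =
      (∑ e ∈ A.R with A.c e = true, g e) + ∑ e ∈ A.R with A.c e = false, g e := by
    intro g
    rw [← Finset.sum_filter_add_sum_filter_not A.R (fun e => A.c e = true)]
    congr 1
    apply Finset.sum_congr _ (fun _ _ => rfl)
    ext e
    simp
  have hX : ∑ e ∈ A.R, A.T9_X e = 4 * Real.log A.D := by
    rw [hsplit]
    have h1 := A.sum_x true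
    have h2 := A.sum_x false
    unfold T9_X
    rw [h1, h2]
    ring
  have hY : ∑ e ∈ A.R, A.T9_Y e = 4 * Real.log A.D := by
    rw [hsplit]
    have h1 := A.sum_y true
    have h2 := A.sum_y false
    unfold T9_Y
    rw [h1, h2]
    ring
  unfold T9_cost
  rw [Finset.sum_add_distrib, hX, hY]
  ring

theorem T9_η_lt : A.η < 1 / 10 := by
  have h := A.η_mul
  have h1 := A.one_lt_D
  have h2 := A.η_pos
  nlinarith

theorem T9_log_one_add {t η : ℝ} (h0 : 0 < η) (h1 : η < 1 / 10) (ht : η < t) :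
    η / 2 ≤ Real.log (1 + t) := by
  have h2 : Real.log (1 + η) ≤ Real.log (1 + t) := by
    apply Real.log_le_log <;> linarith
  have h3 := Real.one_sub_inv_le_log_of_pos (show (0 : ℝ) < 1 + η by linarith)
  have h4 : η / 2 ≤ 1 - (1 + η)⁻¹ := by
    have h5 : 1 - (1 + η)⁻¹ = η / (1 + η) := by
      field_simp
      ring
    rw [h5]
    apply div_le_div_of_nonneg_left <;> linarith
  linarith

theorem T9_X_ge (e : E) (h : A.η * A.x e < A.x (A.S e)) : A.η / 2 ≤ A.T9_X e := by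
  have hx := A.x_pos e
  have h1 : A.x (A.W e) / A.x e = 1 + A.x (A.S e) / A.x e := by
    rw [A.x_W]
    field_simp
  unfold T9_X
  rw [h1]
  apply T9_log_one_add A.η_pos A.T9_η_lt
  rw [lt_div_iff₀ hx]
  exact h

theorem T9_Y_ge (e : E) (h : A.η * A.y e < A.y (A.S e)) : A.η / 2 ≤ A.T9_Y e := by
  have hy := A.y_pos e
  have hw := A.y_pos (A.W e)
  have h0 := A.y_W e
  have h1 : A.y e / A.y (A.W e) = 1 + A.y (A.S e) / A.y (A.W e) := by
    rw [eq_comm, ← div_self hw.ne', ← add_div, ← h0]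
  unfold T9_Y
  rw [h1]
  apply T9_log_one_add A.η_pos A.T9_η_lt
  rw [lt_div_iff₀ hw]
  have h2 : A.η * A.y (A.W e) ≤ A.η * A.y e := by
    apply mul_le_mul_of_nonneg_left _ A.η_pos.le
    linarith [A.y_pos (A.S e)]
  linarith

theorem T9_cost_nontiny (e : E) (h : ¬ A.Tiny e) :
    A.η / 2 ≤ A.T9_cost e + A.T9_cost (A.ι e) := by
  have hX := A.T9_X_nonneg e
  have hX' := A.T9_X_nonneg (A.ι e)
  have hY := A.T9_Y_nonneg e
  have hY' := A.T9_Y_nonneg (A.ι e)
  unfold T9_cost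
  rcases A.sameC_or_chg e with hs | hc
  · by_cases h1 : A.x (A.S e) ≤ A.η * A.x e
    · by_cases h2 : A.x (A.S (A.ι e)) ≤ A.η * A.x e
      · by_cases h3 : A.y (A.S e) ≤ A.η * A.y e
        · by_cases h4 : A.y (A.S (A.ι e)) ≤ A.η * A.y e
          · exact absurd ⟨hs, h1, h2, h3, h4⟩ h
          · have := A.T9_Y_ge (A.ι e) (by rw [A.y_ι]; linarith)
            linarith
        · have := A.T9_Y_ge e (by linarith)
          linarith
      · have := A.T9_X_ge (A.ι e) (by rw [A.x_ι]; linarith)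
        linarith
    · have := A.T9_X_ge e (by linarith)
      linarith
  · have h1 := A.chg_y e hc
    have ha := A.y_pos (A.W e)
    have hb := A.y_pos (A.W (A.ι e))
    have hy := A.y_pos e
    have h2 : A.T9_Y e + A.T9_Y (A.ι e) =
        Real.log ((A.y e / A.y (A.W e)) * (A.y e / A.y (A.W (A.ι e)))) := by
      rw [Real.log_mul (div_pos hy ha).ne' (div_pos hy hb).ne']
      unfold T9_Y
      rw [A.y_ι]
    have h3 : (4 : ℝ) ≤ (A.y e / A.y (A.W e)) * (A.y e / A.y (A.W (A.ι e))) := by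
      rw [div_mul_div_comm, le_div_iff₀ (mul_pos ha hb)]
      nlinarith [sq_nonneg (A.y (A.W e) - A.y (A.W (A.ι e)))]
    have h4 : Real.log 4 ≤ A.T9_Y e + A.T9_Y (A.ι e) := by
      rw [h2]
      exact Real.log_le_log (by norm_num) h3
    have h5 : (1 : ℝ) ≤ Real.log 4 := by
      have h6 := Real.one_sub_inv_le_log_of_pos (show (0 : ℝ) < 2 by norm_num)
      have h7 : Real.log 4 = 2 * Real.log 2 := by
        rw [show (4 : ℝ) = 2 ^ 2 by norm_num, Real.log_pow]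
        norm_num
      rw [h7]
      norm_num at h6
      linarith
    have h8 := A.T9_η_lt
    linarith

open Classical in
theorem card_nontiny :
    ((A.R.filter fun e => ¬ A.Tiny e).card : ℝ) ≤ 320 * A.D * Real.log A.D := by
  have h1 : ∑ e ∈ A.R, (A.T9_cost e + A.T9_cost (A.ι e)) = 16 * Real.log A.D := by
    rw [Finset.sum_add_distrib, A.T9_sum_perm A.ι A.fz_ι A.T9_cost A.T9_cost_f, A.T9_sum_cost]
    ring
  have h2 : ((A.R.filter fun e => ¬ A.Tiny e).card : ℝ) * (A.η / 2) ≤ 16 * Real.log A.D := by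
    rw [← h1, ← nsmul_eq_mul, ← Finset.sum_const]
    calc ∑ _e ∈ A.R.filter (fun e => ¬ A.Tiny e), A.η / 2
        ≤ ∑ e ∈ A.R.filter (fun e => ¬ A.Tiny e), (A.T9_cost e + A.T9_cost (A.ι e)) := by
          apply Finset.sum_le_sum
          intro e he
          exact A.T9_cost_nontiny e (Finset.mem_filter.mp he).2
      _ ≤ ∑ e ∈ A.R, (A.T9_cost e + A.T9_cost (A.ι e)) := by
          apply Finset.sum_le_sum_of_subset_of_nonneg (Finset.filter_subset _ _)
          intro e _ _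
          have hX := A.T9_X_nonneg e
          have hX' := A.T9_X_nonneg (A.ι e)
          have hY := A.T9_Y_nonneg e
          have hY' := A.T9_Y_nonneg (A.ι e)
          unfold T9_cost
          linarith
  have h3 := A.η_mul
  have h4 := A.D_pos
  calc ((A.R.filter fun e => ¬ A.Tiny e).card : ℝ)
      = ((A.R.filter fun e => ¬ A.Tiny e).card : ℝ) * (A.η / 2) * (20 * A.D) := by
        rw [mul_assoc]
        have : A.η / 2 * (20 * A.D) = 1 := by linarith
        rw [this, mul_one]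
    _ ≤ 16 * Real.log A.D * (20 * A.D) := by
        apply mul_le_mul_of_nonneg_right h2
        positivity
    _ = _ := by ring

theorem T9_sameC_f (k : ℤ) (e : E) (h : A.SameC e) : A.SameC ((A.f ^ k) e) := by
  obtain ⟨h1, h2, h3⟩ := h
  refine ⟨?_, ?_, ?_⟩
  · rw [← A.fz_ι, ← A.fz_W, ← A.fz_W, h1, A.fz_ι, A.fz_W, A.fz_W]
  · rw [← A.fz_W, ← A.fz_S, h2, A.fz_S, A.fz_ι]
  · rw [← A.fz_ι, ← A.fz_W, ← A.fz_S, h3, A.fz_S]

theorem T9_tiny_f (k : ℤ) (e : E) (h : A.Tiny e) : A.Tiny ((A.f ^ k) e) := by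
  obtain ⟨h1, h2, h3, h4, h5⟩ := h
  have hl : 0 < A.lam ^ k := zpow_pos A.lam_pos _
  have hl' : 0 < A.lam ^ (-k) := zpow_pos A.lam_pos _
  refine ⟨A.T9_sameC_f k e h1, ?_, ?_, ?_, ?_⟩
  · rw [← A.fz_S, A.x_fz, A.x_fz]
    nlinarith
  · rw [← A.fz_ι, ← A.fz_S, A.x_fz, A.x_fz]
    nlinarith
  · rw [← A.fz_S, A.y_fz, A.y_fz]
    nlinarith
  · rw [← A.fz_ι, ← A.fz_S, A.y_fz, A.y_fz]
    nlinarith

theorem T9_tiny_f_iff (k : ℤ) (e : E) : A.Tiny ((A.f ^ k) e) ↔ A.Tiny e := by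
  refine ⟨fun h => ?_, A.T9_tiny_f k e⟩
  have := A.T9_tiny_f (-k) _ h
  rwa [← Equiv.Perm.mul_apply, ← zpow_add, neg_add_cancel, zpow_zero, Equiv.Perm.one_apply] at this

open Classical in
theorem card_le (N : ℕ) (h : ∀ e : E, ∃ i : ℕ, i ≤ N ∧ ¬ A.Tiny ((A.α ^ (i : ℤ)) e)) :
    A.R.card ≤ (N + 1) * (A.R.filter fun e => ¬ A.Tiny e).card := by
  choose i hi hnt using h
  have hcard : (Finset.range (N + 1) ×ˢ (A.R.filter fun e => ¬ A.Tiny e)).card =
      (N + 1) * (A.R.filter fun e => ¬ A.Tiny e).card := by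
    rw [Finset.card_product, Finset.card_range]
  rw [← hcard]
  apply Finset.card_le_card_of_injOn (fun e => (i e, A.T9_ρ ((A.α ^ (i e : ℤ)) e)))
  · intro e _
    simp only [Finset.coe_product, Set.mem_prod, Finset.mem_coe, Finset.mem_range,
      Finset.mem_filter]
    refine ⟨Nat.lt_succ_of_le (hi e), A.T9_ρ_mem _, ?_⟩
    unfold T9_ρ
    rw [A.T9_tiny_f_iff]
    exact hnt e
  · intro e he e' he' hee
    simp only [Prod.mk.injEq] at hee
    obtain ⟨h1, h2⟩ := hee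
    obtain ⟨k, hk⟩ := A.T9_eq_of_ρ h2
    rw [A.fz_α, ← h1] at hk
    exact A.T9_eq_of_mem he he' ((A.α ^ (i e : ℤ)).injective hk)

theorem main : (A.R.card : ℝ) ≤
    320 * A.D * Real.log A.D * (Real.log A.D / Real.log (3 / 2) + 2) := by
  classical
  set N := ⌈Real.log A.D / Real.log (3 / 2)⌉₊ with hN
  have hlog : 0 < Real.log (3 / 2 : ℝ) := Real.log_pos (by norm_num)
  have hD : 0 < Real.log A.D := Real.log_pos A.one_lt_D
  have h1 : Real.log A.D ≤ N * Real.log (3 / 2) := by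
    have := Nat.le_ceil (Real.log A.D / Real.log (3 / 2))
    rw [div_le_iff₀ hlog] at this
    exact this
  have h2 : (N : ℝ) ≤ Real.log A.D / Real.log (3 / 2) + 1 :=
    (Nat.ceil_lt_add_one (by positivity)).le
  have h3 : ∀ e : E, ∃ i : ℕ, i ≤ N ∧ ¬ A.Tiny ((A.α ^ (i : ℤ)) e) := by
    intro e
    by_contra hcon
    push Not at hcon
    exact A.run_false e N h1 h2 hcon
  have h4 := A.card_le N h3
  have h5 := A.card_nontiny
  have h6 : (A.R.card : ℝ) ≤ (N + 1) * (A.R.filter fun e => ¬ A.Tiny e).card := by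
    exact_mod_cast h4
  have h7 : (0 : ℝ) ≤ (A.R.filter fun e => ¬ A.Tiny e).card := by positivity
  calc (A.R.card : ℝ) ≤ (N + 1) * (A.R.filter fun e => ¬ A.Tiny e).card := h6
    _ ≤ (Real.log A.D / Real.log (3 / 2) + 2) * (320 * A.D * Real.log A.D) := by
        apply mul_le_mul _ h5 h7 (by positivity)
        linarith
    _ = _ := by ring

end VAlg

end Pool.Agent.Lib.MP_481aff_gt
end
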