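import Pool.Agent.Lib.MP_481aff_gt.Defs
import Pool.Agent.Lib.MP_481aff_gt.Alg

section

/-! # Facts on one triangulation and on one flip -/

namespace Pool.Agent.Lib.MP_481aff_gt

namespace VTri

variable {H : Type} (T : VTri H)

/-- `h` is the tall side of its triangle. -/
def Tall (h : H) : Prop := T.pos (T.next h) = true ∧ T.pos (T.next (T.next h)) = false

/-- `h` is the wide side of its triangle. -/
def Wide (h : H) : Prop := T.pos (T.next h) = false ∧ T.pos (T.next (T.next h)) = true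

/-- The wide side of the triangle whose tall side is `h`. -/
def wd (h : H) : H := if T.pos h = true then T.next h else T.next (T.next h)

/-- The step side of the triangle whose tall side is `h`. -/
def sd (h : H) : H := if T.pos h = true then T.next (T.next h) else T.next h

private theorem T10_nnnn (h : H) : T.next (T.next (T.next (T.next h))) = T.next h :=
  congrArg T.next (T.next_next_next h)

/-- the six colour cases of a triangle -/
private theorem T10_cases (h : H) :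
    (T.pos h = false ∧ T.pos (T.next h) = true ∧ T.pos (T.next (T.next h)) = false ∧
      T.x (T.next (T.next h)) = T.x h + T.x (T.next h) ∧
      T.y h = T.y (T.next h) + T.y (T.next (T.next h))) ∨
    (T.pos h = true ∧ T.pos (T.next h) = true ∧ T.pos (T.next (T.next h)) = false ∧
      T.x (T.next h) = T.x h + T.x (T.next (T.next h)) ∧
      T.y h = T.y (T.next h) + T.y (T.next (T.next h))) ∨
    (T.pos h = false ∧ T.pos (T.next h) = false ∧ T.pos (T.next (T.next h)) = true ∧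
      T.y (T.next h) = T.y h + T.y (T.next (T.next h))) ∨
    (T.pos h = true ∧ T.pos (T.next h) = false ∧ T.pos (T.next (T.next h)) = true ∧
      T.y (T.next (T.next h)) = T.y h + T.y (T.next h)) ∨
    (T.pos h = false ∧ T.pos (T.next h) = true ∧ T.pos (T.next (T.next h)) = true ∧
      T.y (T.next h) = T.y h + T.y (T.next (T.next h))) ∨
    (T.pos h = true ∧ T.pos (T.next h) = false ∧ T.pos (T.next (T.next h)) = false ∧
      T.y (T.next (T.next h)) = T.y h + T.y (T.next h)) := by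
  have h3 := T.next_next_next h
  have h4 := T.T10_nnnn h
  have n0 := T.neg_corner h
  have n1 := T.neg_corner (T.next h)
  have n2 := T.neg_corner (T.next (T.next h))
  have p0 := T.pos_corner h
  have p1 := T.pos_corner (T.next h)
  have p2 := T.pos_corner (T.next (T.next h))
  have ts := T.two_slopes h
  rw [h3] at n1 n2 p1 p2
  rcases hc0 : T.pos h <;> rcases hc1 : T.pos (T.next h) <;>
    rcases hc2 : T.pos (T.next (T.next h))
  · exact absurd ⟨hc0.trans hc1.symm, hc0.trans hc2.symm⟩ ts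
  · refine Or.inr (Or.inr (Or.inl ⟨rfl, rfl, rfl, ?_⟩))
    have := (n1 hc1 hc2 hc0).2
    linarith
  · refine Or.inl ⟨rfl, rfl, rfl, (n0 hc0 hc1 hc2).1, (n0 hc0 hc1 hc2).2⟩
  · refine Or.inr (Or.inr (Or.inr (Or.inr (Or.inl ⟨rfl, rfl, rfl, ?_⟩))))
    have := (p2 hc2 hc0 hc1).2
    linarith
  · refine Or.inr (Or.inr (Or.inr (Or.inr (Or.inr ⟨rfl, rfl, rfl, ?_⟩))))
    have := (n2 hc2 hc0 hc1).2
    linarith
  · refine Or.inr (Or.inr (Or.inr (Or.inl ⟨rfl, rfl, rfl, ?_⟩)))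
    have := (p0 hc0 hc1 hc2).2
    linarith
  · refine Or.inr (Or.inl ⟨rfl, rfl, rfl, ?_, ?_⟩)
    · have := (p1 hc1 hc2 hc0).1
      linarith
    · have := (p1 hc1 hc2 hc0).2
      linarith
  · exact absurd ⟨hc0.trans hc1.symm, hc0.trans hc2.symm⟩ ts

theorem tall_iff (h : H) :
    T.Tall h ↔ T.y (T.next h) < T.y h ∧ T.y (T.next (T.next h)) < T.y h := by
  have q0 := T.y_pos h
  have q1 := T.y_pos (T.next h)
  have q2 := T.y_pos (T.next (T.next h))
  unfold Tall
  rcases T.T10_cases h with ⟨-, h1, h2, -, h3⟩ | ⟨-, h1, h2, -, h3⟩ | ⟨-, h1, h2, h3⟩ |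
    ⟨-, h1, h2, h3⟩ | ⟨-, h1, h2, h3⟩ | ⟨-, h1, h2, h3⟩
  · exact ⟨fun _ => ⟨by linarith, by linarith⟩, fun _ => ⟨h1, h2⟩⟩
  · exact ⟨fun _ => ⟨by linarith, by linarith⟩, fun _ => ⟨h1, h2⟩⟩
  · exact ⟨fun h => absurd (h1.symm.trans h.1) (by decide), fun h => by linarith [h.1]⟩
  · exact ⟨fun h => absurd (h1.symm.trans h.1) (by decide), fun h => by linarith [h.2]⟩
  · exact ⟨fun h => absurd (h2.symm.trans h.2) (by decide), fun h => by linarith [h.1]⟩
  · exact ⟨fun h => absurd (h1.symm.trans h.1) (by decide), fun h => by linarith [h.2]⟩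

private theorem T10_tall_cases (h : H) (ht : T.Tall h) :
    (T.pos h = false ∧ T.wd h = T.next (T.next h) ∧ T.sd h = T.next h ∧
      T.x (T.next (T.next h)) = T.x h + T.x (T.next h) ∧
      T.y h = T.y (T.next h) + T.y (T.next (T.next h))) ∨
    (T.pos h = true ∧ T.wd h = T.next h ∧ T.sd h = T.next (T.next h) ∧
      T.x (T.next h) = T.x h + T.x (T.next (T.next h)) ∧
      T.y h = T.y (T.next h) + T.y (T.next (T.next h))) := by
  obtain ⟨t1, t2⟩ := ht
  rcases T.T10_cases h with ⟨h0, h1, h2, h3, h4⟩ | ⟨h0, h1, h2, h3, h4⟩ | ⟨-, h1, h2, h3⟩ |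
    ⟨-, h1, h2, h3⟩ | ⟨-, h1, h2, h3⟩ | ⟨-, h1, h2, h3⟩
  · exact Or.inl ⟨h0, by simp [wd, h0], by simp [sd, h0], h3, h4⟩
  · exact Or.inr ⟨h0, by simp [wd, h0], by simp [sd, h0], h3, h4⟩
  · exact absurd (h1.symm.trans t1) (by decide)
  · exact absurd (h1.symm.trans t1) (by decide)
  · exact absurd (h2.symm.trans t2) (by decide)
  · exact absurd (h1.symm.trans t1) (by decide)

theorem x_wd (h : H) (ht : T.Tall h) : T.x (T.wd h) = T.x h + T.x (T.sd h) := by
  rcases T.T10_tall_cases h ht with ⟨-, h1, h2, h3, -⟩ | ⟨-, h1, h2, h3, -⟩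
  · rw [h1, h2, h3]
  · rw [h1, h2, h3]

theorem y_wd (h : H) (ht : T.Tall h) : T.y h = T.y (T.wd h) + T.y (T.sd h) := by
  rcases T.T10_tall_cases h ht with ⟨-, h1, h2, -, h3⟩ | ⟨-, h1, h2, -, h3⟩
  · rw [h1, h2, h3]
    ring
  · rw [h1, h2, h3]

theorem pos_wd (h : H) (ht : T.Tall h) : T.pos (T.wd h) = T.pos h := by
  rcases T.T10_tall_cases h ht with ⟨h0, h1, -⟩ | ⟨h0, h1, -⟩
  · rw [h1, h0, ht.2]
  · rw [h1, h0, ht.1]

theorem pos_sd (h : H) (ht : T.Tall h) : T.pos (T.sd h) = !(T.pos h) := by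
  rcases T.T10_tall_cases h ht with ⟨h0, -, h1, -⟩ | ⟨h0, -, h1, -⟩
  · rw [h1, h0, ht.1]
    rfl
  · rw [h1, h0, ht.2]
    rfl

theorem tall_unique (h : H) (ht : T.Tall h) : ¬ T.Tall (T.next h) ∧ ¬ T.Tall (T.next (T.next h)) := by
  constructor
  · intro h1
    exact absurd (ht.2.symm.trans h1.1) (by decide)
  · intro h1
    have h2 := h1.2
    rw [T.T10_nnnn] at h2
    exact absurd (ht.1.symm.trans h2) (by decide)

theorem wide_wd (h : H) (ht : T.Tall h) : T.Wide (T.wd h) := by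
  rcases T.T10_tall_cases h ht with ⟨h0, h1, -⟩ | ⟨h0, h1, -⟩
  · rw [h1]
    refine ⟨?_, ?_⟩
    · rw [T.next_next_next, h0]
    · rw [T.T10_nnnn, ht.1]
  · rw [h1]
    refine ⟨ht.2, ?_⟩
    rw [T.next_next_next, h0]

/-- In a triangle the tall side is determined by the wide side. -/
theorem tall_of_wd_eq (h h' : H) (ht : T.Tall h) (ht' : T.Tall h') (he : T.wd h = T.wd h') :
    h = h' := by
  have hc : T.pos h = T.pos h' := by
    rw [← T.pos_wd h ht, ← T.pos_wd h' ht', he]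
  rcases T.T10_tall_cases h ht with ⟨h0, h1, -⟩ | ⟨h0, h1, -⟩
  · rcases T.T10_tall_cases h' ht' with ⟨-, h1', -⟩ | ⟨h0', -, -⟩
    · rw [h1, h1'] at he
      exact T.next.injective (T.next.injective he)
    · exact absurd (h0.symm.trans (hc.trans h0')) (by decide)
  · rcases T.T10_tall_cases h' ht' with ⟨h0', -, -⟩ | ⟨-, h1', -⟩
    · exact absurd (h0.symm.trans (hc.trans h0')) (by decide)
    · rw [h1, h1'] at he
      exact T.next.injective he

private theorem T10_card [Fintype H] (P : H → Prop) [DecidablePred P]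
    (hP : ∀ h, (if P h then 1 else 0) + (if P (T.next h) then 1 else 0) +
      (if P (T.next (T.next h)) then 1 else 0) = (1 : ℕ)) :
    3 * (Finset.univ.filter fun h => P h).card = Fintype.card H := by
  rw [Finset.card_filter]
  have h1 : ∑ h : H, (if P (T.next h) then 1 else 0 : ℕ) = ∑ h : H, if P h then 1 else 0 :=
    Equiv.sum_comp T.next (fun h => if P h then (1 : ℕ) else 0)
  have h2 : ∑ h : H, (if P (T.next (T.next h)) then 1 else 0 : ℕ) = ∑ h : H, if P h then 1 else 0 :=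
    (Equiv.sum_comp T.next (fun h => if P (T.next h) then (1 : ℕ) else 0)).trans h1
  have h3 : ∑ h : H, ((if P h then 1 else 0) + (if P (T.next h) then 1 else 0) +
      (if P (T.next (T.next h)) then 1 else 0) : ℕ) = Fintype.card H := by
    rw [Finset.sum_congr rfl fun h _ => hP h]
    simp
  rw [Finset.sum_add_distrib, Finset.sum_add_distrib, h1, h2] at h3
  omega

open Classical in
theorem card_neg [Fintype H] :
    3 * (Finset.univ.filter fun h => T.pos h = false ∧ T.pos (T.next h) = true).card =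
      Fintype.card H := by
  refine T.T10_card (fun h => T.pos h = false ∧ T.pos (T.next h) = true) fun h => ?_
  simp only [T.next_next_next]
  rcases T.T10_cases h with ⟨h0, h1, h2, -⟩ | ⟨h0, h1, h2, -⟩ | ⟨h0, h1, h2, -⟩ |
    ⟨h0, h1, h2, -⟩ | ⟨h0, h1, h2, -⟩ | ⟨h0, h1, h2, -⟩ <;> simp [h0, h1, h2]

open Classical in
theorem card_pos [Fintype H] :
    3 * (Finset.univ.filter fun h => T.pos h = true ∧ T.pos (T.next (T.next h)) = false).card =
      Fintype.card H := by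
  refine T.T10_card (fun h => T.pos h = true ∧ T.pos (T.next (T.next h)) = false) fun h => ?_
  simp only [T.next_next_next, T.T10_nnnn]
  rcases T.T10_cases h with ⟨h0, h1, h2, -⟩ | ⟨h0, h1, h2, -⟩ | ⟨h0, h1, h2, -⟩ |
    ⟨h0, h1, h2, -⟩ | ⟨h0, h1, h2, -⟩ | ⟨h0, h1, h2, -⟩ <;> simp [h0, h1, h2]

end VTri

namespace IsFlip

variable {H : Type} {T T' : VTri H} {e : H}

/-- The six darts of the two triangles. -/
def six (T : VTri H) (e : H) (h : H) : Prop :=
  h = e ∨ h = T.next e ∨ h = T.next (T.next e) ∨ h = T.rev e ∨ h = T.next (T.rev e) ∨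
    h = T.next (T.next (T.rev e))

theorem tall_e (F : IsFlip T T' e) : T.Tall e := (T.tall_iff e).2 F.tall

theorem tall_rev_e (F : IsFlip T T' e) : T.Tall (T.rev e) := by
  rw [T.tall_iff, T.y_rev]
  exact F.tall_rev

/-- The six darts are different. -/
theorem distinct (F : IsFlip T T' e) :
    [e, T.next e, T.next (T.next e), T.rev e, T.next (T.rev e), T.next (T.next (T.rev e))].Nodup := by
  have hra : T.rev e ≠ T.next e := by
    intro h
    have h1 := F.tall.1
    rw [← h, T.y_rev] at h1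
    exact lt_irrefl _ h1
  have hrb : T.rev e ≠ T.next (T.next e) := by
    intro h
    have h1 := F.tall.2
    rw [← h, T.y_rev] at h1
    exact lt_irrefl _ h1
  have hre : T.rev e ≠ e := T.rev_ne e
  have inj : ∀ u v, T.next u = T.next v → u = v := fun u v h => T.next.injective h
  have key : ∀ u v, u = T.next v → T.next (T.next u) = v := by
    intro u v h
    rw [h, T.next_next_next]
  have key2 : ∀ u v, u = T.next (T.next v) → T.next u = v := by
    intro u v h
    rw [h, T.next_next_next]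
  have n1 : ∀ u, u ≠ T.next u := fun u h => T.next_ne u h.symm
  have n2 : ∀ u, u ≠ T.next (T.next u) := fun u h => T.next_ne u (key2 u u h)
  have n3 : ∀ u, T.next u ≠ T.next (T.next u) := fun u h => n1 u (inj _ _ h)
  simp only [List.nodup_cons, List.mem_cons, List.not_mem_nil, not_or, or_false, not_false_eq_true,
    List.nodup_nil, and_true]
  refine ⟨⟨n1 e, n2 e, hre.symm, ?_, ?_⟩, ⟨n3 e, hra.symm, ?_, ?_⟩, ⟨hrb.symm, ?_, ?_⟩,
    ⟨n1 _, n2 _⟩, n3 _⟩
  · exact fun h => hrb (key _ _ h).symm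
  · exact fun h => hra (key2 _ _ h).symm
  · exact fun h => hre (inj _ _ h).symm
  · exact fun h => hrb (key _ _ (inj _ _ h)).symm
  · exact fun h => hra (inj _ _ h).symm
  · exact fun h => hre (inj _ _ (inj _ _ h)).symm

theorem six_next (h : H) : six T e (T.next h) ↔ six T e h := by
  have key : ∀ u v, T.next u = v → u = T.next (T.next v) := by
    intro u v h
    rw [← h, T.next_next_next]
  have inj : ∀ u v, T.next u = T.next v → u = v := fun u v h => T.next.injective h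
  simp only [six]
  constructor
  · rintro (h | h | h | h | h | h)
    · exact Or.inr (Or.inr (Or.inl (key _ _ h)))
    · exact Or.inl (inj _ _ h)
    · exact Or.inr (Or.inl (inj _ _ h))
    · exact Or.inr (Or.inr (Or.inr (Or.inr (Or.inr (key _ _ h)))))
    · exact Or.inr (Or.inr (Or.inr (Or.inl (inj _ _ h))))
    · exact Or.inr (Or.inr (Or.inr (Or.inr (Or.inl (inj _ _ h)))))
  · rintro (h | h | h | h | h | h)
    · exact Or.inr (Or.inl (by rw [h]))
    · exact Or.inr (Or.inr (Or.inl (by rw [h])))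
    · exact Or.inl (by rw [h, T.next_next_next])
    · exact Or.inr (Or.inr (Or.inr (Or.inr (Or.inl (by rw [h])))))
    · exact Or.inr (Or.inr (Or.inr (Or.inr (Or.inr (by rw [h])))))
    · exact Or.inr (Or.inr (Or.inr (Or.inl (by rw [h, T.next_next_next]))))

/-- (T11) The slopes of the four sides of the quadrilateral and of `rev e`. -/
theorem t11_pos (F : IsFlip T T' e) :
    T.pos (T.next e) = true ∧ T.pos (T.next (T.next e)) = false ∧
    T.pos (T.next (T.rev e)) = true ∧ T.pos (T.next (T.next (T.rev e))) = false ∧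
    T'.pos (T.next e) = true ∧ T'.pos (T.next (T.next e)) = false ∧
    T'.pos (T.next (T.rev e)) = true ∧ T'.pos (T.next (T.next (T.rev e))) = false ∧
    T'.pos (T.rev e) = T'.pos e := by
  have h1 := F.tall_e
  have h2 := F.tall_rev_e
  have hd := F.distinct
  simp only [List.nodup_cons, List.mem_cons, List.not_mem_nil, not_or, or_false,
    not_false_eq_true] at hd
  obtain ⟨⟨d1, d2, d3, d4, d5⟩, ⟨d6, d7, d8, d9⟩, ⟨d10, d11, d12⟩, ⟨d13, d14⟩, d15⟩ := hd
  refine ⟨h1.1, h1.2, h2.1, h2.2, ?_, ?_, ?_, ?_, ?_⟩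
  · rw [F.pos_eq _ (Ne.symm d1) d7]; exact h1.1
  · rw [F.pos_eq _ (Ne.symm d2) d10]; exact h1.2
  · rw [F.pos_eq _ (Ne.symm d4) (Ne.symm d13)]; exact h2.1
  · rw [F.pos_eq _ (Ne.symm d5) (Ne.symm d14)]; exact h2.2
  · rw [← F.rev_eq, T'.pos_rev]

/-- (T11) Outside the six darts nothing changes. -/
theorem t11_other (F : IsFlip T T' e) (h : H) (h6 : ¬ six T e h) :
    T'.next h = T.next h ∧ T'.pos h = T.pos h ∧ T'.next (T.next h) = T.next (T.next h) ∧
    T'.pos (T.next h) = T.pos (T.next h) ∧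
    T'.pos (T.next (T.next h)) = T.pos (T.next (T.next h)) ∧
      ¬ six T e (T.next h) ∧ ¬ six T e (T.next (T.next h)) := by
  have h7 : ¬ six T e (T.next h) := fun hh => h6 ((six_next h).1 hh)
  have h8 : ¬ six T e (T.next (T.next h)) := fun hh => h7 ((six_next _).1 hh)
  have i6 := h6
  have i7 := h7
  have i8 := h8
  simp only [six, not_or] at i6 i7 i8
  obtain ⟨a1, a2, a3, a4, a5, a6⟩ := i6
  obtain ⟨b1, b2, b3, b4, b5, b6⟩ := i7
  obtain ⟨c1, c2, c3, c4, c5, c6⟩ := i8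
  exact ⟨F.next_other h a1 a2 a3 a4 a5 a6, F.pos_eq h a1 a4, F.next_other _ b1 b2 b3 b4 b5 b6,
    F.pos_eq _ b1 b4, F.pos_eq _ c1 c4, h7, h8⟩

/-- The roles and colours in the new triangles. -/
theorem new_wide (F : IsFlip T T' e) : T'.Wide e ∧ T'.Wide (T.rev e) := by
  obtain ⟨p1, p2, p3, p4, q1, q2, q3, q4, q5⟩ := F.t11_pos
  refine ⟨⟨?_, ?_⟩, ?_, ?_⟩
  · rw [F.next_e]; exact q2
  · rw [F.next_e, F.next_b]; exact q3
  · rw [F.next_rev_e]; exact q4
  · rw [F.next_rev_e, F.next_d]; exact q1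

/-- A wide dart of the new triangulation, other than the new diagonal, was wide before and is not
in the two triangles. -/
theorem wide_of_wide (F : IsFlip T T' e) (h : H) (h1 : h ≠ e) (h2 : h ≠ T.rev e)
    (hw : T'.Wide h) : T.Wide h ∧ ¬ six T e h := by
  obtain ⟨p1, p2, p3, p4, q1, q2, q3, q4, q5⟩ := F.t11_pos
  have h6 : ¬ six T e h := by
    rintro (hh | hh | hh | hh | hh | hh)
    · exact h1 hh
    · have := hw.2
      rw [hh, F.next_a, F.next_rev_e, q4] at this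
      exact absurd this (by decide)
    · have := hw.1
      rw [hh, F.next_b, q3] at this
      exact absurd this (by decide)
    · exact h2 hh
    · have := hw.2
      rw [hh, F.next_c, F.next_e, q2] at this
      exact absurd this (by decide)
    · have := hw.1
      rw [hh, F.next_d, q1] at this
      exact absurd this (by decide)
  obtain ⟨e1, e2, e3, e4, e5, e6, e7⟩ := F.t11_other h h6
  refine ⟨⟨?_, ?_⟩, h6⟩
  · have := hw.1
    rwa [e1, e4] at this
  · have := hw.2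
    rwa [e1, e3, e5] at this

/-- A tall dart other than `e`, `rev e` remains tall, with the same triangle. -/
theorem tall_persist (F : IsFlip T T' e) (h : H) (h1 : h ≠ e) (h2 : h ≠ T.rev e)
    (ht : T.Tall h) : T'.Tall h ∧ T'.wd h = T.wd h ∧ T'.sd h = T.sd h ∧
      T.wd h ≠ e ∧ T.wd h ≠ T.rev e ∧ T.sd h ≠ e ∧ T.sd h ≠ T.rev e := by
  have u1 := T.tall_unique e F.tall_e
  have u2 := T.tall_unique (T.rev e) F.tall_rev_e
  have h6 : ¬ six T e h := by
    rintro (hh | hh | hh | hh | hh | hh)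
    · exact h1 hh
    · exact u1.1 (hh ▸ ht)
    · exact u1.2 (hh ▸ ht)
    · exact h2 hh
    · exact u2.1 (hh ▸ ht)
    · exact u2.2 (hh ▸ ht)
  obtain ⟨e1, e2, e3, e4, e5, e6, e7⟩ := F.t11_other h h6
  have i6 := e6
  have i7 := e7
  simp only [six, not_or] at i6 i7
  refine ⟨⟨?_, ?_⟩, ?_, ?_, ?_⟩
  · rw [e1, e4]; exact ht.1
  · rw [e1, e3, e5]; exact ht.2
  · simp only [VTri.wd, e1, e2, e3]
  · simp only [VTri.sd, e1, e2, e3]
  · simp only [VTri.wd, VTri.sd]
    rcases Bool.eq_false_or_eq_true (T.pos h) with hp | hp <;>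
      simp only [hp, if_true, Bool.false_eq_true, if_false]
    · exact ⟨i6.1, i6.2.2.2.1, i7.1, i7.2.2.2.1⟩
    · exact ⟨i7.1, i7.2.2.2.1, i6.1, i6.2.2.2.1⟩

/-- Flip preserving the colour: `W W e`, etc. -/
theorem same (F : IsFlip T T' e) (hc : T'.pos e = T.pos e) :
    T'.Tall (T.wd e) ∧ T'.Tall (T.wd (T.rev e)) ∧
    T'.sd (T.wd e) = T.sd (T.rev e) ∧ T'.sd (T.wd (T.rev e)) = T.sd e ∧
    (if T.pos e = true then T'.wd (T.wd e) = T.rev e ∧ T'.wd (T.wd (T.rev e)) = e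
      else T'.wd (T.wd e) = e ∧ T'.wd (T.wd (T.rev e)) = T.rev e) := by
  obtain ⟨p1, p2, p3, p4, q1, q2, q3, q4, q5⟩ := F.t11_pos
  have q6 : T'.pos (T.rev e) = T.pos e := by rw [q5, hc]
  rcases Bool.eq_false_or_eq_true (T.pos e) with hp | hp <;>
    simp [VTri.Tall, VTri.wd, VTri.sd, T.pos_rev, hp, F.next_e, F.next_a, F.next_b, F.next_rev_e,
      F.next_c, F.next_d, q1, q2, q3, q4, q6, hc]

/-- Flip changing the colour. -/
theorem chg (F : IsFlip T T' e) (hc : T'.pos e ≠ T.pos e) :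
    T'.Tall (T.sd e) ∧ T'.Tall (T.sd (T.rev e)) ∧
    T'.sd (T.sd e) = T.wd (T.rev e) ∧ T'.sd (T.sd (T.rev e)) = T.wd e ∧
    (if T.pos e = true then T'.wd (T.sd e) = e ∧ T'.wd (T.sd (T.rev e)) = T.rev e
      else T'.wd (T.sd e) = T.rev e ∧ T'.wd (T.sd (T.rev e)) = e) := by
  obtain ⟨p1, p2, p3, p4, q1, q2, q3, q4, q5⟩ := F.t11_pos
  have hc' : T'.pos e = !(T.pos e) := by
    revert hc
    cases T'.pos e <;> cases T.pos e <;> simp
  have q6 : T'.pos (T.rev e) = !(T.pos e) := by rw [q5, hc']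
  rcases Bool.eq_false_or_eq_true (T.pos e) with hp | hp <;>
    simp [VTri.Tall, VTri.wd, VTri.sd, T.pos_rev, hp, F.next_e, F.next_a, F.next_b, F.next_rev_e,
      F.next_c, F.next_d, q1, q2, q3, q4, q6, hc']

open Classical in
/-- (T12) A sum over the darts only depends on the six darts. -/
theorem t12_sum [Fintype H] (F : IsFlip T T' e) (f : H → ℝ) (h0 : ∀ h, ¬ six T e h → f h = 0) :
    ∑ h, f h = f e + (f (T.next e) + (f (T.next (T.next e)) + (f (T.rev e) +
      (f (T.next (T.rev e)) + f (T.next (T.next (T.rev e))))))) := by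
  have hd := F.distinct
  have h1 : ∑ h ∈ [e, T.next e, T.next (T.next e), T.rev e, T.next (T.rev e),
      T.next (T.next (T.rev e))].toFinset, f h = ∑ h, f h := by
    apply Finset.sum_subset (Finset.subset_univ _)
    intro h _ hh
    apply h0
    intro h6
    apply hh
    simpa [six] using h6
  rw [← h1, List.sum_toFinset _ hd]
  simp

/-- (T12) The slopes of the six darts. -/
theorem t12_pos (F : IsFlip T T' e) :
    T.pos (T.next e) = true ∧ T.pos (T.next (T.next e)) = false ∧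
    T.pos (T.next (T.rev e)) = true ∧ T.pos (T.next (T.next (T.rev e))) = false ∧
    T'.pos (T.next e) = true ∧ T'.pos (T.next (T.next e)) = false ∧
    T'.pos (T.next (T.rev e)) = true ∧ T'.pos (T.next (T.next (T.rev e))) = false := by
  have h1 := F.tall_e
  have h2 := F.tall_rev_e
  have hd := F.distinct
  simp only [List.nodup_cons, List.mem_cons, List.not_mem_nil, not_or, or_false, not_false_eq_true,
    and_true] at hd
  obtain ⟨⟨d1, d2, d3, d4, d5⟩, ⟨d6, d7, d8, d9⟩, ⟨d10, d11, d12⟩, ⟨d13, d14⟩, d15⟩ := hd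
  refine ⟨h1.1, h1.2, h2.1, h2.2, ?_, ?_, ?_, ?_⟩
  · rw [F.pos_eq _ (Ne.symm d1) d7]; exact h1.1
  · rw [F.pos_eq _ (Ne.symm d2) d10]; exact h1.2
  · rw [F.pos_eq _ (Ne.symm d4) (Ne.symm d13)]; exact h2.1
  · rw [F.pos_eq _ (Ne.symm d5) (Ne.symm d14)]; exact h2.2

/-- (T12) Outside the six darts nothing changes. -/
theorem t12_other (F : IsFlip T T' e) (h : H) (h6 : ¬ six T e h) :
    T'.next h = T.next h ∧ T'.pos h = T.pos h ∧ T'.pos (T.next h) = T.pos (T.next h) ∧
      ¬ six T e (T.next h) := by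
  have h7 : ¬ six T e (T.next h) := fun hh => h6 ((six_next h).1 hh)
  have h8 := h6
  have h9 := h7
  simp only [six, not_or] at h8 h9
  obtain ⟨a1, a2, a3, a4, a5, a6⟩ := h8
  obtain ⟨b1, b2, b3, b4, b5, b6⟩ := h9
  exact ⟨F.next_other h a1 a2 a3 a4 a5 a6, F.pos_eq h a1 a4, F.pos_eq _ b1 b4, h7⟩

open Classical in
/-- The change of the colour potentials under a flip (`z` and `z'` are any edge functions). -/
theorem sum_neg [Fintype H] (F : IsFlip T T' e) (z z' : H → ℝ) (hz : ∀ h, h ≠ e → h ≠ T.rev e → z' h = z h) :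
    (∑ h with T'.pos h = false ∧ T'.pos (T'.next h) = true, z' h) -
      (∑ h with T.pos h = false ∧ T.pos (T.next h) = true, z h) =
    if T.pos e = false then z (T.wd e) + z (T.wd (T.rev e)) - z e - z (T.rev e) else 0 := by
  classical
  obtain ⟨p1, p2, p3, p4, q1, q2, q3, q4⟩ := F.t12_pos
  have hd := F.distinct
  simp only [List.nodup_cons, List.mem_cons, List.not_mem_nil, not_or, or_false, not_false_eq_true,
    and_true] at hd
  obtain ⟨⟨d1, d2, d3, d4, d5⟩, ⟨d6, d7, d8, d9⟩, ⟨d10, d11, d12⟩, ⟨d13, d14⟩, d15⟩ := hd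
  have hze : z' (T.next (T.next e)) = z (T.next (T.next e)) := hz _ (Ne.symm d2) d10
  have hzr : z' (T.next (T.next (T.rev e))) = z (T.next (T.next (T.rev e))) :=
    hz _ (Ne.symm d5) (Ne.symm d14)
  rw [Finset.sum_filter, Finset.sum_filter, ← Finset.sum_sub_distrib]
  rw [F.t12_sum]
  · rw [F.next_e, F.next_a, F.next_b, F.next_rev_e, F.next_c, F.next_d]
    simp only [VTri.wd, T.pos_rev, T.next_next_next, p1, p2, p3, p4, q1, q2, q3, q4, hze, hzr]
    rcases Bool.eq_false_or_eq_true (T.pos e) with hp | hp <;> simp [hp] <;> ring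
  · intro h h6
    obtain ⟨e1, e2, e3, e4⟩ := F.t12_other h h6
    have h8 := h6
    simp only [six, not_or] at h8
    rw [e1, e2, e3, hz h h8.1 h8.2.2.2.1, sub_self]

open Classical in
theorem sum_pos [Fintype H] (F : IsFlip T T' e) (z z' : H → ℝ) (hz : ∀ h, h ≠ e → h ≠ T.rev e → z' h = z h) :
    (∑ h with T'.pos h = true ∧ T'.pos (T'.next (T'.next h)) = false, z' h) -
      (∑ h with T.pos h = true ∧ T.pos (T.next (T.next h)) = false, z h) =
    if T.pos e = true then z (T.wd e) + z (T.wd (T.rev e)) - z e - z (T.rev e) else 0 := by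
  classical
  obtain ⟨p1, p2, p3, p4, q1, q2, q3, q4⟩ := F.t12_pos
  have hd := F.distinct
  simp only [List.nodup_cons, List.mem_cons, List.not_mem_nil, not_or, or_false, not_false_eq_true,
    and_true] at hd
  obtain ⟨⟨d1, d2, d3, d4, d5⟩, ⟨d6, d7, d8, d9⟩, ⟨d10, d11, d12⟩, ⟨d13, d14⟩, d15⟩ := hd
  have hze : z' (T.next e) = z (T.next e) := hz _ (Ne.symm d1) d7
  have hzr : z' (T.next (T.rev e)) = z (T.next (T.rev e)) :=
    hz _ (Ne.symm d4) (Ne.symm d13)
  rw [Finset.sum_filter, Finset.sum_filter, ← Finset.sum_sub_distrib]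
  rw [F.t12_sum]
  · simp only [F.next_e, F.next_a, F.next_b, F.next_rev_e, F.next_c, F.next_d, VTri.wd, T.pos_rev, T.next_next_next, p1, p2, p3, p4, q1, q2, q3, q4, hze, hzr]
    rcases Bool.eq_false_or_eq_true (T.pos e) with hp | hp <;> simp [hp] <;> ring
  · intro h h6
    obtain ⟨e1, e2, e3, e4⟩ := F.t12_other h h6
    obtain ⟨f1, f2, f3, f4⟩ := F.t12_other _ e4
    have h8 := h6
    simp only [six, not_or] at h8
    rw [e1, f1, e2, f3, hz h h8.1 h8.2.2.2.1, sub_self]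

end IsFlip

end Pool.Agent.Lib.MP_481aff_gt
end

section

/-! # The bi-infinite periodic flip sequence -/

namespace Pool.Agent.Lib.MP_481aff_gt

structure BiFlow (H : Type) where
  T : ℤ → VTri H
  e : ℤ → H
  flip : ∀ t, IsFlip (T t) (T (t + 1)) (e t)
  n : ℕ
  n_pos : 0 < n
  φ : Equiv.Perm H
  lam : ℝ
  one_lt_lam : 1 < lam
  per_e : ∀ t, e (t + n) = φ (e t)
  per_next : ∀ t h, (T (t + n)).next (φ h) = φ ((T t).next h)
  per_rev : ∀ t h, (T (t + n)).rev (φ h) = φ ((T t).rev h)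
  per_pos : ∀ t h, (T (t + n)).pos (φ h) = (T t).pos h
  per_x : ∀ t h, (T (t + n)).x (φ h) = lam * (T t).x h
  per_y : ∀ t h, lam * (T (t + n)).y (φ h) = (T t).y h

theorem T13_VTri_ext {H : Type} {T T' : VTri H} (h1 : T.next = T'.next) (h2 : T.rev = T'.rev)
    (h3 : T.pos = T'.pos) (h4 : T.x = T'.x) (h5 : T.y = T'.y) : T = T' := by
  cases T
  cases T'
  simp only at h1 h2 h3 h4 h5
  subst h1 h2 h3 h4 h5
  rfl

/-- Transport of a triangulation along a relabelling and a rescaling. -/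
noncomputable def T13_relabel {H : Type} (σ : Equiv.Perm H) (s : ℝ) (hs : 0 < s) (T : VTri H) :
    VTri H where
  next := σ * T.next * σ⁻¹
  rev := σ * T.rev * σ⁻¹
  pos h := T.pos (σ⁻¹ h)
  x h := s * T.x (σ⁻¹ h)
  y h := s⁻¹ * T.y (σ⁻¹ h)
  next_next_next h := by simp [T.next_next_next]
  next_ne h := by
    obtain ⟨k, rfl⟩ := σ.surjective h
    simpa using T.next_ne k
  rev_rev h := by simp [T.rev_rev]
  rev_ne h := by
    obtain ⟨k, rfl⟩ := σ.surjective h
    simpa using T.rev_ne k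
  connected h h' := by
    have h0 := T.connected (σ⁻¹ h) (σ⁻¹ h')
    have h1 := Relation.ReflTransGen.lift (r := fun a b => b = T.next a ∨ b = T.rev a)
      (p := fun a b => b = (σ * T.next * σ⁻¹) a ∨
      b = (σ * T.rev * σ⁻¹) a) σ (fun a b hab => by
        rcases hab with rfl | rfl
        · left; simp
        · right; simp) _ _ h0
    simpa [Function.onFun] using h1
  pos_rev h := by simp [T.pos_rev]
  x_rev h := by simp [T.x_rev]
  y_rev h := by simp [T.y_rev]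
  x_pos h := mul_pos hs (T.x_pos _)
  y_pos h := mul_pos (inv_pos.mpr hs) (T.y_pos _)
  two_slopes h := by
    obtain ⟨k, rfl⟩ := σ.surjective h
    simpa using T.two_slopes k
  neg_corner h := by
    obtain ⟨k, rfl⟩ := σ.surjective h
    intro h1 h2 h3
    simp only [Equiv.Perm.mul_apply, Equiv.Perm.coe_inv, Equiv.symm_apply_apply] at h1 h2 h3 ⊢
    obtain ⟨h4, h5⟩ := T.neg_corner k h1 h2 h3
    rw [h4, h5]
    constructor <;> ring
  pos_corner h := by
    obtain ⟨k, rfl⟩ := σ.surjective h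
    intro h1 h2 h3
    simp only [Equiv.Perm.mul_apply, Equiv.Perm.coe_inv, Equiv.symm_apply_apply] at h1 h2 h3 ⊢
    obtain ⟨h4, h5⟩ := T.pos_corner k h1 h2 h3
    rw [h4, h5]
    constructor <;> ring

theorem T13_isFlip_relabel {H : Type} (σ : Equiv.Perm H) (s : ℝ) (hs : 0 < s) {T T' : VTri H}
    {e : H} (h : IsFlip T T' e) :
    IsFlip (T13_relabel σ s hs T) (T13_relabel σ s hs T') (σ e) := by
  have hs' : 0 < s⁻¹ := inv_pos.mpr hs
  constructor
  · simp only [T13_relabel, Equiv.Perm.mul_apply, Equiv.Perm.coe_inv, Equiv.symm_apply_apply]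
    exact ⟨mul_lt_mul_of_pos_left h.tall.1 hs', mul_lt_mul_of_pos_left h.tall.2 hs'⟩
  · simp only [T13_relabel, Equiv.Perm.mul_apply, Equiv.Perm.coe_inv, Equiv.symm_apply_apply]
    exact ⟨mul_lt_mul_of_pos_left h.tall_rev.1 hs', mul_lt_mul_of_pos_left h.tall_rev.2 hs'⟩
  · simp only [T13_relabel, h.rev_eq]
  · simp only [T13_relabel, Equiv.Perm.mul_apply, Equiv.Perm.coe_inv, Equiv.symm_apply_apply, h.next_e]
  · simp only [T13_relabel, Equiv.Perm.mul_apply, Equiv.Perm.coe_inv, Equiv.symm_apply_apply, h.next_b]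
  · simp only [T13_relabel, Equiv.Perm.mul_apply, Equiv.Perm.coe_inv, Equiv.symm_apply_apply, h.next_c]
  · simp only [T13_relabel, Equiv.Perm.mul_apply, Equiv.Perm.coe_inv, Equiv.symm_apply_apply, h.next_rev_e]
  · simp only [T13_relabel, Equiv.Perm.mul_apply, Equiv.Perm.coe_inv, Equiv.symm_apply_apply, h.next_d]
  · simp only [T13_relabel, Equiv.Perm.mul_apply, Equiv.Perm.coe_inv, Equiv.symm_apply_apply, h.next_a]
  · intro k
    obtain ⟨k, rfl⟩ := σ.surjective k
    simp only [T13_relabel, Equiv.Perm.mul_apply, Equiv.Perm.coe_inv, Equiv.symm_apply_apply]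
    intro h1 h2 h3 h4 h5 h6
    rw [h.next_other k (fun h => h1 (by rw [h])) (fun h => h2 (by rw [h]))
      (fun h => h3 (by rw [h])) (fun h => h4 (by rw [h])) (fun h => h5 (by rw [h]))
      (fun h => h6 (by rw [h]))]
  · intro k
    obtain ⟨k, rfl⟩ := σ.surjective k
    simp only [T13_relabel, Equiv.Perm.mul_apply, Equiv.Perm.coe_inv, Equiv.symm_apply_apply]
    intro h1 h2
    exact h.pos_eq k (fun h => h1 (by rw [h])) (fun h => h2 (by rw [h]))
  · intro k
    obtain ⟨k, rfl⟩ := σ.surjective k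
    simp only [T13_relabel, Equiv.Perm.mul_apply, Equiv.Perm.coe_inv, Equiv.symm_apply_apply]
    intro h1 h2
    rw [h.x_eq k (fun h => h1 (by rw [h])) (fun h => h2 (by rw [h]))]
  · intro k
    obtain ⟨k, rfl⟩ := σ.surjective k
    simp only [T13_relabel, Equiv.Perm.mul_apply, Equiv.Perm.coe_inv, Equiv.symm_apply_apply]
    intro h1 h2
    rw [h.y_eq k (fun h => h1 (by rw [h])) (fun h => h2 (by rw [h]))]

theorem T13_n_pos {H : Type} [Finite H] (V : LayeredVeering H) : 0 < V.n := by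
  rcases Nat.eq_zero_or_pos V.n with h0 | h0
  · exfalso
    have hx : ∀ (k : ℕ) (h : H), (V.tri 0).x ((V.mono ^ k) h) = V.lam ^ k * (V.tri 0).x h := by
      intro k
      induction k with
      | zero => intro h; simp
      | succ k ih =>
        intro h
        rw [pow_succ', Equiv.Perm.mul_apply]
        have h1 := V.mono_x ((V.mono ^ k) h)
        rw [h0] at h1
        rw [h1, ih]
        ring
    obtain ⟨k, hk, hk1⟩ := isOfFinOrder_iff_pow_eq_one.mp (isOfFinOrder_of_finite V.mono)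
    have h2 := hx k (V.edge 0)
    rw [hk1, Equiv.Perm.one_apply] at h2
    have h3 := (V.tri 0).x_pos (V.edge 0)
    have h4 : 1 < V.lam ^ k := one_lt_pow₀ V.one_lt_lam hk.ne'
    nlinarith
  · exact h0

theorem LayeredVeering.exists_biFlow {H : Type} [Finite H] (V : LayeredVeering H) :
    ∃ B : BiFlow H, B.n = V.n ∧ B.lam = V.lam := by
  have hn := T13_n_pos V
  have hn' : (0 : ℤ) < (V.n : ℤ) := by exact_mod_cast hn
  have hl : 0 < V.lam := lt_trans zero_lt_one V.one_lt_lam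
  have hlz : ∀ k : ℤ, 0 < V.lam ^ k := fun k => zpow_pos hl k
  have hlast : T13_relabel V.mono V.lam hl (V.tri 0) = V.tri V.n := by
    apply T13_VTri_ext
    · ext h
      obtain ⟨k, rfl⟩ := V.mono.surjective h
      simp only [T13_relabel, Equiv.Perm.mul_apply, Equiv.Perm.coe_inv, Equiv.symm_apply_apply]
      exact V.mono_next k
    · ext h
      obtain ⟨k, rfl⟩ := V.mono.surjective h
      simp only [T13_relabel, Equiv.Perm.mul_apply, Equiv.Perm.coe_inv, Equiv.symm_apply_apply]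
      exact V.mono_rev k
    · ext h
      obtain ⟨k, rfl⟩ := V.mono.surjective h
      simp only [T13_relabel, Equiv.Perm.coe_inv, Equiv.symm_apply_apply]
      exact (V.mono_pos k).symm
    · ext h
      obtain ⟨k, rfl⟩ := V.mono.surjective h
      simp only [T13_relabel, Equiv.Perm.coe_inv, Equiv.symm_apply_apply]
      exact (V.mono_x k).symm
    · ext h
      obtain ⟨k, rfl⟩ := V.mono.surjective h
      simp only [T13_relabel, Equiv.Perm.coe_inv, Equiv.symm_apply_apply]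
      rw [← V.mono_y k, ← mul_assoc, inv_mul_cancel₀ hl.ne', one_mul]
  let T : ℤ → VTri H := fun t =>
    T13_relabel (V.mono ^ (t / (V.n : ℤ))) (V.lam ^ (t / (V.n : ℤ))) (hlz _)
      (V.tri (t % (V.n : ℤ)).toNat)
  let e : ℤ → H := fun t => (V.mono ^ (t / (V.n : ℤ))) (V.edge (t % (V.n : ℤ)).toNat)
  have hdiv : ∀ t : ℤ, (t + V.n) / (V.n : ℤ) = t / (V.n : ℤ) + 1 := fun t => by
    rw [Int.add_ediv_of_dvd_right (dvd_refl _), Int.ediv_self hn'.ne']
  have hmod : ∀ t : ℤ, (t + V.n) % (V.n : ℤ) = t % (V.n : ℤ) := fun t => Int.add_emod_right _ _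
  refine ⟨⟨T, e, ?_, V.n, hn, V.mono, V.lam, V.one_lt_lam, ?_, ?_, ?_, ?_, ?_, ?_⟩, rfl, rfl⟩
  · intro t
    have hr0 : 0 ≤ t % (V.n : ℤ) := Int.emod_nonneg _ hn'.ne'
    have hr1 : t % (V.n : ℤ) < V.n := Int.emod_lt_of_pos _ hn'
    obtain ⟨r, hr⟩ := Int.eq_ofNat_of_zero_le hr0
    have hrn : r < V.n := by
      rw [hr] at hr1
      exact_mod_cast hr1
    have ht : t = V.n * (t / (V.n : ℤ)) + r := by
      rw [← hr]
      exact (Int.mul_ediv_add_emod t V.n).symm
    set q := t / (V.n : ℤ) with hq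
    have hTt : T t = T13_relabel (V.mono ^ q) (V.lam ^ q) (hlz _) (V.tri r) := by
      simp only [T]
      rw [hr]
      rfl
    have het : e t = (V.mono ^ q) (V.edge r) := by
      simp only [e]
      rw [hr]
      rfl
    have hTt1 : T (t + 1) = T13_relabel (V.mono ^ q) (V.lam ^ q) (hlz _) (V.tri (r + 1)) := by
      rcases Nat.lt_or_ge (r + 1) V.n with hlt | hge
      · have h1 : (t + 1) / (V.n : ℤ) = q := by
          rw [ht, add_assoc, Int.mul_add_ediv_left _ _ hn'.ne']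
          rw [Int.ediv_eq_zero_of_lt (by positivity) (by exact_mod_cast hlt), add_zero]
        have h2 : (t + 1) % (V.n : ℤ) = ((r + 1 : ℕ) : ℤ) := by
          rw [ht, add_assoc, Int.mul_add_emod_self_left]
          rw [Int.emod_eq_of_lt (by positivity) (by exact_mod_cast hlt)]
          push_cast
          ring
        simp only [T]
        rw [h2]
        simp only [h1]
        rfl
      · have hrn1 : r + 1 = V.n := by omega
        have h1 : (t + 1) = V.n * (q + 1) := by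
          rw [ht]
          have : (r : ℤ) + 1 = V.n := by exact_mod_cast hrn1
          linear_combination this
        have h2 : (t + 1) / (V.n : ℤ) = q + 1 := by
          rw [h1, Int.mul_ediv_cancel_left _ hn'.ne']
        have h3 : (t + 1) % (V.n : ℤ) = 0 := by
          rw [h1]
          exact Int.mul_emod_right _ _
        have h4 : T (t + 1) = T13_relabel (V.mono ^ (q + 1)) (V.lam ^ (q + 1)) (hlz _)
            (V.tri 0) := by
          simp only [T]
          rw [h3]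
          simp only [h2]
          rfl
        rw [h4, hrn1, ← hlast]
        apply T13_VTri_ext
        · ext h
          simp [T13_relabel, zpow_add, mul_assoc]
        · ext h
          simp [T13_relabel, zpow_add, mul_assoc]
        · ext h
          simp [T13_relabel, zpow_add]
        · ext h
          simp only [T13_relabel]
          rw [zpow_add_one₀ hl.ne', zpow_add_one, mul_inv_rev (V.mono ^ q) V.mono,
            Equiv.Perm.mul_apply]
          ring
        · ext h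
          simp only [T13_relabel]
          rw [zpow_add_one₀ hl.ne', zpow_add_one, mul_inv_rev (V.mono ^ q) V.mono,
            Equiv.Perm.mul_apply, mul_inv]
          ring
    rw [hTt, hTt1, het]
    exact T13_isFlip_relabel _ _ _ (V.flip r hrn)
  · intro t
    simp only [e, hdiv, hmod]
    rw [add_comm, zpow_one_add, Equiv.Perm.mul_apply]
  · intro t h
    simp only [T, hdiv, hmod, T13_relabel]
    rw [add_comm, zpow_one_add]
    simp
  · intro t h
    simp only [T, hdiv, hmod, T13_relabel]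
    rw [add_comm, zpow_one_add]
    simp
  · intro t h
    simp only [T, hdiv, hmod, T13_relabel]
    rw [add_comm, zpow_one_add]
    simp
  · intro t h
    simp only [T, hdiv, hmod, T13_relabel]
    rw [add_comm (t / (V.n : ℤ)) 1, zpow_one_add, zpow_one_add₀ hl.ne',
      mul_inv_rev V.mono _, Equiv.Perm.mul_apply, mul_assoc]
    simp
  · intro t h
    simp only [T, hdiv, hmod, T13_relabel]
    rw [add_comm (t / (V.n : ℤ)) 1, zpow_one_add, zpow_one_add₀ hl.ne',
      mul_inv_rev V.mono _, Equiv.Perm.mul_apply, mul_inv, mul_assoc, mul_inv_cancel_left₀ hl.ne']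
    simp

end Pool.Agent.Lib.MP_481aff_gt
end

section

/-! # Darts of the bi-infinite flip sequence, by death time -/

namespace Pool.Agent.Lib.MP_481aff_gt

namespace BiFlow

variable {H : Type} [Finite H] (B : BiFlow H)

theorem T14_rev_succ (t : ℤ) : (B.T (t + 1)).rev = (B.T t).rev := (B.flip t).rev_eq

theorem T14_rev_add (t : ℤ) (j : ℕ) : (B.T (t + j)).rev = (B.T t).rev := by
  induction j with
  | zero => simp
  | succ j ih =>
    have := B.T14_rev_succ (t + j)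
    rw [← ih, ← this]
    congr 2
    push_cast; ring

theorem rev_eq (t s : ℤ) : (B.T t).rev = (B.T s).rev := by
  rcases le_total t s with h | h
  · obtain ⟨j, rfl⟩ : ∃ j : ℕ, s = t + j := ⟨(s - t).toNat, by omega⟩
    exact (B.T14_rev_add t j).symm
  · obtain ⟨j, rfl⟩ : ∃ j : ℕ, t = s + j := ⟨(t - s).toNat, by omega⟩
    exact B.T14_rev_add s j

theorem T14_x_iter (t : ℤ) (k : ℕ) (h : H) :
    (B.T (t + k * B.n)).x ((B.φ ^ k) h) = B.lam ^ k * (B.T t).x h := by
  induction k with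
  | zero => simp
  | succ k ih =>
    have h1 : t + ((k + 1 : ℕ) : ℤ) * B.n = t + k * B.n + B.n := by push_cast; ring
    have h2 : (B.φ ^ (k + 1)) h = B.φ ((B.φ ^ k) h) := by
      rw [pow_succ']; rfl
    rw [h1, h2, B.per_x, ih, pow_succ']
    ring

theorem exists_death (t : ℤ) (h : H) :
    ∃ j : ℕ, h = B.e (t + j) ∨ h = (B.T (t + j)).rev (B.e (t + j)) := by
  by_contra hcon
  push Not at hcon
  have hconst : ∀ j : ℕ, (B.T (t + j)).x h = (B.T t).x h := by
    intro j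
    induction j with
    | zero => simp
    | succ j ih =>
      have h1 : t + ((j + 1 : ℕ) : ℤ) = t + j + 1 := by push_cast; ring
      rw [h1, (B.flip (t + j)).x_eq h (hcon j).1 (hcon j).2, ih]
  haveI : Nonempty H := ⟨h⟩
  obtain ⟨h0, hh0⟩ := Finite.exists_min (fun g : H => (B.T t).x g)
  have hx0 := (B.T t).x_pos h0
  obtain ⟨k, hk⟩ := pow_unbounded_of_one_lt ((B.T t).x h / (B.T t).x h0) B.one_lt_lam
  rw [div_lt_iff₀ hx0] at hk
  have h2 := B.T14_x_iter t k ((B.φ ^ k).symm h)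
  rw [Equiv.apply_symm_apply] at h2
  have h3 := hconst (k * B.n)
  have h4 : t + ((k * B.n : ℕ) : ℤ) = t + k * B.n := by push_cast; ring
  rw [h4, h2] at h3
  have h5 := hh0 ((B.φ ^ k).symm h)
  have h6 : 0 < B.lam ^ k := pow_pos (by linarith [B.one_lt_lam]) _
  have h7 := mul_le_mul_of_nonneg_left h5 h6.le
  linarith

open Classical in
noncomputable def death (t : ℤ) (h : H) : ℕ := Nat.find (B.exists_death t h)

open Classical in
/-- The class of the dart `h` of `T t`: its death time, and whether it is `e` or `rev e` then. -/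
noncomputable def cls (t : ℤ) (h : H) : ℤ × Bool :=
  (t + B.death t h, decide (h = B.e (t + B.death t h)))

/-- The label of a class at its death. -/
def dart (p : ℤ × Bool) : H := if p.2 = true then B.e p.1 else (B.T p.1).rev (B.e p.1)

theorem T14_death_spec (t : ℤ) (h : H) :
    h = B.e (t + B.death t h) ∨ h = (B.T (t + B.death t h)).rev (B.e (t + B.death t h)) := by
  classical
  exact Nat.find_spec (B.exists_death t h)

theorem T14_death_min (t : ℤ) (h : H) (j : ℕ) (hj : j < B.death t h) :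
    h ≠ B.e (t + j) ∧ h ≠ (B.T (t + j)).rev (B.e (t + j)) := by
  classical
  have := Nat.find_min (B.exists_death t h) hj
  push Not at this
  exact this

theorem T14_death_eq (t : ℤ) (h : H) (m : ℕ)
    (h1 : h = B.e (t + m) ∨ h = (B.T (t + m)).rev (B.e (t + m)))
    (h2 : ∀ j : ℕ, j < m → h ≠ B.e (t + j) ∧ h ≠ (B.T (t + j)).rev (B.e (t + j))) :
    B.death t h = m := by
  rcases Nat.lt_trichotomy (B.death t h) m with h3 | h3 | h3
  · have := h2 _ h3
    rcases B.T14_death_spec t h with h4 | h4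
    · exact absurd h4 this.1
    · exact absurd h4 this.2
  · exact h3
  · have := B.T14_death_min t h m h3
    rcases h1 with h4 | h4
    · exact absurd h4 this.1
    · exact absurd h4 this.2

theorem dart_cls (t : ℤ) (h : H) : B.dart (B.cls t h) = h := by
  classical
  unfold dart cls
  by_cases hh : h = B.e (t + B.death t h)
  · simp only [decide_eq_true_eq]
    rw [if_pos hh, ← hh]
  · simp only [decide_eq_true_eq]
    rw [if_neg hh]
    rcases B.T14_death_spec t h with h4 | h4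
    · exact absurd h4 hh
    · exact h4.symm

theorem le_cls (t : ℤ) (h : H) : t ≤ (B.cls t h).1 := by
  unfold cls
  simp

theorem cls_dart (p : ℤ × Bool) : B.cls p.1 (B.dart p) = p := by
  classical
  have hd : B.death p.1 (B.dart p) = 0 := by
    apply T14_death_eq
    · unfold dart
      by_cases hp : p.2 = true
      · left; simp [hp]
      · right; simp [hp]
    · intro j hj; omega
  unfold cls
  rw [hd]
  have hne := (B.T p.1).rev_ne (B.e p.1)
  obtain ⟨t, b⟩ := p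
  unfold dart
  cases b
  · simp only [Nat.cast_zero, add_zero, Bool.false_eq_true, if_false, Prod.mk.injEq, true_and,
      decide_eq_false_iff_not]
    exact hne
  · simp

theorem cls_e (t : ℤ) : B.cls t (B.e t) = (t, true) := B.cls_dart (t, true)

theorem cls_rev_e (t : ℤ) : B.cls t ((B.T t).rev (B.e t)) = (t, false) := B.cls_dart (t, false)

theorem T14_death_succ (t : ℤ) (h : H) (h1 : h ≠ B.e t) (h2 : h ≠ (B.T t).rev (B.e t)) :
    B.death t h = B.death (t + 1) h + 1 := by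
  have hc : ∀ j : ℕ, t + ((j + 1 : ℕ) : ℤ) = t + 1 + j := by intro j; push_cast; ring
  apply T14_death_eq
  · rw [hc]; exact B.T14_death_spec (t + 1) h
  · intro j hj
    rcases j with _ | j
    · simpa using ⟨h1, h2⟩
    · rw [hc]; exact B.T14_death_min (t + 1) h j (by omega)

theorem cls_succ (t : ℤ) (h : H) (h1 : h ≠ B.e t) (h2 : h ≠ (B.T t).rev (B.e t)) :
    B.cls (t + 1) h = B.cls t h := by
  have hc : t + ((B.death (t + 1) h + 1 : ℕ) : ℤ) = t + 1 + B.death (t + 1) h := by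
    push_cast; ring
  unfold cls
  rw [B.T14_death_succ t h h1 h2, hc]

theorem T14_rev_eq_iff (t : ℤ) (g h : H) : (B.T t).rev g = h ↔ g = (B.T t).rev h := by
  constructor
  · intro hh; rw [← hh, (B.T t).rev_rev]
  · intro hh; rw [hh, (B.T t).rev_rev]

theorem cls_rev (t : ℤ) (h : H) :
    B.cls t ((B.T t).rev h) = ((B.cls t h).1, !(B.cls t h).2) := by
  classical
  have hd : B.death t ((B.T t).rev h) = B.death t h := by
    apply T14_death_eq
    · rw [B.rev_eq t (t + B.death t h), T14_rev_eq_iff]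
      rcases B.T14_death_spec t h with h4 | h4
      · right; rw [← h4]
      · left; exact h4
    · intro j hj
      obtain ⟨h3, h4⟩ := B.T14_death_min t h j hj
      rw [B.rev_eq t (t + j)]
      refine ⟨fun h5 => h4 ?_, fun h5 => h3 ?_⟩
      · rwa [T14_rev_eq_iff] at h5
      · exact (B.T (t + j)).rev.injective h5
  unfold cls
  rw [hd]
  simp only [Prod.mk.injEq, true_and]
  rw [B.rev_eq t (t + B.death t h), T14_rev_eq_iff]
  have hne := (B.T (t + B.death t h)).rev_ne (B.e (t + B.death t h))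
  rcases B.T14_death_spec t h with h4 | h4
  · have h5 : ¬ h = (B.T (t + B.death t h)).rev (B.e (t + B.death t h)) := fun h6 =>
      hne (h6.symm.trans h4)
    simp only [decide_eq_true h4, decide_eq_false h5, Bool.not_true]
  · have h5 : ¬ h = B.e (t + B.death t h) := fun h6 => hne (h4.symm.trans h6)
    simp only [decide_eq_true h4, decide_eq_false h5, Bool.not_false]

theorem T14_e_shift (t : ℤ) (j : ℕ) (h : H) :
    B.φ h = B.e (t + B.n + j) ↔ h = B.e (t + j) := by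
  have : t + (B.n : ℤ) + j = t + j + B.n := by ring
  rw [this, B.per_e]
  exact B.φ.injective.eq_iff

theorem T14_rev_shift (t : ℤ) (j : ℕ) (h : H) :
    B.φ h = (B.T (t + B.n + j)).rev (B.e (t + B.n + j)) ↔
      h = (B.T (t + j)).rev (B.e (t + j)) := by
  have : t + (B.n : ℤ) + j = t + j + B.n := by ring
  rw [this, B.per_e, B.per_rev]
  exact B.φ.injective.eq_iff

theorem cls_shift (t : ℤ) (h : H) :
    B.cls (t + B.n) (B.φ h) = ((B.cls t h).1 + B.n, (B.cls t h).2) := by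
  classical
  have hd : B.death (t + B.n) (B.φ h) = B.death t h := by
    apply T14_death_eq
    · rw [T14_e_shift, T14_rev_shift]; exact B.T14_death_spec t h
    · intro j hj
      rw [Ne, Ne, T14_e_shift, T14_rev_shift]; exact B.T14_death_min t h j hj
  unfold cls
  rw [hd]
  simp only [Prod.mk.injEq]
  refine ⟨by ring, ?_⟩
  rw [B.T14_e_shift]

/-- Induction principle: to prove `P t h` for a tall dart it is enough to do it at death, and to go
down one unit of time. -/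
theorem cls_induction (P : ℤ → H → Prop)
    (h0 : ∀ p : ℤ × Bool, P p.1 (B.dart p))
    (h1 : ∀ t h, h ≠ B.e t → h ≠ (B.T t).rev (B.e t) → P (t + 1) h → P t h) (t : ℤ) (h : H) :
    P t h := by
  have key : ∀ (k : ℕ) (t : ℤ), B.death t h = k → P t h := by
    intro k
    induction k with
    | zero =>
      intro t hk
      rcases B.T14_death_spec t h with h4 | h4
      · have := h0 (t, true)
        rw [hk] at h4
        simp only [Nat.cast_zero, add_zero] at h4
        have hh : B.dart (t, true) = h := by rw [h4]; simp [dart]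
        rwa [hh] at this
      · have := h0 (t, false)
        rw [hk] at h4
        simp only [Nat.cast_zero, add_zero] at h4
        have hh : B.dart (t, false) = h := by rw [h4]; simp [dart]
        rwa [hh] at this
    | succ k ih =>
      intro t hk
      have h3 := B.T14_death_min t h 0 (by omega)
      simp only [Nat.cast_zero, add_zero] at h3
      have h4 := B.T14_death_succ t h h3.1 h3.2
      exact h1 t h h3.1 h3.2 (ih (t + 1) (by omega))
  exact key _ t rfl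

theorem x_cls (t : ℤ) (h : H) : (B.T (B.cls t h).1).x h = (B.T t).x h := by
  apply B.cls_induction (fun t h => (B.T (B.cls t h).1).x h = (B.T t).x h)
  · intro p; rw [cls_dart]
  · intro t h h1 h2 h3
    rw [← B.cls_succ t h h1 h2, h3, (B.flip t).x_eq h h1 h2]

theorem y_cls (t : ℤ) (h : H) : (B.T (B.cls t h).1).y h = (B.T t).y h := by
  apply B.cls_induction (fun t h => (B.T (B.cls t h).1).y h = (B.T t).y h)
  · intro p; rw [cls_dart]
  · intro t h h1 h2 h3
    rw [← B.cls_succ t h h1 h2, h3, (B.flip t).y_eq h h1 h2]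

theorem pos_cls (t : ℤ) (h : H) : (B.T (B.cls t h).1).pos h = (B.T t).pos h := by
  apply B.cls_induction (fun t h => (B.T (B.cls t h).1).pos h = (B.T t).pos h)
  · intro p; rw [cls_dart]
  · intro t h h1 h2 h3
    rw [← B.cls_succ t h h1 h2, h3, (B.flip t).pos_eq h h1 h2]

/-- The wide dart of the tall left face. -/
noncomputable def Wf (p : ℤ × Bool) : ℤ × Bool := B.cls p.1 ((B.T p.1).wd (B.dart p))

/-- The step dart of the tall left face. -/
noncomputable def Sf (p : ℤ × Bool) : ℤ × Bool := B.cls p.1 ((B.T p.1).sd (B.dart p))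

theorem tall_dart (p : ℤ × Bool) : (B.T p.1).Tall (B.dart p) := by
  obtain ⟨t, b⟩ := p
  cases b
  · simpa [dart] using (B.flip t).tall_rev_e
  · simpa [dart] using (B.flip t).tall_e

/-- (K) -/
theorem Wf_cls (t : ℤ) (h : H) (ht : (B.T t).Tall h) :
    B.Wf (B.cls t h) = B.cls t ((B.T t).wd h) := by
  revert ht
  apply B.cls_induction (fun t h => (B.T t).Tall h → B.Wf (B.cls t h) = B.cls t ((B.T t).wd h))
  · intro p _; rw [cls_dart]; rfl
  · intro t h h1 h2 h3 ht
    obtain ⟨h4, h5, -, h7, h8, -, -⟩ := (B.flip t).tall_persist h h1 h2 ht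
    rw [← B.cls_succ t h h1 h2, h3 h4, h5, B.cls_succ t _ h7 h8]

theorem Sf_cls (t : ℤ) (h : H) (ht : (B.T t).Tall h) :
    B.Sf (B.cls t h) = B.cls t ((B.T t).sd h) := by
  revert ht
  apply B.cls_induction (fun t h => (B.T t).Tall h → B.Sf (B.cls t h) = B.cls t ((B.T t).sd h))
  · intro p _; rw [cls_dart]; rfl
  · intro t h h1 h2 h3 ht
    obtain ⟨h4, -, h6, -, -, h9, h10⟩ := (B.flip t).tall_persist h h1 h2 ht
    rw [← B.cls_succ t h h1 h2, h3 h4, h6, B.cls_succ t _ h9 h10]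

/-- A class alive at time `s` whose label is wide at time `s` is not in the diamond of a flip at
an earlier time `t` at which it is alive. -/
theorem T15_wide_back (t s : ℤ) (hts : t ≤ s) (k : H) (hk : (B.T s).Wide k)
    (hc : s ≤ (B.cls t k).1) : (B.T t).Wide k ∧ (t < s → ¬ IsFlip.six (B.T t) (B.e t) k) := by
  obtain ⟨j, rfl⟩ : ∃ j : ℕ, s = t + j := ⟨(s - t).toNat, by omega⟩
  clear hts
  induction j generalizing t with
  | zero => simp only [Nat.cast_zero, add_zero] at hk ⊢; exact ⟨hk, fun h => absurd h (lt_irrefl _)⟩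
  | succ j ih =>
    have hne : k ≠ B.e t ∧ k ≠ (B.T t).rev (B.e t) := by
      constructor
      · intro h; rw [h, cls_e] at hc; simp at hc; omega
      · intro h; rw [h, cls_rev_e] at hc; simp at hc; omega
    have h1 : t + ((j + 1 : ℕ) : ℤ) = t + 1 + j := by push_cast; ring
    rw [h1] at hk hc
    have h2 := ih (t + 1) hk (by rwa [B.cls_succ t k hne.1 hne.2])
    have h3 := (B.flip t).wide_of_wide k hne.1 hne.2 h2.1
    exact ⟨h3.1, fun _ => h3.2⟩

theorem T15_six_wd (t : ℤ) (b : Bool) :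
    IsFlip.six (B.T t) (B.e t) ((B.T t).wd (B.dart (t, b))) := by
  unfold IsFlip.six VTri.wd dart
  cases b
  · simp only [Bool.false_eq_true, if_false]
    split_ifs <;> simp
  · simp only [if_true]
    split_ifs <;> simp

theorem T15_inj_aux (p q : ℤ × Bool) (h : B.Wf p = B.Wf q) : ¬ p.1 < q.1 := by
  intro hlt
  have hlab : (B.T p.1).wd (B.dart p) = (B.T q.1).wd (B.dart q) := by
    have := congrArg B.dart h
    rwa [Wf, Wf, dart_cls, dart_cls] at this
  have hw := (B.T q.1).wide_wd _ (B.tall_dart q)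
  rw [← hlab] at hw
  have hle : q.1 ≤ (B.cls p.1 ((B.T p.1).wd (B.dart p))).1 := by
    have h1 : B.cls p.1 ((B.T p.1).wd (B.dart p)) = B.Wf q := h
    rw [h1]
    exact B.le_cls _ _
  have := (B.T15_wide_back p.1 q.1 hlt.le _ hw hle).2 hlt
  exact this (B.T15_six_wd p.1 p.2)

theorem Wf_injective : Function.Injective B.Wf := by
  intro p q h
  have h1 := B.T15_inj_aux p q h
  have h2 := B.T15_inj_aux q p h.symm
  have h3 : p.1 = q.1 := by omega
  have hlab : (B.T p.1).wd (B.dart p) = (B.T q.1).wd (B.dart q) := by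
    have := congrArg B.dart h
    rwa [Wf, Wf, dart_cls, dart_cls] at this
  rw [← h3] at hlab
  have h4 := (B.T p.1).tall_of_wd_eq _ _ (B.tall_dart p) (by rw [h3]; exact B.tall_dart q) hlab
  rw [← B.cls_dart p, ← B.cls_dart q, h4, h3]

theorem T15_dart_shift (p : ℤ × Bool) : B.dart (p.1 + B.n, p.2) = B.φ (B.dart p) := by
  unfold dart
  by_cases hp : p.2 = true
  · simp [hp, B.per_e]
  · simp [hp, B.per_e, B.per_rev]

theorem T15_wd_shift (t : ℤ) (h : H) : (B.T (t + B.n)).wd (B.φ h) = B.φ ((B.T t).wd h) := by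
  unfold VTri.wd
  rw [B.per_pos, B.per_next, B.per_next]
  split_ifs <;> rfl

theorem T15_sd_shift (t : ℤ) (h : H) : (B.T (t + B.n)).sd (B.φ h) = B.φ ((B.T t).sd h) := by
  unfold VTri.sd
  rw [B.per_pos, B.per_next, B.per_next]
  split_ifs <;> rfl

theorem Wf_shift (p : ℤ × Bool) :
    B.Wf (p.1 + B.n, p.2) = ((B.Wf p).1 + B.n, (B.Wf p).2) := by
  unfold Wf
  rw [T15_dart_shift]
  simp only
  rw [T15_wd_shift, cls_shift]

theorem Sf_shift (p : ℤ × Bool) :
    B.Sf (p.1 + B.n, p.2) = ((B.Sf p).1 + B.n, (B.Sf p).2) := by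
  unfold Sf
  rw [T15_dart_shift]
  simp only
  rw [T15_sd_shift, cls_shift]

theorem T15_shift_nat (t : ℤ) (b : Bool) (k : ℕ) :
    B.Wf (t + k * B.n, b) = ((B.Wf (t, b)).1 + k * B.n, (B.Wf (t, b)).2) := by
  induction k with
  | zero => simp
  | succ k ih =>
    have h1 : t + ((k + 1 : ℕ) : ℤ) * B.n = t + k * B.n + B.n := by push_cast; ring
    have h2 := B.Wf_shift (t + k * B.n, b)
    rw [h1, h2, ih]
    simp only [Prod.mk.injEq, and_true]
    push_cast; ring

theorem T15_shift_int (t : ℤ) (b : Bool) (k : ℤ) :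
    B.Wf (t + k * B.n, b) = ((B.Wf (t, b)).1 + k * B.n, (B.Wf (t, b)).2) := by
  rcases le_total 0 k with hk | hk
  · obtain ⟨j, rfl⟩ : ∃ j : ℕ, k = j := ⟨k.toNat, by omega⟩
    exact B.T15_shift_nat t b j
  · obtain ⟨j, rfl⟩ : ∃ j : ℕ, k = -j := ⟨(-k).toNat, by omega⟩
    have h1 := B.T15_shift_nat (t + -(j : ℤ) * B.n) b j
    have h2 : t + -(j : ℤ) * B.n + j * B.n = t := by ring
    rw [h2] at h1
    rw [h1]
    simp only
    ext
    · simp
    · rfl

theorem Wf_surjective : Function.Surjective B.Wf := by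
  have hn : (0 : ℤ) < B.n := by exact_mod_cast B.n_pos
  haveI : NeZero B.n := ⟨B.n_pos.ne'⟩
  -- the induced map on classes
  let red : ℤ × Bool → Fin B.n × Bool := fun p =>
    (⟨(p.1 % B.n).toNat, by
      have h1 := Int.emod_nonneg p.1 hn.ne'
      have h2 := Int.emod_lt_of_pos p.1 hn
      omega⟩, p.2)
  have hred : ∀ p q, red p = red q → ∃ k : ℤ, p = (q.1 + k * B.n, q.2) := by
    intro p q h
    have h1 := congrArg Prod.fst h
    have h2 := congrArg Prod.snd h
    simp only [red, Fin.mk.injEq] at h1 h2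
    have h3 := Int.emod_nonneg p.1 hn.ne'
    have h4 := Int.emod_nonneg q.1 hn.ne'
    have h5 : p.1 % B.n = q.1 % B.n := by omega
    refine ⟨p.1 / B.n - q.1 / B.n, ?_⟩
    have h6 := Int.emod_add_mul_ediv p.1 B.n
    have h7 := Int.emod_add_mul_ediv q.1 B.n
    ext
    · simp only; linear_combination -h6 + h7 + h5
    · exact h2
  let g : Fin B.n × Bool → Fin B.n × Bool := fun i => red (B.Wf (((i.1 : ℕ) : ℤ), i.2))
  have hg : Function.Injective g := by
    intro i j hij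
    obtain ⟨k, hk⟩ := hred _ _ hij
    rw [← B.T15_shift_int] at hk
    have h1 := B.Wf_injective hk
    simp only [Prod.mk.injEq] at h1
    obtain ⟨h2, h3⟩ := h1
    have h4 : k = 0 := by
      have hi := i.1.isLt
      have hj := j.1.isLt
      have hi' : ((i.1 : ℕ) : ℤ) < B.n := by exact_mod_cast hi
      have hj' : ((j.1 : ℕ) : ℤ) < B.n := by exact_mod_cast hj
      have hi0 : (0 : ℤ) ≤ ((i.1 : ℕ) : ℤ) := by positivity
      have hj0 : (0 : ℤ) ≤ ((j.1 : ℕ) : ℤ) := by positivity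
      by_contra hk0
      rcases lt_or_gt_of_ne hk0 with h | h
      · have : k * (B.n : ℤ) ≤ -1 * B.n := mul_le_mul_of_nonneg_right (by omega) hn.le
        omega
      · have : 1 * (B.n : ℤ) ≤ k * B.n := mul_le_mul_of_nonneg_right (by omega) hn.le
        omega
    rw [h4] at h2
    ext
    · omega
    · exact h3
  have hsurj := Finite.injective_iff_surjective.1 hg
  intro p
  obtain ⟨i, hi⟩ := hsurj (red p)
  obtain ⟨k, hk⟩ := hred p (B.Wf (((i.1 : ℕ) : ℤ), i.2)) hi.symm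
  refine ⟨(((i.1 : ℕ) : ℤ) + k * B.n, i.2), ?_⟩
  rw [B.T15_shift_int, hk]

end BiFlow

end Pool.Agent.Lib.MP_481aff_gt
end

section

/-! # From the bi-infinite flip sequence to the algebra -/

namespace Pool.Agent.Lib.MP_481aff_gt

namespace BiFlow

variable {H : Type}

/-- Reversal on classes. -/
def ιf (p : ℤ × Bool) : ℤ × Bool := (p.1, !p.2)

/-- T16: the four darts next to the flipped edge survive the flip. -/
theorem T16_ne {T T' : VTri H} {e : H} (F : IsFlip T T' e) :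
    (T.wd e ≠ e ∧ T.wd e ≠ T.rev e) ∧ (T.sd e ≠ e ∧ T.sd e ≠ T.rev e) ∧
    (T.wd (T.rev e) ≠ e ∧ T.wd (T.rev e) ≠ T.rev e) ∧
    (T.sd (T.rev e) ≠ e ∧ T.sd (T.rev e) ≠ T.rev e) := by
  have hd := F.distinct
  simp only [List.nodup_cons, List.mem_cons, List.not_mem_nil, or_false, not_or] at hd
  obtain ⟨⟨h1, h2, h3, h4, h5⟩, ⟨h6, h7, h8, h9⟩, ⟨h10, h11, h12⟩, ⟨h13, h14⟩, _⟩ := hd
  unfold VTri.wd VTri.sd
  refine ⟨?_, ?_, ?_, ?_⟩ <;> split_ifs
  · exact ⟨Ne.symm h1, h7⟩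
  · exact ⟨Ne.symm h2, h10⟩
  · exact ⟨Ne.symm h2, h10⟩
  · exact ⟨Ne.symm h1, h7⟩
  · exact ⟨Ne.symm h4, Ne.symm h13⟩
  · exact ⟨Ne.symm h5, Ne.symm h14⟩
  · exact ⟨Ne.symm h5, Ne.symm h14⟩
  · exact ⟨Ne.symm h4, Ne.symm h13⟩

theorem T16_core [Finite H] (B : BiFlow H) (t : ℤ) :
    ((B.Wf (B.Wf (t, false)) = ιf (B.Wf (B.Wf (t, true))) ∧ B.Sf (B.Wf (t, true)) = B.Sf (t, false) ∧
      B.Sf (B.Wf (t, false)) = B.Sf (t, true))) ∨
    (B.Wf (B.Sf (t, false)) = ιf (B.Wf (B.Sf (t, true))) ∧ B.Sf (B.Sf (t, true)) = B.Wf (t, false) ∧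
      B.Sf (B.Sf (t, false)) = B.Wf (t, true)) := by
  have F := B.flip t
  obtain ⟨⟨a1, a2⟩, ⟨b1, b2⟩, ⟨c1, c2⟩, ⟨d1, d2⟩⟩ := T16_ne F
  have hWt : B.Wf (t, true) = B.cls (t + 1) ((B.T t).wd (B.e t)) := by
    rw [B.cls_succ t _ a1 a2, ← B.Wf_cls t (B.e t) F.tall_e, B.cls_e]
  have hSt : B.Sf (t, true) = B.cls (t + 1) ((B.T t).sd (B.e t)) := by
    rw [B.cls_succ t _ b1 b2, ← B.Sf_cls t (B.e t) F.tall_e, B.cls_e]
  have hWf : B.Wf (t, false) = B.cls (t + 1) ((B.T t).wd ((B.T t).rev (B.e t))) := by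
    rw [B.cls_succ t _ c1 c2, ← B.Wf_cls t _ F.tall_rev_e, B.cls_rev_e]
  have hSf : B.Sf (t, false) = B.cls (t + 1) ((B.T t).sd ((B.T t).rev (B.e t))) := by
    rw [B.cls_succ t _ d1 d2, ← B.Sf_cls t _ F.tall_rev_e, B.cls_rev_e]
  have hι : B.cls (t + 1) ((B.T t).rev (B.e t)) = ιf (B.cls (t + 1) (B.e t)) := by
    rw [B.rev_eq t (t + 1), B.cls_rev]
    rfl
  have hιι : ∀ p : ℤ × Bool, ιf (ιf p) = p := by
    intro p
    simp [ιf]
  by_cases hc : (B.T (t + 1)).pos (B.e t) = (B.T t).pos (B.e t)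
  · left
    obtain ⟨h1, h2, h3, h4, h5⟩ := F.same hc
    refine ⟨?_, ?_, ?_⟩
    · rw [hWf, hWt, B.Wf_cls (t + 1) _ h1, B.Wf_cls (t + 1) _ h2]
      split_ifs at h5 with hp
      · rw [h5.1, h5.2, hι, hιι]
      · rw [h5.1, h5.2, hι]
    · rw [hWt, B.Sf_cls (t + 1) _ h1, h3, hSf]
    · rw [hWf, B.Sf_cls (t + 1) _ h2, h4, hSt]
  · right
    obtain ⟨h1, h2, h3, h4, h5⟩ := F.chg hc
    refine ⟨?_, ?_, ?_⟩
    · rw [hSf, hSt, B.Wf_cls (t + 1) _ h1, B.Wf_cls (t + 1) _ h2]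
      split_ifs at h5 with hp
      · rw [h5.1, h5.2, hι]
      · rw [h5.1, h5.2, hι, hιι]
    · rw [hSt, B.Sf_cls (t + 1) _ h1, h3, hWf]
    · rw [hSf, B.Sf_cls (t + 1) _ h2, h4, hWt]

theorem flipRel [Finite H] (B : BiFlow H) (p : ℤ × Bool) :
    (B.Wf (B.Wf (ιf p)) = ιf (B.Wf (B.Wf p)) ∧ B.Sf (B.Wf p) = B.Sf (ιf p) ∧
      B.Sf (B.Wf (ιf p)) = B.Sf p) ∨
    (B.Wf (B.Sf (ιf p)) = ιf (B.Wf (B.Sf p)) ∧ B.Sf (B.Sf p) = B.Wf (ιf p) ∧
      B.Sf (B.Sf (ιf p)) = B.Wf p) := by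
  have hιι : ∀ p : ℤ × Bool, ιf (ιf p) = p := by
    intro p
    simp [ιf]
  obtain ⟨t, b⟩ := p
  cases b with
  | true => exact T16_core B t
  | false =>
    rcases T16_core B t with ⟨h1, h2, h3⟩ | ⟨h1, h2, h3⟩
    · left
      refine ⟨?_, h3, h2⟩
      show B.Wf (B.Wf (t, true)) = ιf (B.Wf (B.Wf (t, false)))
      rw [h1, hιι]
    · right
      refine ⟨?_, h3, h2⟩
      show B.Wf (B.Sf (t, true)) = ιf (B.Wf (B.Sf (t, false)))
      rw [h1, hιι]

theorem T16_tele (f : ℤ → ℝ) (n : ℕ) :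
    ∑ t ∈ Finset.Ico (0 : ℤ) n, (f (t + 1) - f t) = f n - f 0 := by
  induction n with
  | zero => simp
  | succ n ih =>
    have h : Finset.Ico (0 : ℤ) ((n + 1 : ℕ) : ℤ) = insert (n : ℤ) (Finset.Ico (0 : ℤ) n) := by
      ext k
      simp only [Finset.mem_insert, Finset.mem_Ico, Nat.cast_add, Nat.cast_one]
      omega
    rw [h, Finset.sum_insert (by simp), ih]
    push_cast
    ring

/-- Telescoping of the colour potentials. `z t h` is a function of the edges: constant in time as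
long as the edge exists, invariant under `rev`, and changing by the constant `κ` in a period. -/
theorem sumRule [Fintype H] (B : BiFlow H) (b : Bool) (z : ℤ → H → ℝ) (κ : ℝ)
    (hz : ∀ t h, h ≠ B.e t → h ≠ (B.T t).rev (B.e t) → z (t + 1) h = z t h)
    (hrev : ∀ t h, z t ((B.T t).rev h) = z t h)
    (hper : ∀ t h, z (t + B.n) (B.φ h) = z t h + κ) :
    ∑ t ∈ Finset.Ico (0 : ℤ) B.n, (if (B.T t).pos (B.e t) = b then
      z t ((B.T t).wd (B.e t)) + z t ((B.T t).wd ((B.T t).rev (B.e t))) - 2 * z t (B.e t) else 0) =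
    (Fintype.card H : ℝ) / 3 * κ := by
  classical
  cases b with
  | false =>
    set Φ : ℤ → ℝ := fun t =>
      ∑ h with (B.T t).pos h = false ∧ (B.T t).pos ((B.T t).next h) = true, z t h with hΦ
    have hstep : ∀ t : ℤ, (if (B.T t).pos (B.e t) = false then
        z t ((B.T t).wd (B.e t)) + z t ((B.T t).wd ((B.T t).rev (B.e t))) - 2 * z t (B.e t) else 0)
        = Φ (t + 1) - Φ t := by
      intro t
      have h := (B.flip t).sum_neg (z t) (z (t + 1)) (hz t)
      simp only [hΦ]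
      rw [h, hrev]
      split_ifs
      · ring
      · rfl
    rw [Finset.sum_congr rfl (fun t _ => hstep t), T16_tele]
    have hper' : Φ B.n = Φ 0 + ((Finset.univ.filter fun h => (B.T 0).pos h = false ∧
        (B.T 0).pos ((B.T 0).next h) = true).card : ℝ) * κ := by
      simp only [hΦ]
      have hk : ((Finset.univ.filter fun h => (B.T 0).pos h = false ∧
          (B.T 0).pos ((B.T 0).next h) = true).card : ℝ) * κ =
          ∑ h with (B.T 0).pos h = false ∧ (B.T 0).pos ((B.T 0).next h) = true, κ := by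
        rw [Finset.sum_const, nsmul_eq_mul]
      rw [hk, ← Finset.sum_add_distrib]
      symm
      refine Finset.sum_bij (fun h _ => B.φ h) ?_ ?_ ?_ ?_
      · intro h hh
        simp only [Finset.mem_filter, Finset.mem_univ, true_and] at hh ⊢
        have h1 := B.per_pos 0 h
        have h2 := B.per_next 0 h
        have h3 := B.per_pos 0 ((B.T 0).next h)
        rw [zero_add] at h1 h2 h3
        rw [h1, h2, h3]
        exact hh
      · intro h _ h' _ hh
        exact B.φ.injective hh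
      · intro h hh
        refine ⟨B.φ.symm h, ?_, B.φ.apply_symm_apply h⟩
        simp only [Finset.mem_filter, Finset.mem_univ, true_and] at hh ⊢
        have h1 := B.per_pos 0 (B.φ.symm h)
        have h2 := B.per_next 0 (B.φ.symm h)
        have h3 := B.per_pos 0 ((B.T 0).next (B.φ.symm h))
        rw [zero_add] at h1 h2 h3
        rw [Equiv.apply_symm_apply] at h1 h2
        rw [← h2] at h3
        rw [← h1, ← h3]
        exact hh
      · intro h _
        have := hper 0 h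
        rw [zero_add] at this
        exact this.symm
    have hcard := (B.T 0).card_neg
    have hcard' : (3 : ℝ) * ((Finset.univ.filter fun h => (B.T 0).pos h = false ∧
        (B.T 0).pos ((B.T 0).next h) = true).card : ℝ) = (Fintype.card H : ℝ) := by
      exact_mod_cast hcard
    rw [hper', ← hcard']
    ring
  | true =>
    set Φ : ℤ → ℝ := fun t =>
      ∑ h with (B.T t).pos h = true ∧ (B.T t).pos ((B.T t).next ((B.T t).next h)) = false, z t h
      with hΦ
    have hstep : ∀ t : ℤ, (if (B.T t).pos (B.e t) = true then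
        z t ((B.T t).wd (B.e t)) + z t ((B.T t).wd ((B.T t).rev (B.e t))) - 2 * z t (B.e t) else 0)
        = Φ (t + 1) - Φ t := by
      intro t
      have h := (B.flip t).sum_pos (z t) (z (t + 1)) (hz t)
      simp only [hΦ]
      rw [h, hrev]
      split_ifs
      · ring
      · rfl
    rw [Finset.sum_congr rfl (fun t _ => hstep t), T16_tele]
    have hper' : Φ B.n = Φ 0 + ((Finset.univ.filter fun h => (B.T 0).pos h = true ∧
        (B.T 0).pos ((B.T 0).next ((B.T 0).next h)) = false).card : ℝ) * κ := by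
      simp only [hΦ]
      have hk : ((Finset.univ.filter fun h => (B.T 0).pos h = true ∧
          (B.T 0).pos ((B.T 0).next ((B.T 0).next h)) = false).card : ℝ) * κ =
          ∑ h with (B.T 0).pos h = true ∧ (B.T 0).pos ((B.T 0).next ((B.T 0).next h)) = false, κ := by
        rw [Finset.sum_const, nsmul_eq_mul]
      rw [hk, ← Finset.sum_add_distrib]
      symm
      refine Finset.sum_bij (fun h _ => B.φ h) ?_ ?_ ?_ ?_
      · intro h hh
        simp only [Finset.mem_filter, Finset.mem_univ, true_and] at hh ⊢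
        have h1 := B.per_pos 0 h
        have h2 := B.per_next 0 h
        have h4 := B.per_next 0 ((B.T 0).next h)
        have h3 := B.per_pos 0 ((B.T 0).next ((B.T 0).next h))
        rw [zero_add] at h1 h2 h3 h4
        rw [h1, h2, h4, h3]
        exact hh
      · intro h _ h' _ hh
        exact B.φ.injective hh
      · intro h hh
        refine ⟨B.φ.symm h, ?_, B.φ.apply_symm_apply h⟩
        simp only [Finset.mem_filter, Finset.mem_univ, true_and] at hh ⊢
        have h1 := B.per_pos 0 (B.φ.symm h)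
        have h2 := B.per_next 0 (B.φ.symm h)
        have h4 := B.per_next 0 ((B.T 0).next (B.φ.symm h))
        have h3 := B.per_pos 0 ((B.T 0).next ((B.T 0).next (B.φ.symm h)))
        rw [zero_add] at h1 h2 h3 h4
        rw [Equiv.apply_symm_apply] at h1 h2
        rw [← h4, ← h2] at h3
        rw [← h1, ← h3]
        exact hh
      · intro h _
        have := hper 0 h
        rw [zero_add] at this
        exact this.symm
    have hcard := (B.T 0).card_pos
    have hcard' : (3 : ℝ) * ((Finset.univ.filter fun h => (B.T 0).pos h = true ∧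
        (B.T 0).pos ((B.T 0).next ((B.T 0).next h)) = false).card : ℝ) = (Fintype.card H : ℝ) := by
      exact_mod_cast hcard
    rw [hper', ← hcard']
    ring

/-- Reversal as a permutation. -/
private def T17_ι : Equiv.Perm (ℤ × Bool) where
  toFun := ιf
  invFun := ιf
  left_inv p := by simp [ιf]
  right_inv p := by simp [ιf]

/-- The monodromy on classes. -/
private def T17_f (B : BiFlow H) : Equiv.Perm (ℤ × Bool) where
  toFun p := (p.1 + B.n, p.2)
  invFun p := (p.1 - B.n, p.2)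
  left_inv p := by simp
  right_inv p := by simp

private theorem T17_fz (B : BiFlow H) (k : ℤ) (p : ℤ × Bool) :
    ((T17_f B) ^ k) p = (p.1 + k • (B.n : ℤ), p.2) := by
  induction k using Int.induction_on generalizing p with
  | zero => simp
  | succ k ih =>
    rw [zpow_add_one, Equiv.Perm.mul_apply, ih]
    simp only [T17_f, Equiv.coe_fn_mk, smul_eq_mul, Prod.mk.injEq, and_true]
    ring
  | pred k ih =>
    rw [zpow_sub_one, Equiv.Perm.mul_apply, ih]
    have h : (T17_f B)⁻¹ p = (p.1 - B.n, p.2) := rfl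
    rw [h]
    simp only [smul_eq_mul, Prod.mk.injEq, and_true]
    ring

private theorem T17_dart_ι (B : BiFlow H) (p : ℤ × Bool) :
    B.dart (ιf p) = (B.T p.1).rev (B.dart p) := by
  obtain ⟨t, b⟩ := p
  cases b
  · simp [ιf, dart, (B.T t).rev_rev]
  · simp [ιf, dart]

private theorem T17_dart_f (B : BiFlow H) (p : ℤ × Bool) :
    B.dart (p.1 + B.n, p.2) = B.φ (B.dart p) := by
  obtain ⟨t, b⟩ := p
  cases b
  · simp [dart, B.per_e, B.per_rev]
  · simp [dart, B.per_e]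

private theorem T17_sum [Fintype H] (B : BiFlow H) (b : Bool) (z : ℤ → H → ℝ)
    (hz : ∀ t h, h ≠ B.e t → h ≠ (B.T t).rev (B.e t) → z (t + 1) h = z t h)
    (hrev : ∀ t h, z t ((B.T t).rev h) = z t h)
    (hper : ∀ t h, z (t + B.n) (B.φ h) = z t h + Real.log B.lam) :
    ∑ p ∈ (Finset.Ico (0 : ℤ) B.n ×ˢ (Finset.univ : Finset Bool)) with
      (B.T p.1).pos (B.dart p) = b,
      (z p.1 ((B.T p.1).wd (B.dart p)) - z p.1 (B.dart p)) =
    2 * Real.log (B.lam ^ ((Fintype.card H : ℝ) / 6)) := by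
  rw [Real.log_rpow (lt_trans zero_lt_one B.one_lt_lam), Finset.sum_filter, Finset.sum_product]
  have h := B.sumRule b z (Real.log B.lam) hz hrev hper
  have h2 : 2 * ((Fintype.card H : ℝ) / 6 * Real.log B.lam) =
      (Fintype.card H : ℝ) / 3 * Real.log B.lam := by ring
  rw [h2, ← h]
  refine Finset.sum_congr rfl fun t _ => ?_
  rw [Fintype.sum_bool]
  have d1 : B.dart (t, true) = B.e t := by simp [dart]
  have d2 : B.dart (t, false) = (B.T t).rev (B.e t) := by simp [dart]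
  rw [d1, d2]
  simp only [(B.T t).pos_rev, hrev]
  by_cases hb : (B.T t).pos (B.e t) = b
  · simp only [hb, if_true]
    ring
  · simp only [hb, if_false, add_zero]

theorem exists_VAlg [Fintype H] (B : BiFlow H) :
    ∃ A : VAlg (ℤ × Bool), A.D = B.lam ^ ((Fintype.card H : ℝ) / 6) ∧ A.R.card = 2 * B.n := by
  have hlam : 0 < B.lam := lt_trans zero_lt_one B.one_lt_lam
  have hn : (0 : ℤ) < B.n := by exact_mod_cast B.n_pos
  have hxW : ∀ p : ℤ × Bool, (B.T (B.Wf p).1).x (B.dart (B.Wf p)) =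
      (B.T p.1).x ((B.T p.1).wd (B.dart p)) := by
    intro p
    unfold Wf
    rw [B.dart_cls, B.x_cls]
  have hyW : ∀ p : ℤ × Bool, (B.T (B.Wf p).1).y (B.dart (B.Wf p)) =
      (B.T p.1).y ((B.T p.1).wd (B.dart p)) := by
    intro p
    unfold Wf
    rw [B.dart_cls, B.y_cls]
  have hcW : ∀ p : ℤ × Bool, (B.T (B.Wf p).1).pos (B.dart (B.Wf p)) =
      (B.T p.1).pos ((B.T p.1).wd (B.dart p)) := by
    intro p
    unfold Wf
    rw [B.dart_cls, B.pos_cls]
  have hxS : ∀ p : ℤ × Bool, (B.T (B.Sf p).1).x (B.dart (B.Sf p)) =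
      (B.T p.1).x ((B.T p.1).sd (B.dart p)) := by
    intro p
    unfold Sf
    rw [B.dart_cls, B.x_cls]
  have hyS : ∀ p : ℤ × Bool, (B.T (B.Sf p).1).y (B.dart (B.Sf p)) =
      (B.T p.1).y ((B.T p.1).sd (B.dart p)) := by
    intro p
    unfold Sf
    rw [B.dart_cls, B.y_cls]
  have hcS : ∀ p : ℤ × Bool, (B.T (B.Sf p).1).pos (B.dart (B.Sf p)) =
      (B.T p.1).pos ((B.T p.1).sd (B.dart p)) := by
    intro p
    unfold Sf
    rw [B.dart_cls, B.pos_cls]
  refine ⟨{
    ι := T17_ι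
    W := Equiv.ofBijective B.Wf ⟨B.Wf_injective, B.Wf_surjective⟩
    S := B.Sf
    f := T17_f B
    c := fun p => (B.T p.1).pos (B.dart p)
    x := fun p => (B.T p.1).x (B.dart p)
    y := fun p => (B.T p.1).y (B.dart p)
    lam := B.lam
    D := B.lam ^ ((Fintype.card H : ℝ) / 6)
    one_lt_lam := B.one_lt_lam
    one_lt_D := ?_
    ι_ι := ?_
    ι_ne := ?_
    c_ι := ?_
    x_ι := ?_
    y_ι := ?_
    f_ι := ?_
    f_W := ?_
    f_S := ?_
    c_f := ?_
    x_f := ?_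
    y_f := ?_
    x_pos := fun p => (B.T p.1).x_pos _
    y_pos := fun p => (B.T p.1).y_pos _
    c_W := ?_
    c_S := ?_
    x_W := ?_
    y_W := ?_
    flip := ?_
    R := Finset.Ico (0 : ℤ) B.n ×ˢ (Finset.univ : Finset Bool)
    rep := ?_
    sum_x := ?_
    sum_y := ?_ }, rfl, ?_⟩
  · refine Real.one_lt_rpow B.one_lt_lam ?_
    have : 0 < Fintype.card H := Fintype.card_pos_iff.mpr ⟨B.e 0⟩
    positivity
  · intro p
    exact T17_ι.left_inv p
  · intro p hp
    have := congrArg Prod.snd hp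
    simp [T17_ι, ιf] at this
  · intro p
    show (B.T (ιf p).1).pos (B.dart (ιf p)) = _
    rw [T17_dart_ι]
    exact (B.T p.1).pos_rev _
  · intro p
    show (B.T (ιf p).1).x (B.dart (ιf p)) = _
    rw [T17_dart_ι]
    exact (B.T p.1).x_rev _
  · intro p
    show (B.T (ιf p).1).y (B.dart (ιf p)) = _
    rw [T17_dart_ι]
    exact (B.T p.1).y_rev _
  · intro p
    rfl
  · intro p
    exact (B.Wf_shift p).symm
  · intro p
    exact (B.Sf_shift p).symm
  · intro p
    show (B.T (p.1 + B.n)).pos (B.dart (p.1 + B.n, p.2)) = _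
    rw [T17_dart_f, B.per_pos]
  · intro p
    show (B.T (p.1 + B.n)).x (B.dart (p.1 + B.n, p.2)) = _
    rw [T17_dart_f, B.per_x]
  · intro p
    show B.lam * (B.T (p.1 + B.n)).y (B.dart (p.1 + B.n, p.2)) = _
    rw [T17_dart_f, B.per_y]
  · intro p
    show (B.T (B.Wf p).1).pos (B.dart (B.Wf p)) = _
    rw [hcW, (B.T p.1).pos_wd _ (B.tall_dart p)]
  · intro p
    show (B.T (B.Sf p).1).pos (B.dart (B.Sf p)) = _
    rw [hcS, (B.T p.1).pos_sd _ (B.tall_dart p)]
  · intro p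
    show (B.T (B.Wf p).1).x (B.dart (B.Wf p)) = _ + (B.T (B.Sf p).1).x (B.dart (B.Sf p))
    rw [hxW, hxS, (B.T p.1).x_wd _ (B.tall_dart p)]
  · intro p
    show _ = (B.T (B.Wf p).1).y (B.dart (B.Wf p)) + (B.T (B.Sf p).1).y (B.dart (B.Sf p))
    rw [hyW, hyS, ← (B.T p.1).y_wd _ (B.tall_dart p)]
  · intro p
    exact B.flipRel p
  · intro p
    have key := existsUnique_add_zsmul_mem_Ico hn p.1 0
    obtain ⟨k, hk, hu⟩ := key
    refine ⟨k, ?_, ?_⟩
    · show ((T17_f B) ^ k) p ∈ _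
      rw [T17_fz]
      rw [Finset.mem_product]
      refine ⟨?_, Finset.mem_univ _⟩
      rw [Finset.mem_Ico]
      have := hk
      rw [Set.mem_Ico, zero_add] at this
      exact this
    · intro j hj
      apply hu
      have hj' : ((T17_f B) ^ j) p ∈ Finset.Ico (0 : ℤ) B.n ×ˢ (Finset.univ : Finset Bool) := hj
      rw [T17_fz, Finset.mem_product, Finset.mem_Ico] at hj'
      show p.1 + j • (B.n : ℤ) ∈ Set.Ico (0 : ℤ) (0 + B.n)
      rw [Set.mem_Ico, zero_add]
      exact hj'.1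
  · intro b
    have key := T17_sum B b (fun t h => Real.log ((B.T t).x h))
      (fun t h h1 h2 => by rw [(B.flip t).x_eq h h1 h2])
      (fun t h => by rw [(B.T t).x_rev])
      (fun t h => by
        rw [B.per_x, Real.log_mul hlam.ne' ((B.T t).x_pos h).ne']
        ring)
    refine Eq.trans (Finset.sum_congr rfl fun p _ => ?_) key
    show Real.log ((B.T (B.Wf p).1).x (B.dart (B.Wf p)) / (B.T p.1).x (B.dart p)) = _
    rw [hxW, Real.log_div ((B.T p.1).x_pos _).ne' ((B.T p.1).x_pos _).ne']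
  · intro b
    have key := T17_sum B b (fun t h => -Real.log ((B.T t).y h))
      (fun t h h1 h2 => by rw [(B.flip t).y_eq h h1 h2])
      (fun t h => by rw [(B.T t).y_rev])
      (fun t h => by
        rw [← B.per_y t h, Real.log_mul hlam.ne' ((B.T (t + B.n)).y_pos _).ne']
        ring)
    refine Eq.trans (Finset.sum_congr rfl fun p _ => ?_) key
    show Real.log ((B.T p.1).y (B.dart p) / (B.T (B.Wf p).1).y (B.dart (B.Wf p))) = _
    rw [hyW, Real.log_div ((B.T p.1).y_pos _).ne' ((B.T p.1).y_pos _).ne']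
    ring
  · show (Finset.Ico (0 : ℤ) B.n ×ˢ (Finset.univ : Finset Bool)).card = 2 * B.n
    rw [Finset.card_product, Int.card_Ico, Finset.card_univ, Fintype.card_bool]
    simp
    ring

end BiFlow

end Pool.Agent.Lib.MP_481aff_gt
end

section

/-! # Basic facts on `VAlg` -/

namespace Pool.Agent.Lib.MP_481aff_gt

namespace VAlg

variable {E : Type} (A : VAlg E)

theorem lam_pos : 0 < A.lam := lt_trans zero_lt_one A.one_lt_lam

theorem D_pos : 0 < A.D := lt_trans zero_lt_one A.one_lt_D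

theorem η_pos : 0 < A.η := by unfold η; have := A.D_pos; positivity

theorem η_mul : A.η * (10 * A.D) = 1 := by
  unfold η
  have := A.D_pos
  field_simp

theorem α_apply (e : E) : A.α e = A.ι (A.W e) := rfl

theorem β_apply (e : E) : A.β e = A.ι (A.W⁻¹ e) := rfl

theorem ι_inv_apply (e : E) : A.ι⁻¹ e = A.ι e := by
  rw [Equiv.Perm.inv_eq_iff_eq, A.ι_ι]

theorem α_inv_apply (e : E) : A.α⁻¹ e = A.W⁻¹ (A.ι e) := by
  rw [Equiv.Perm.inv_eq_iff_eq, α_apply]
  simp [A.ι_ι]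

theorem β_inv_apply (e : E) : A.β⁻¹ e = A.W (A.ι e) := by
  rw [Equiv.Perm.inv_eq_iff_eq, β_apply]
  simp [A.ι_ι]

/-- `β = ι α⁻¹ ι`. -/
theorem β_zpow (k : ℤ) (e : E) : (A.β ^ k) e = A.ι ((A.α ^ (-k)) (A.ι e)) := by
  have hii : A.ι * A.ι = 1 := by
    ext e
    simp [A.ι_ι]
  have hinv : A.ι⁻¹ = A.ι := inv_eq_of_mul_eq_one_left hii
  have hβ : A.β = A.ι * A.α⁻¹ * A.ι⁻¹ := by
    unfold β α
    rw [mul_inv_rev, hinv, mul_assoc, mul_assoc, hii, mul_one]
  rw [hβ, conj_zpow, inv_zpow', hinv]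
  rfl

theorem α_zpow (k : ℤ) (e : E) : (A.α ^ k) e = A.ι ((A.β ^ (-k)) (A.ι e)) := by
  rw [β_zpow, A.ι_ι, A.ι_ι, neg_neg]

private theorem T1_comm_ι : Commute A.f A.ι := by
  ext e
  exact A.f_ι e

private theorem T1_comm_W : Commute A.f A.W := by
  ext e
  exact A.f_W e

private theorem T1_app {P Q : Equiv.Perm E} (h : Commute P Q) (e : E) : P (Q e) = Q (P e) := by
  have := congrArg (fun g : Equiv.Perm E => g e) h.eq
  simpa using this

theorem fz_ι (k : ℤ) (e : E) : (A.f ^ k) (A.ι e) = A.ι ((A.f ^ k) e) :=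
  T1_app (A.T1_comm_ι.zpow_left k) e

theorem fz_W (k : ℤ) (e : E) : (A.f ^ k) (A.W e) = A.W ((A.f ^ k) e) :=
  T1_app (A.T1_comm_W.zpow_left k) e

private theorem T1_succ (P : Equiv.Perm E) (k : ℤ) (e : E) : (P ^ (k + 1)) e = (P ^ k) (P e) := by
  rw [zpow_add_one]
  rfl

private theorem T1_succ' (P : Equiv.Perm E) (k : ℤ) (e : E) : (P ^ (k + 1)) e = P ((P ^ k) e) := by
  rw [← mul_self_zpow]
  rfl

private theorem T1_pred (P : Equiv.Perm E) (k : ℤ) (e : E) :
    (P ^ (k - 1)) e = (P ^ k) (P⁻¹ e) := by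
  rw [zpow_sub_one]
  rfl

theorem fz_S (k : ℤ) (e : E) : (A.f ^ k) (A.S e) = A.S ((A.f ^ k) e) := by
  induction k using Int.induction_on generalizing e with
  | zero => simp
  | succ k ih => rw [T1_succ, T1_succ, A.f_S, ih]
  | pred k ih =>
    have h : A.f⁻¹ (A.S e) = A.S (A.f⁻¹ e) := by
      rw [Equiv.Perm.inv_eq_iff_eq, A.f_S]
      simp
    rw [T1_pred, T1_pred, h, ih]

theorem fz_W_inv (k : ℤ) (e : E) : (A.f ^ k) (A.W⁻¹ e) = A.W⁻¹ ((A.f ^ k) e) :=
  T1_app (A.T1_comm_W.zpow_left k).inv_right e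

private theorem T1_comm_α : Commute A.f A.α := A.T1_comm_ι.mul_right A.T1_comm_W

private theorem T1_comm_β : Commute A.f A.β := A.T1_comm_ι.mul_right A.T1_comm_W.inv_right

theorem fz_α (k l : ℤ) (e : E) : (A.f ^ k) ((A.α ^ l) e) = (A.α ^ l) ((A.f ^ k) e) :=
  T1_app (A.T1_comm_α.zpow_zpow k l) e

theorem fz_β (k l : ℤ) (e : E) : (A.f ^ k) ((A.β ^ l) e) = (A.β ^ l) ((A.f ^ k) e) :=
  T1_app (A.T1_comm_β.zpow_zpow k l) e

theorem x_fz (k : ℤ) (e : E) : A.x ((A.f ^ k) e) = A.lam ^ k * A.x e := by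
  have hl := A.lam_pos.ne'
  induction k using Int.induction_on generalizing e with
  | zero => simp
  | succ k ih => rw [T1_succ, ih, A.x_f, zpow_add_one₀ hl]; ring
  | pred k ih =>
    have h : A.x (A.f⁻¹ e) = A.lam⁻¹ * A.x e := by
      rw [eq_inv_mul_iff_mul_eq₀ hl, ← A.x_f]
      simp
    rw [T1_pred, ih, h, zpow_sub_one₀ hl]; ring

theorem y_fz (k : ℤ) (e : E) : A.y ((A.f ^ k) e) = A.lam ^ (-k) * A.y e := by
  have hl := A.lam_pos.ne'
  induction k using Int.induction_on generalizing e with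
  | zero => simp
  | succ k ih =>
    have h : A.y (A.f e) = A.lam⁻¹ * A.y e := by
      rw [eq_inv_mul_iff_mul_eq₀ hl, A.y_f]
    rw [T1_succ, ih, h, neg_add, ← sub_eq_add_neg, zpow_sub_one₀ hl]; ring
  | pred k ih =>
    have h : A.y (A.f⁻¹ e) = A.lam * A.y e := by
      rw [← A.y_f (A.f⁻¹ e)]
      simp
    rw [T1_pred, ih, h, neg_sub, sub_eq_add_neg, add_comm 1 (-(-(k : ℤ))), zpow_add_one₀ hl]; ring

theorem c_fz (k : ℤ) (e : E) : A.c ((A.f ^ k) e) = A.c e := by
  induction k using Int.induction_on generalizing e with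
  | zero => simp
  | succ k ih => rw [T1_succ, ih, A.c_f]
  | pred k ih =>
    have h : A.c (A.f⁻¹ e) = A.c e := by
      rw [← A.c_f (A.f⁻¹ e)]
      simp
    rw [T1_pred, ih, h]

theorem eq_zero_of_fz (k : ℤ) (e : E) (h : (A.f ^ k) e = e) : k = 0 := by
  have h1 := A.x_fz k e
  rw [h] at h1
  have hx := A.x_pos e
  have h2 : A.lam ^ k = 1 := by
    have : (A.lam ^ k - 1) * A.x e = 0 := by linarith
    rcases mul_eq_zero.mp this with h | h
    · linarith
    · exact absurd h hx.ne'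
  exact (zpow_right_injective₀ A.lam_pos A.one_lt_lam.ne') (h2.trans (zpow_zero _).symm)

theorem x_α_lt (e : E) : A.x e < A.x (A.α e) := by
  rw [α_apply, A.x_ι, A.x_W]
  linarith [A.x_pos (A.S e)]

theorem y_α_lt (e : E) : A.y (A.α e) < A.y e := by
  rw [α_apply, A.y_ι, A.y_W e]
  linarith [A.y_pos (A.S e)]

private theorem T1_c_zpow (P : Equiv.Perm E) (hP : ∀ e, A.c (P e) = A.c e) (k : ℤ) (e : E) :
    A.c ((P ^ k) e) = A.c e := by
  induction k using Int.induction_on generalizing e with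
  | zero => simp
  | succ k ih => rw [T1_succ, ih, hP]
  | pred k ih =>
    have h : A.c (P⁻¹ e) = A.c e := by
      rw [← hP (P⁻¹ e)]
      simp
    rw [T1_pred, ih, h]

theorem c_αz (k : ℤ) (e : E) : A.c ((A.α ^ k) e) = A.c e :=
  A.T1_c_zpow A.α (fun e => by rw [α_apply, A.c_ι, A.c_W]) k e

theorem c_βz (k : ℤ) (e : E) : A.c ((A.β ^ k) e) = A.c e :=
  A.T1_c_zpow A.β (fun e => by
    rw [β_apply, A.c_ι, ← A.c_W (A.W⁻¹ e)]
    simp) k e

theorem x_αz_strictMono (e : E) : StrictMono (fun i : ℤ => A.x ((A.α ^ i) e)) :=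
  strictMono_int_of_lt_succ fun i => by
    show A.x ((A.α ^ i) e) < A.x ((A.α ^ (i + 1)) e)
    rw [T1_succ']
    exact A.x_α_lt _

theorem y_αz_strictAnti (e : E) : StrictAnti (fun i : ℤ => A.y ((A.α ^ i) e)) :=
  strictAnti_int_of_succ_lt fun i => by
    show A.y ((A.α ^ (i + 1)) e) < A.y ((A.α ^ i) e)
    rw [T1_succ']
    exact A.y_α_lt _

theorem x_βz_strictAnti (e : E) : StrictAnti (fun i : ℤ => A.x ((A.β ^ i) e)) := by
  intro i j hij
  show A.x ((A.β ^ j) e) < A.x ((A.β ^ i) e)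
  rw [β_zpow, β_zpow, A.x_ι, A.x_ι]
  exact A.x_αz_strictMono (A.ι e) (neg_lt_neg hij)

theorem y_βz_strictMono (e : E) : StrictMono (fun i : ℤ => A.y ((A.β ^ i) e)) := by
  intro i j hij
  show A.y ((A.β ^ i) e) < A.y ((A.β ^ j) e)
  rw [β_zpow, β_zpow, A.y_ι, A.y_ι]
  exact A.y_αz_strictAnti (A.ι e) (neg_lt_neg hij)

/-- Every `α`-orbit is periodic modulo `f`. -/
theorem α_per (e : E) : ∃ N : ℕ, 0 < N ∧ ∃ m : ℤ, 0 < m ∧ (A.α ^ (N : ℤ)) e = (A.f ^ m) e := by
  choose k hk _ using fun i : ℕ => A.rep ((A.α ^ (i : ℤ)) e)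
  have hk' : ∀ i : ℕ, (A.f ^ (k i)) ((A.α ^ (i : ℤ)) e) ∈ A.R := hk
  obtain ⟨i, j, hij, heq⟩ := Finite.exists_ne_map_eq_of_infinite
    (fun i : ℕ => (⟨(A.f ^ (k i)) ((A.α ^ (i : ℤ)) e), hk' i⟩ : A.R))
  have heq' : (A.f ^ (k i)) ((A.α ^ (i : ℤ)) e) = (A.f ^ (k j)) ((A.α ^ (j : ℤ)) e) :=
    congrArg Subtype.val heq
  -- the statement for `i < j`
  have key : ∀ i j : ℕ, i < j →
      (A.f ^ (k i)) ((A.α ^ (i : ℤ)) e) = (A.f ^ (k j)) ((A.α ^ (j : ℤ)) e) →
      ∃ N : ℕ, 0 < N ∧ ∃ m : ℤ, 0 < m ∧ (A.α ^ (N : ℤ)) e = (A.f ^ m) e := by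
    intro i j hij h
    refine ⟨j - i, by omega, k i - k j, ?_⟩
    have h1 : (A.α ^ (((j - i : ℕ)) : ℤ)) e = (A.f ^ (k i - k j)) e := by
      rw [Nat.cast_sub hij.le]
      have h2 : (A.α ^ (-(i : ℤ))) ((A.f ^ (-(k j))) ((A.f ^ (k i)) ((A.α ^ (i : ℤ)) e))) =
          (A.α ^ (-(i : ℤ))) ((A.f ^ (-(k j))) ((A.f ^ (k j)) ((A.α ^ (j : ℤ)) e))) := by
        rw [h]
      have h3 : (A.f ^ (-(k j))) ((A.f ^ (k j)) ((A.α ^ (j : ℤ)) e)) = (A.α ^ (j : ℤ)) e := by
        rw [← Equiv.Perm.mul_apply, ← zpow_add, neg_add_cancel, zpow_zero]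
        rfl
      have h4 : (A.f ^ (-(k j))) ((A.f ^ (k i)) ((A.α ^ (i : ℤ)) e)) =
          (A.α ^ (i : ℤ)) ((A.f ^ (k i - k j)) e) := by
        rw [← Equiv.Perm.mul_apply, ← zpow_add, A.fz_α]
        congr 3
        ring
      rw [h3, h4] at h2
      have h5 : (A.α ^ (-(i : ℤ))) ((A.α ^ (i : ℤ)) ((A.f ^ (k i - k j)) e)) =
          (A.f ^ (k i - k j)) e := by
        rw [← Equiv.Perm.mul_apply, ← zpow_add, neg_add_cancel, zpow_zero]
        rfl
      have h6 : (A.α ^ (-(i : ℤ))) ((A.α ^ (j : ℤ)) e) = (A.α ^ ((j : ℤ) - i)) e := by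
        rw [← Equiv.Perm.mul_apply, ← zpow_add, sub_eq_neg_add]
      rw [h5, h6] at h2
      exact h2.symm
    refine ⟨?_, h1⟩
    have hx : A.x e < A.x ((A.α ^ (((j - i : ℕ)) : ℤ)) e) := by
      have := A.x_αz_strictMono e (show (0 : ℤ) < ((j - i : ℕ) : ℤ) by omega)
      simpa using this
    rw [h1, A.x_fz] at hx
    have hlam : 1 < A.lam ^ (k i - k j) := by
      have hp := A.x_pos e
      by_contra hcon
      rw [not_lt] at hcon
      have := mul_le_mul_of_nonneg_right hcon hp.le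
      linarith
    exact (one_lt_zpow_iff_right₀ A.one_lt_lam).mp hlam
  rcases lt_or_gt_of_ne hij with h | h
  · exact key i j h heq'
  · exact key j i h heq'.symm

private theorem T1_per_mul (e : E) (N m : ℤ) (h : (A.α ^ N) e = (A.f ^ m) e) (t : ℤ) :
    (A.α ^ (N * t)) e = (A.f ^ (m * t)) e := by
  have hc : Commute ((A.f ^ m)⁻¹) (A.α ^ N) := (A.T1_comm_α.zpow_zpow m N).inv_left
  have h1 : ((A.f ^ m)⁻¹ * A.α ^ N) e = e := by
    rw [Equiv.Perm.mul_apply, h]
    simp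
  have h2 : (((A.f ^ m)⁻¹ * A.α ^ N) ^ t) e = e :=
    Equiv.Perm.zpow_apply_eq_self_of_apply_eq_self h1 t
  rw [hc.mul_zpow, inv_zpow, ← zpow_mul, ← zpow_mul, Equiv.Perm.mul_apply,
    Equiv.Perm.inv_eq_iff_eq] at h2
  exact h2

private theorem T1_small (a ε : ℝ) (hε : 0 < ε) (m : ℤ) (hm : 0 < m) :
    ∃ t : ℕ, A.lam ^ (-(m * (t : ℤ))) * a < ε := by
  have h1 : 1 < A.lam ^ m := (one_lt_zpow_iff_right₀ A.one_lt_lam).mpr hm
  have hp : 0 < A.lam ^ m := lt_trans zero_lt_one h1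
  obtain ⟨t, ht⟩ := pow_unbounded_of_one_lt (a / ε) h1
  refine ⟨t, ?_⟩
  rw [zpow_neg, zpow_mul, zpow_natCast, inv_mul_lt_iff₀ (by positivity)]
  rwa [div_lt_iff₀ hε] at ht

theorem exists_x_lt (e : E) (ε : ℝ) (hε : 0 < ε) :
    ∃ i : ℕ, A.x ((A.α ^ (-(i : ℤ))) e) < ε := by
  obtain ⟨N, _, m, hm, h⟩ := A.α_per e
  obtain ⟨t, ht⟩ := A.T1_small (A.x e) ε hε m hm
  refine ⟨N * t, ?_⟩
  have h1 := A.T1_per_mul e N m h (-(t : ℤ))
  have h2 : (-(((N * t : ℕ)) : ℤ)) = (N : ℤ) * (-(t : ℤ)) := by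
    push_cast
    ring
  rw [h2, h1, A.x_fz, mul_neg]
  exact ht

theorem exists_y_lt (e : E) (ε : ℝ) (hε : 0 < ε) :
    ∃ i : ℕ, A.y ((A.α ^ (i : ℤ)) e) < ε := by
  obtain ⟨N, _, m, hm, h⟩ := A.α_per e
  obtain ⟨t, ht⟩ := A.T1_small (A.y e) ε hε m hm
  refine ⟨N * t, ?_⟩
  have h1 := A.T1_per_mul e N m h (t : ℤ)
  have h2 : ((((N * t : ℕ)) : ℤ)) = (N : ℤ) * (t : ℤ) := by
    push_cast
    ring
  rw [h2, h1, A.y_fz]
  exact ht

end VAlg

end Pool.Agent.Lib.MP_481aff_gt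
end

section

/-! # The chain of left faces of a dart: first and last -/

namespace Pool.Agent.Lib.MP_481aff_gt

namespace VAlg

variable {E : Type} (A : VAlg E)

theorem sameC_or_chg (e : E) : A.SameC e ∨ A.Chg e := A.flip e

theorem t2_sameC_ι (e : E) (h : A.SameC e) : A.SameC (A.ι e) := by
  obtain ⟨h1, h2, h3⟩ := h
  refine ⟨?_, ?_, ?_⟩
  · rw [A.ι_ι, h1, A.ι_ι]
  · rw [A.ι_ι, h3]
  · rw [A.ι_ι, h2]

theorem t2_chg_ι (e : E) (h : A.Chg e) : A.Chg (A.ι e) := by
  obtain ⟨h1, h2, h3⟩ := h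
  refine ⟨?_, ?_, ?_⟩
  · rw [A.ι_ι, h1, A.ι_ι]
  · rw [A.ι_ι, h3]
  · rw [A.ι_ι, h2]

theorem sameC_ι (e : E) : A.SameC (A.ι e) ↔ A.SameC e :=
  ⟨fun h => by have := A.t2_sameC_ι _ h; rwa [A.ι_ι] at this, A.t2_sameC_ι e⟩

theorem chg_ι (e : E) : A.Chg (A.ι e) ↔ A.Chg e :=
  ⟨fun h => by have := A.t2_chg_ι _ h; rwa [A.ι_ι] at this, A.t2_chg_ι e⟩

theorem chg_y (e : E) (h : A.Chg e) : A.y (A.W e) + A.y (A.W (A.ι e)) < A.y e := by
  have h1 := A.y_W e
  have h2 := A.y_W (A.S e)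
  rw [h.2.1] at h2
  have := A.y_pos (A.W (A.S e))
  linarith

theorem sameC_comm (e : E) (h : A.SameC e) : A.α (A.β⁻¹ e) = A.β⁻¹ (A.α e) := by
  rw [β_inv_apply, β_inv_apply, α_apply, α_apply, A.ι_ι, h.1, A.ι_ι]

/-- (G) -/
theorem S_ι_α (e : E) (h : A.SameC e) : A.S (A.ι (A.α e)) = A.S (A.ι e) := by
  rw [α_apply, A.ι_ι, h.2.1]

theorem S_β_inv (e : E) (h : A.SameC e) : A.S (A.β⁻¹ e) = A.S e := by
  rw [β_inv_apply, h.2.2]

theorem t2_β_neg_succ (j : ℕ) (e : E) :
    (A.β ^ (-((j + 1 : ℕ) : ℤ))) e = A.β⁻¹ ((A.β ^ (-(j : ℤ))) e) := by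
  rw [← Equiv.Perm.mul_apply]
  congr 1
  rw [← zpow_neg_one, ← zpow_add]
  congr 1
  push_cast
  ring

theorem t2_β_succ (j : ℕ) (e : E) :
    (A.β ^ ((j + 1 : ℕ) : ℤ)) e = A.β ((A.β ^ (j : ℤ)) e) := by
  rw [← Equiv.Perm.mul_apply]
  congr 1
  conv_rhs => rw [← zpow_one A.β, ← zpow_mul, one_mul, ← zpow_add]
  congr 1
  push_cast
  ring

theorem t2_inv_self (e : E) : A.β⁻¹ (A.β e) = e := by simp

theorem t2_S_neg (e : E) (i : ℕ) (h : ∀ j : ℕ, j < i → A.SameC ((A.β ^ (-(j : ℤ))) e)) :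
    ∀ j : ℕ, j ≤ i → A.S ((A.β ^ (-(j : ℤ))) e) = A.S e ∧
      A.α ((A.β ^ (-(j : ℤ))) e) = (A.β ^ (-(j : ℤ))) (A.α e) := by
  intro j
  induction j with
  | zero => intro _; simp
  | succ j ih =>
    intro hj
    obtain ⟨h1, h2⟩ := ih (by omega)
    have h3 := h j (by omega)
    rw [t2_β_neg_succ, t2_β_neg_succ]
    exact ⟨by rw [A.S_β_inv _ h3, h1], by rw [A.sameC_comm _ h3, h2]⟩

theorem t2_S_pos (e : E) (i : ℕ)
    (h : ∀ j : ℕ, 1 ≤ j → j ≤ i → A.SameC ((A.β ^ (j : ℤ)) e)) :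
    ∀ j : ℕ, j ≤ i → A.S ((A.β ^ (j : ℤ)) e) = A.S e ∧
      A.α ((A.β ^ (j : ℤ)) e) = (A.β ^ (j : ℤ)) (A.α e) := by
  intro j
  induction j with
  | zero => intro _; simp
  | succ j ih =>
    intro hj
    obtain ⟨h1, h2⟩ := ih (by omega)
    have h3 := h (j + 1) (by omega) hj
    have h4 : A.β⁻¹ ((A.β ^ ((j + 1 : ℕ) : ℤ)) e) = (A.β ^ (j : ℤ)) e := by
      rw [t2_β_succ, t2_inv_self]
    refine ⟨?_, ?_⟩
    · rw [← A.S_β_inv _ h3, h4, h1]
    · have h5 := A.sameC_comm _ h3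
      rw [h4, h2, Equiv.Perm.eq_inv_iff_eq] at h5
      rw [← h5, t2_β_succ]

/-- `β` is periodic modulo `f`. -/
theorem t2_β_per (e : E) : ∃ N : ℕ, 0 < N ∧ ∃ m : ℤ, m ≠ 0 ∧
    (A.β ^ (-(N : ℤ))) e = (A.f ^ m) e := by
  obtain ⟨N, hN, m, hm, h⟩ := A.α_per (A.ι e)
  refine ⟨N, hN, m, hm.ne', ?_⟩
  rw [β_zpow, neg_neg, h, fz_ι, A.ι_ι]

/-- Forward: the last step face over `S e`. Termination: if all `β⁻ʲ e` were `SameC` then they all
have the same `S`, but `β⁻ᴺ e = f ^ m e` for some `N, m > 0` (`α_per` for `ι e`). -/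
theorem exists_last (e : E) : ∃ i : ℕ, A.Chg ((A.β ^ (-(i : ℤ))) e) ∧
    (∀ j : ℕ, j < i → A.SameC ((A.β ^ (-(j : ℤ))) e)) ∧
    (∀ j : ℕ, j ≤ i → A.S ((A.β ^ (-(j : ℤ))) e) = A.S e) ∧
    (∀ j : ℕ, j ≤ i → A.α ((A.β ^ (-(j : ℤ))) e) = (A.β ^ (-(j : ℤ))) (A.α e)) := by
  classical
  have hex : ∃ i : ℕ, ¬ A.SameC ((A.β ^ (-(i : ℤ))) e) := by
    by_contra hcon
    have hall : ∀ i : ℕ, A.SameC ((A.β ^ (-(i : ℤ))) e) := fun i => by
      by_contra h
      exact hcon ⟨i, h⟩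
    obtain ⟨N, -, m, hm, h⟩ := A.t2_β_per e
    have h1 := (A.t2_S_neg e N (fun j _ => hall j) N le_rfl).1
    rw [h, ← fz_S] at h1
    exact hm (A.eq_zero_of_fz m _ h1)
  have hmin : ∀ j : ℕ, j < Nat.find hex → A.SameC ((A.β ^ (-(j : ℤ))) e) := fun j hj => by
    by_contra h
    exact Nat.find_min hex hj h
  refine ⟨Nat.find hex, ?_, hmin, fun j hj => (A.t2_S_neg e _ hmin j hj).1,
    fun j hj => (A.t2_S_neg e _ hmin j hj).2⟩
  exact (A.sameC_or_chg _).resolve_left (Nat.find_spec hex)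

/-- Backward: the first step face over `S e`; it is `S ι W⁻¹ (S e)`. -/
theorem exists_first (e : E) : ∃ i : ℕ,
    (∀ j : ℕ, 1 ≤ j → j ≤ i → A.SameC ((A.β ^ (j : ℤ)) e)) ∧
    (∀ j : ℕ, j ≤ i → A.S ((A.β ^ (j : ℤ)) e) = A.S e) ∧
    (∀ j : ℕ, j ≤ i → A.α ((A.β ^ (j : ℤ)) e) = (A.β ^ (j : ℤ)) (A.α e)) ∧
    A.Chg (A.W⁻¹ (A.S e)) ∧ (A.β ^ (i : ℤ)) e = A.S (A.ι (A.W⁻¹ (A.S e))) := by
  classical
  have hex : ∃ i : ℕ, ¬ A.SameC ((A.β ^ ((i + 1 : ℕ) : ℤ)) e) := by
    by_contra hcon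
    have hall : ∀ i : ℕ, A.SameC ((A.β ^ ((i + 1 : ℕ) : ℤ)) e) := fun i => by
      by_contra h
      exact hcon ⟨i, h⟩
    obtain ⟨N, -, m, hm, h⟩ := A.t2_β_per e
    have h1 := (A.t2_S_pos e N (fun j hj _ => by
      obtain ⟨j', rfl⟩ := Nat.exists_eq_succ_of_ne_zero (by omega : j ≠ 0)
      exact hall j') N le_rfl).1
    have h2 : e = (A.β ^ (N : ℤ)) ((A.f ^ m) e) := by
      rw [← h, ← Equiv.Perm.mul_apply, ← zpow_add]
      simp
    have h3 : (A.β ^ (N : ℤ)) e = (A.f ^ (-m)) e := by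
      have h4 : (A.f ^ (-m)) e = (A.f ^ (-m)) ((A.β ^ (N : ℤ)) ((A.f ^ m) e)) := by rw [← h2]
      rw [h4, fz_β, ← Equiv.Perm.mul_apply (A.f ^ (-m)), ← zpow_add]
      simp
    rw [h3, ← fz_S] at h1
    have := A.eq_zero_of_fz (-m) _ h1
    omega
  have hmin : ∀ j : ℕ, 1 ≤ j → j ≤ Nat.find hex → A.SameC ((A.β ^ (j : ℤ)) e) :=
      fun j hj1 hj => by
    obtain ⟨j', rfl⟩ := Nat.exists_eq_succ_of_ne_zero (by omega : j ≠ 0)
    by_contra h
    exact Nat.find_min hex (show j' < Nat.find hex by omega) h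
  have hS := A.t2_S_pos e _ hmin
  set i := Nat.find hex with hi
  have hchg : A.Chg ((A.β ^ ((i + 1 : ℕ) : ℤ)) e) :=
    (A.sameC_or_chg _).resolve_left (Nat.find_spec hex)
  set u := (A.β ^ ((i + 1 : ℕ) : ℤ)) e with hu
  have he1 : (A.β ^ (i : ℤ)) e = A.S (A.S u) := by
    rw [hchg.2.1, ← β_inv_apply, hu, t2_β_succ, t2_inv_self]
  obtain ⟨i', hc', -, hS', -⟩ := A.exists_last (A.S u)
  have h1 := hS' i' le_rfl
  have h2 := hc'.2.1
  rw [h1, ← he1, (hS i le_rfl).1] at h2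
  have h3 : A.W⁻¹ (A.S e) = A.ι ((A.β ^ (-(i' : ℤ))) (A.S u)) := by
    rw [Equiv.Perm.inv_eq_iff_eq, h2]
  refine ⟨i, hmin, fun j hj => (hS j hj).1, fun j hj => (hS j hj).2, ?_, ?_⟩
  · rw [h3, chg_ι]
    exact hc'
  · rw [h3, A.ι_ι, h1, he1]

end VAlg

end Pool.Agent.Lib.MP_481aff_gt
end

section

/-! # The chain of left faces of a dart: consequences -/

namespace Pool.Agent.Lib.MP_481aff_gt

namespace VAlg

variable {E : Type} (A : VAlg E)

/-- (M1): the wide left face of the dart `S e` is taller than `F(e)`. -/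
theorem M1 (e : E) : A.y e < A.y (A.W⁻¹ (A.S e)) := by
  obtain ⟨i, -, -, -, -, h⟩ := A.exists_first e
  have h1 : A.y e ≤ A.y ((A.β ^ (i : ℤ)) e) := by
    have := (A.y_βz_strictMono e).monotone (show (0 : ℤ) ≤ (i : ℤ) by positivity)
    simpa using this
  have h2 := A.y_W (A.ι (A.W⁻¹ (A.S e)))
  have h3 := A.y_pos (A.W (A.ι (A.W⁻¹ (A.S e))))
  rw [A.y_ι] at h2
  rw [h] at h1
  linarith

/-- (M2): the tall left face of the dart `S e` is wider than `F(e)`. -/
theorem M2 (e : E) : A.x (A.W e) < A.x (A.W (A.S e)) := by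
  obtain ⟨i, hc, -, hS, hα⟩ := A.exists_last e
  have hS' := hS i le_rfl
  have hα' := hα i le_rfl
  set v := (A.β ^ (-(i : ℤ))) e with hv
  have h1 : A.x (A.α e) ≤ A.x ((A.β ^ (-(i : ℤ))) (A.α e)) := by
    have := (A.x_βz_strictAnti (A.α e)).antitone (show (-(i : ℤ)) ≤ 0 by simp)
    simpa using this
  rw [← hα', α_apply, α_apply, A.x_ι, A.x_ι] at h1
  have h2 := A.x_W (A.S v)
  rw [hc.2.1] at h2
  have h3 := A.x_W (A.ι v)
  rw [A.x_ι] at h3
  have h4 := A.x_W v
  have h5 := A.x_pos (A.S (A.ι v))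
  rw [← hS']
  linarith

theorem t3_cancel (i i' : ℤ) (a b : E) (h : (A.β ^ i') a = (A.β ^ i) b) :
    a = (A.β ^ (i - i')) b := by
  have e1 : (A.β ^ (-i')) ((A.β ^ i') a) = a := by
    rw [← Equiv.Perm.mul_apply, ← zpow_add, neg_add_cancel, zpow_zero, Equiv.Perm.one_apply]
  have e2 : (A.β ^ (-i')) ((A.β ^ i) b) = (A.β ^ (i - i')) b := by
    rw [← Equiv.Perm.mul_apply, ← zpow_add, neg_add_eq_sub]
  rw [← e1, h, e2]

/-- (F): darts with the same step dart. -/
theorem exists_βz_of_S_eq (e e' : E) (h : A.S e = A.S e') :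
    ∃ j : ℤ, e' = (A.β ^ j) e ∧ A.α e' = (A.β ^ j) (A.α e) := by
  obtain ⟨i, -, -, hα, -, hi⟩ := A.exists_first e
  obtain ⟨i', -, -, hα', -, hi'⟩ := A.exists_first e'
  have hα1 := hα i le_rfl
  have hα2 := hα' i' le_rfl
  rw [← h, ← hi] at hi'
  rw [hi', hα1] at hα2
  exact ⟨(i : ℤ) - (i' : ℤ), A.t3_cancel _ _ _ _ hi', A.t3_cancel _ _ _ _ hα2.symm⟩

/-- (UR) -/
theorem UR (k : E) :
    (A.α (A.β k) = A.β (A.α k) ∧ A.x k + A.x (A.α (A.β k)) = A.x (A.α k) + A.x (A.β k) ∧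
      A.y k + A.y (A.α (A.β k)) = A.y (A.α k) + A.y (A.β k)) ∨
    (A.y (A.α (A.β k)) < A.y (A.β k) - A.y k ∧
      A.x k - A.x (A.β k) + A.x (A.α (A.β k)) < A.x (A.α k) ∧
      A.x k < A.x (A.α k) - A.x (A.β (A.α k))) := by
  obtain ⟨u, rfl⟩ := A.W.surjective k
  have hβ : A.β (A.W u) = A.ι u := by
    rw [β_apply]
    congr 1
    rw [Equiv.Perm.inv_eq_iff_eq]
  have xu := A.x_W u
  have yu := A.y_W u
  have xk := A.x_W (A.W u)
  have yk := A.y_W (A.W u)
  have xi := A.x_W (A.ι u)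
  have yi := A.y_W (A.ι u)
  rw [A.x_ι] at xi
  rw [A.y_ι] at yi
  rcases A.sameC_or_chg u with h | h
  · left
    have h2 := h.2.1
    have hβα : A.β (A.α (A.W u)) = A.ι (A.W (A.ι u)) := by
      rw [β_apply, α_apply]
      congr 1
      rw [Equiv.Perm.inv_eq_iff_eq, h.1]
    rw [hβ, hβα, α_apply, α_apply, A.x_ι, A.x_ι, A.x_ι, A.y_ι, A.y_ι, A.y_ι]
    rw [h2] at xk yk
    exact ⟨rfl, by linarith, by linarith⟩
  · right
    obtain ⟨i, hc, -, hS, -⟩ := A.exists_last (A.S (A.ι u))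
    have hS' := hS i le_rfl
    set v := (A.β ^ (-(i : ℤ))) (A.S (A.ι u)) with hv
    rw [h.2.2] at hS'
    have m2 := A.M2 (A.S (A.ι u))
    rw [h.2.2, h.1, A.x_ι] at m2
    have xs := A.x_W (A.S u)
    have ys := A.y_W (A.S u)
    rw [h.2.1] at xs ys
    have hβα : A.β (A.α (A.W u)) = A.ι (A.S (A.ι v)) := by
      rw [β_apply, α_apply]
      congr 1
      rw [Equiv.Perm.inv_eq_iff_eq, hc.1, hS']
    have hSS : A.S (A.W u) = A.W (A.ι v) := by rw [← hS', hc.2.1]
    have xv := A.x_W (A.ι v)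
    rw [A.x_ι] at xv
    rw [hSS] at xk
    have p1 := A.y_pos (A.W (A.S u))
    have p2 := A.x_pos v
    rw [hβ, hβα, α_apply, α_apply, A.x_ι, A.x_ι, A.x_ι, A.x_ι, A.y_ι, A.y_ι]
    exact ⟨by linarith, by linarith, by linarith⟩

end VAlg

end Pool.Agent.Lib.MP_481aff_gt
end

section

/-! # Consequences of the sum rules -/

namespace Pool.Agent.Lib.MP_481aff_gt

namespace VAlg

variable {E : Type} (A : VAlg E)

private theorem T5_sum {J : Type} (s : Finset J) (v : J → E) (b : Bool)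
    (hv : ∀ i ∈ s, A.c (v i) = b)
    (hne : ∀ i ∈ s, ∀ j ∈ s, i ≠ j → ∀ m : ℤ, v j ≠ (A.f ^ m) (v i))
    (G : E → ℝ) (hG0 : ∀ e, 0 ≤ G e) (hGf : ∀ (k : ℤ) e, G ((A.f ^ k) e) = G e) :
    ∑ i ∈ s, G (v i) ≤ ∑ e ∈ A.R with A.c e = b, G e := by
  classical
  choose k hk _ using A.rep
  have hk' : ∀ e, (A.f ^ (k e)) e ∈ A.R := hk
  have hinj : Set.InjOn (fun i => (A.f ^ (k (v i))) (v i)) (s : Set J) := by
    intro i hi j hj hij
    by_contra hne'
    have h1 : (A.f ^ (k (v i))) (v i) = (A.f ^ (k (v j))) (v j) := hij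
    apply hne i hi j hj hne' (k (v i) - k (v j))
    have h2 : (A.f ^ (-(k (v j)))) ((A.f ^ (k (v i))) (v i)) =
        (A.f ^ (-(k (v j)))) ((A.f ^ (k (v j))) (v j)) := by rw [h1]
    rw [← Equiv.Perm.mul_apply, ← Equiv.Perm.mul_apply, ← zpow_add, ← zpow_add, neg_add_cancel,
      zpow_zero] at h2
    rw [sub_eq_neg_add]
    exact h2.symm
  calc ∑ i ∈ s, G (v i) = ∑ i ∈ s, G ((A.f ^ (k (v i))) (v i)) :=
        Finset.sum_congr rfl fun i _ => (hGf _ _).symm
    _ = ∑ e ∈ s.image (fun i => (A.f ^ (k (v i))) (v i)), G e := (Finset.sum_image hinj).symm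
    _ ≤ ∑ e ∈ A.R with A.c e = b, G e := by
        refine Finset.sum_le_sum_of_subset_of_nonneg ?_ fun e _ _ => hG0 e
        intro e he
        obtain ⟨i, hi, rfl⟩ := Finset.mem_image.mp he
        exact Finset.mem_filter.mpr ⟨hk' _, by rw [A.c_fz, hv i hi]⟩

private theorem T5_xW (e : E) : A.x e < A.x (A.W e) := by
  rw [A.x_W]
  linarith [A.x_pos (A.S e)]

private theorem T5_yW (e : E) : A.y (A.W e) < A.y e := by
  rw [A.y_W e]
  linarith [A.y_pos (A.S e)]

private theorem T5_gx0 (e : E) : 0 ≤ Real.log (A.x (A.W e) / A.x e) :=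
  Real.log_nonneg (by
    rw [one_le_div (A.x_pos e)]
    exact (A.T5_xW e).le)

private theorem T5_gy0 (e : E) : 0 ≤ Real.log (A.y e / A.y (A.W e)) :=
  Real.log_nonneg (by
    rw [one_le_div (A.y_pos _)]
    exact (A.T5_yW e).le)

private theorem T5_gxf (k : ℤ) (e : E) :
    Real.log (A.x (A.W ((A.f ^ k) e)) / A.x ((A.f ^ k) e)) = Real.log (A.x (A.W e) / A.x e) := by
  rw [← A.fz_W, A.x_fz, A.x_fz, mul_div_mul_left]
  exact (zpow_pos A.lam_pos k).ne'

private theorem T5_gyf (k : ℤ) (e : E) :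
    Real.log (A.y ((A.f ^ k) e) / A.y (A.W ((A.f ^ k) e))) = Real.log (A.y e / A.y (A.W e)) := by
  rw [← A.fz_W, A.y_fz, A.y_fz, mul_div_mul_left]
  exact (zpow_pos A.lam_pos (-k)).ne'

private theorem T5_two (e e' : E) (G : E → ℝ) (hG0 : ∀ e, 0 ≤ G e)
    (hGf : ∀ (k : ℤ) e, G ((A.f ^ k) e) = G e) (hc : A.c e = A.c e')
    (hS : ∑ r ∈ A.R with A.c r = A.c e, G r = 2 * Real.log A.D)
    (h : Real.log A.D < G e) (h' : Real.log A.D < G e') : ∃ k : ℤ, e' = (A.f ^ k) e := by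
  classical
  by_contra hcon
  have hcon1 : ∀ k : ℤ, e' ≠ (A.f ^ k) e := fun k hk => hcon ⟨k, hk⟩
  have hcon2 : ∀ k : ℤ, e ≠ (A.f ^ k) e' := by
    intro k hk
    apply hcon1 (-k)
    rw [zpow_neg, Equiv.Perm.eq_inv_iff_eq]
    exact hk.symm
  have key := A.T5_sum (Finset.univ : Finset Bool) (fun b => if b = true then e else e') (A.c e)
    (by
      intro b _
      cases b
      · simp [hc]
      · simp) (by
      intro b _ b' _ hbb m
      cases b <;> cases b'
      · exact absurd rfl hbb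
      · simpa using hcon2 m
      · simpa using hcon1 m
      · exact absurd rfl hbb) G hG0 hGf
  rw [hS] at key
  simp at key
  linarith

/-- Two darts of one colour with large horizontal ratio are equivalent. -/
theorem U_x (e e' : E) (hc : A.c e = A.c e') (h : A.D * A.x e < A.x (A.W e))
    (h' : A.D * A.x e' < A.x (A.W e')) : ∃ k : ℤ, e' = (A.f ^ k) e := by
  refine A.T5_two e e' (fun e => Real.log (A.x (A.W e) / A.x e)) A.T5_gx0 A.T5_gxf hc
    (A.sum_x _) ?_ ?_
  · exact Real.log_lt_log A.D_pos (by rwa [lt_div_iff₀ (A.x_pos e)])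
  · exact Real.log_lt_log A.D_pos (by rwa [lt_div_iff₀ (A.x_pos e')])

/-- Two darts of one colour with large vertical ratio are equivalent. -/
theorem U_y (e e' : E) (hc : A.c e = A.c e') (h : A.D * A.y (A.W e) < A.y e)
    (h' : A.D * A.y (A.W e') < A.y e') : ∃ k : ℤ, e' = (A.f ^ k) e := by
  refine A.T5_two e e' (fun e => Real.log (A.y e / A.y (A.W e))) A.T5_gy0 A.T5_gyf hc
    (A.sum_y _) ?_ ?_
  · exact Real.log_lt_log A.D_pos (by rwa [lt_div_iff₀ (A.y_pos _)])
  · exact Real.log_lt_log A.D_pos (by rwa [lt_div_iff₀ (A.y_pos _)])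

/-- The total horizontal ratio over pairwise inequivalent consecutive darts is at most `D ^ 2`. -/
theorem x_αz_le (u : E) (K : ℕ) (hinj : ∀ i j : ℕ, i < j → j < K → ∀ m : ℤ,
    (A.α ^ (j : ℤ)) u ≠ (A.f ^ m) ((A.α ^ (i : ℤ)) u)) :
    A.x ((A.α ^ (K : ℤ)) u) ≤ A.D ^ 2 * A.x u := by
  classical
  have hlog : ∀ n : ℕ, Real.log (A.x ((A.α ^ (n : ℤ)) u) / A.x u) =
      ∑ i ∈ Finset.range n, Real.log (A.x (A.W ((A.α ^ (i : ℤ)) u)) / A.x ((A.α ^ (i : ℤ)) u)) := by
    intro n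
    induction n with
    | zero =>
      simp only [Nat.cast_zero, zpow_zero, Equiv.Perm.coe_one, id_eq, Finset.range_zero,
        Finset.sum_empty]
      rw [div_self (A.x_pos u).ne', Real.log_one]
    | succ n ih =>
      rw [Finset.sum_range_succ, ← ih]
      have h1 : (A.α ^ ((n + 1 : ℕ) : ℤ)) u = A.α ((A.α ^ (n : ℤ)) u) := by
        push_cast
        rw [← mul_self_zpow]
        rfl
      have h2 : A.x ((A.α ^ ((n + 1 : ℕ) : ℤ)) u) = A.x (A.W ((A.α ^ (n : ℤ)) u)) := by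
        rw [h1, A.α_apply, A.x_ι]
      rw [h2]
      have p0 := (A.x_pos u).ne'
      have p1 := (A.x_pos ((A.α ^ (n : ℤ)) u)).ne'
      have p2 := (A.x_pos (A.W ((A.α ^ (n : ℤ)) u))).ne'
      rw [Real.log_div p2 p0, Real.log_div p1 p0, Real.log_div p2 p1]
      ring
  have key := A.T5_sum (Finset.range K) (fun i : ℕ => (A.α ^ (i : ℤ)) u) (A.c u)
    (fun i _ => A.c_αz _ _) (by
      intro i hi j hj hij m
      rcases lt_or_gt_of_ne hij with h | h
      · exact hinj i j h (Finset.mem_range.mp hj) m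
      · intro hcon
        apply hinj j i h (Finset.mem_range.mp hi) (-m)
        rw [zpow_neg, Equiv.Perm.eq_inv_iff_eq]
        exact hcon.symm)
    (fun e => Real.log (A.x (A.W e) / A.x e)) A.T5_gx0 A.T5_gxf
  rw [A.sum_x] at key
  have h3 : Real.log (A.x ((A.α ^ (K : ℤ)) u) / A.x u) ≤ Real.log (A.D ^ 2) := by
    rw [hlog K, Real.log_pow]
    exact_mod_cast key
  have h4 : A.x ((A.α ^ (K : ℤ)) u) / A.x u ≤ A.D ^ 2 :=
    (Real.log_le_log_iff (div_pos (A.x_pos _) (A.x_pos _)) (pow_pos A.D_pos 2)).mp h3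
  rwa [div_le_iff₀ (A.x_pos u)] at h4

theorem x_W_le (e : E) : A.x (A.W e) ≤ A.D ^ 2 * A.x e := by
  have h := A.x_αz_le e 1 (by
    intro i j hij hj
    omega)
  have h1 : A.x ((A.α ^ ((1 : ℕ) : ℤ)) e) = A.x (A.W e) := by
    rw [Nat.cast_one, zpow_one, A.α_apply, A.x_ι]
  rwa [h1] at h

end VAlg

end Pool.Agent.Lib.MP_481aff_gt
end

section

/-! # Commutation of `α` and `β` on rectangular grids -/

namespace Pool.Agent.Lib.MP_481aff_gt

namespace VAlg

variable {E : Type} (A : VAlg E)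

theorem T4_α_neg_succ (j : ℕ) (u : E) :
    A.α ((A.α ^ (-((j + 1 : ℕ) : ℤ))) u) = (A.α ^ (-(j : ℤ))) u := by
  rw [← Equiv.Perm.mul_apply, ← zpow_one_add]
  congr 2
  push_cast
  ring

theorem T4_β_neg_succ (i : ℕ) (u : E) :
    A.β ((A.β ^ (-((i + 1 : ℕ) : ℤ))) u) = (A.β ^ (-(i : ℤ))) u := by
  rw [← Equiv.Perm.mul_apply, ← zpow_one_add]
  congr 2
  push_cast
  ring

theorem T4_β_succ (i : ℕ) (u : E) :
    A.β ((A.β ^ (i : ℤ)) u) = (A.β ^ ((i + 1 : ℕ) : ℤ)) u := by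
  rw [← Equiv.Perm.mul_apply, ← zpow_one_add]
  congr 2
  push_cast
  ring

theorem T4_α_succ (j : ℕ) (u : E) :
    A.α ((A.α ^ (j : ℤ)) u) = (A.α ^ ((j + 1 : ℕ) : ℤ)) u := by
  rw [← Equiv.Perm.mul_apply, ← zpow_one_add]
  congr 2
  push_cast
  ring

theorem T4_R1_aux (e : E) (i : ℕ) : ∀ j : ℕ,
    A.x e < A.x ((A.β ^ (i : ℤ)) e) + A.x ((A.α ^ (-(j : ℤ))) e) →
    (A.β ^ (i : ℤ)) ((A.α ^ (-(j : ℤ))) e) = (A.α ^ (-(j : ℤ))) ((A.β ^ (i : ℤ)) e) ∧
    A.x ((A.β ^ (i : ℤ)) ((A.α ^ (-(j : ℤ))) e)) =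
      A.x ((A.β ^ (i : ℤ)) e) + A.x ((A.α ^ (-(j : ℤ))) e) - A.x e := by
  induction i with
  | zero =>
    intro j _
    simp
  | succ i ihi =>
    intro j
    induction j with
    | zero =>
      intro _
      simp
    | succ j ihj =>
      intro h
      have hβ : A.x ((A.β ^ ((i + 1 : ℕ) : ℤ)) e) < A.x ((A.β ^ (i : ℤ)) e) :=
        A.x_βz_strictAnti e (by push_cast; linarith)
      have hα : A.x ((A.α ^ (-((j + 1 : ℕ) : ℤ))) e) < A.x ((A.α ^ (-(j : ℤ))) e) :=
        A.x_αz_strictMono e (by push_cast; linarith)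
      obtain ⟨c1, x1⟩ := ihi (j + 1) (by linarith)
      obtain ⟨c2, x2⟩ := ihj (by linarith)
      obtain ⟨c3, x3⟩ := ihi j (by linarith)
      set k := (A.β ^ (i : ℤ)) ((A.α ^ (-((j + 1 : ℕ) : ℤ))) e) with hk
      have hαk : A.α k = (A.β ^ (i : ℤ)) ((A.α ^ (-(j : ℤ))) e) := by
        rw [c1, T4_α_neg_succ, c3]
      have hβk : A.β k = (A.β ^ ((i + 1 : ℕ) : ℤ)) ((A.α ^ (-((j + 1 : ℕ) : ℤ))) e) := by
        rw [hk, T4_β_succ]
      have hβαk : A.β (A.α k) = (A.β ^ ((i + 1 : ℕ) : ℤ)) ((A.α ^ (-(j : ℤ))) e) := by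
        rw [hαk, T4_β_succ]
      rcases A.UR k with ⟨u1, u2, _⟩ | ⟨_, _, u3⟩
      · refine ⟨?_, ?_⟩
        · rw [← hβk]
          apply A.α.injective
          rw [T4_α_neg_succ, u1, hβαk, c2]
        · rw [← hβk]
          rw [u1] at u2
          rw [hβαk, x2] at u2
          rw [hαk, x3, x1] at u2
          linarith
      · exfalso
        rw [hβαk, x2, hαk, x3, x1] at u3
        linarith

/-- (R1) -/
theorem R1 (e : E) (i j : ℕ)
    (h : A.x e < A.x ((A.β ^ (i : ℤ)) e) + A.x ((A.α ^ (-(j : ℤ))) e)) :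
    (A.β ^ (i : ℤ)) ((A.α ^ (-(j : ℤ))) e) = (A.α ^ (-(j : ℤ))) ((A.β ^ (i : ℤ)) e) ∧
    A.x ((A.β ^ (i : ℤ)) ((A.α ^ (-(j : ℤ))) e)) =
      A.x ((A.β ^ (i : ℤ)) e) + A.x ((A.α ^ (-(j : ℤ))) e) - A.x e :=
  A.T4_R1_aux e i j h

theorem T4_R2_aux (e : E) (i : ℕ) : ∀ j : ℕ,
    A.y e < A.y ((A.β ^ (-(i : ℤ))) e) + A.y ((A.α ^ (j : ℤ)) e) →
    (A.β ^ (-(i : ℤ))) ((A.α ^ (j : ℤ)) e) = (A.α ^ (j : ℤ)) ((A.β ^ (-(i : ℤ))) e) ∧
    A.x ((A.β ^ (-(i : ℤ))) ((A.α ^ (j : ℤ)) e)) =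
      A.x ((A.β ^ (-(i : ℤ))) e) + A.x ((A.α ^ (j : ℤ)) e) - A.x e ∧
    A.y ((A.β ^ (-(i : ℤ))) ((A.α ^ (j : ℤ)) e)) =
      A.y ((A.β ^ (-(i : ℤ))) e) + A.y ((A.α ^ (j : ℤ)) e) - A.y e := by
  induction i with
  | zero =>
    intro j _
    simp
  | succ i ihi =>
    intro j
    induction j with
    | zero =>
      intro _
      simp
    | succ j ihj =>
      intro h
      have hβ : A.y ((A.β ^ (-((i + 1 : ℕ) : ℤ))) e) < A.y ((A.β ^ (-(i : ℤ))) e) :=
        A.y_βz_strictMono e (by push_cast; linarith)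
      have hα : A.y ((A.α ^ ((j + 1 : ℕ) : ℤ)) e) < A.y ((A.α ^ (j : ℤ)) e) :=
        A.y_αz_strictAnti e (by push_cast; linarith)
      obtain ⟨c1, x1, y1⟩ := ihi (j + 1) (by linarith)
      obtain ⟨c2, x2, y2⟩ := ihj (by linarith)
      obtain ⟨c3, x3, y3⟩ := ihi j (by linarith)
      set k := (A.β ^ (-((i + 1 : ℕ) : ℤ))) ((A.α ^ (j : ℤ)) e) with hk
      have hβk : A.β k = (A.β ^ (-(i : ℤ))) ((A.α ^ (j : ℤ)) e) := by
        rw [hk, T4_β_neg_succ]
      have hαβk : A.α (A.β k) = (A.β ^ (-(i : ℤ))) ((A.α ^ ((j + 1 : ℕ) : ℤ)) e) := by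
        rw [hβk, c3, T4_α_succ, c1]
      have hαk : A.α k = (A.α ^ ((j + 1 : ℕ) : ℤ)) ((A.β ^ (-((i + 1 : ℕ) : ℤ))) e) := by
        rw [c2, T4_α_succ]
      rcases A.UR k with ⟨u1, u2, u3⟩ | ⟨u3, _, _⟩
      · have hc : (A.β ^ (-((i + 1 : ℕ) : ℤ))) ((A.α ^ ((j + 1 : ℕ) : ℤ)) e) = A.α k := by
          apply A.β.injective
          rw [T4_β_neg_succ, ← u1, hαβk]
        refine ⟨hc.trans hαk, ?_, ?_⟩
        · rw [hc]
          rw [hαβk, hβk, x1, x2, x3] at u2
          linarith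
        · rw [hc]
          rw [hαβk, hβk, y1, y2, y3] at u3
          linarith
      · exfalso
        rw [hαβk, hβk, y1, y2, y3] at u3
        linarith

/-- (R2) -/
theorem R2 (e : E) (i j : ℕ)
    (h : A.y e < A.y ((A.β ^ (-(i : ℤ))) e) + A.y ((A.α ^ (j : ℤ)) e)) :
    (A.β ^ (-(i : ℤ))) ((A.α ^ (j : ℤ)) e) = (A.α ^ (j : ℤ)) ((A.β ^ (-(i : ℤ))) e) ∧
    A.x ((A.β ^ (-(i : ℤ))) ((A.α ^ (j : ℤ)) e)) =
      A.x ((A.β ^ (-(i : ℤ))) e) + A.x ((A.α ^ (j : ℤ)) e) - A.x e :=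
  ⟨(A.T4_R2_aux e i j h).1, (A.T4_R2_aux e i j h).2.1⟩

end VAlg

end Pool.Agent.Lib.MP_481aff_gt
end
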